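import Pool.Agent.L7h90.JT.Lam

/-! Rigidity of the curves on which an invariant differential expression of the second order is a
nonzero constant. -/

set_option autoImplicit false

open Filter Topology Set Metric MvPolynomial FF

namespace Pool.Agent.L7h90.JT

open Pool.Agent.N155 Pool.Agent.Y190.OP Pool.Agent.W602.GT Pool.Agent.TH143.GT
open Pool.Agent.L7h90.WR

variable {n : ℕ} {K : Type} [Field K] [Algebra ℂ K] {y : Fin (n + 1) → K}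
  {R : ∀ h : K, Frac y h} {𝒞 : (ℂ → Mat (n + 1)) → Prop} {c0 : ℝ} {σ : JD K} {c : ℂ}

/-- **Functions without poles on the curves in the class are constant.** -/
theorem const_gen {T : Set (Mat (n + 1))} (hcls : Cls T c0 𝒞)
    {τ : (ℂ → Mat (n + 1)) → ℂ → ℂ} {G : (ℂ → Mat (n + 1)) → ℂ → Prop}
    (hm : ∀ ψ, 𝒞 ψ → Meromorphic (τ ψ))
    (hG : ∀ ψ, 𝒞 ψ → ∀ᶠ z in codiscrete ℂ, G ψ z)
    (hcont : ∀ ψ, 𝒞 ψ → ∀ z, G ψ z → ContinuousAt (τ ψ) z)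
    (hshift : ∀ (ψ : ℂ → Mat (n + 1)) (t z : ℂ), τ (fun w => ψ (t + w)) z = τ ψ (t + z))
    (hGs : ∀ (ψ : ℂ → Mat (n + 1)) (t z : ℂ), G (fun w => ψ (t + w)) z → G ψ (t + z))
    (hlim : ∀ (𝓤 : Ultrafilter ℕ) (P : ℕ → ℂ → Mat (n + 1)) (χ : ℂ → Mat (n + 1)),
      (∀ m, 𝒞 (P m)) → 𝒞 χ → CConv (𝓤 : Filter ℕ) univ P χ → ∀ z, G χ z →
      (∀ᶠ p : ℕ × ℂ in (𝓤 : Filter ℕ) ×ˢ 𝓝 z, G (P p.1) p.2) ∧
      Tendsto (fun p : ℕ × ℂ => τ (P p.1) p.2) ((𝓤 : Filter ℕ) ×ˢ 𝓝 z) (𝓝 (τ χ z)))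
    {φ : ℂ → Mat (n + 1)} (hφ : 𝒞 φ)
    (hb : ∀ z0, ∃ C : ℝ, ∀ᶠ z in 𝓝[≠] z0, ‖τ φ z‖ ≤ C) :
    ∃ c : ℂ, cl (τ φ) (hm φ hφ) = algebraMap ℂ MK c := by
  have hm' := hm φ hφ
  set F : ℂ → ℂ := toMeromorphicNFOn (τ φ) univ with hF
  have hFa : ∀ z, AnalyticAt ℂ F z := by
    intro z
    obtain ⟨C, hC⟩ := hb z
    exact (nf_bounded hm' hC).1
  have hFe : ∀ᶠ z in codiscrete ℂ, τ φ z = F z := nf_codis hm'
  have hFg : ∀ z, G φ z → τ φ z = F z := fun z hz =>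
    eq_of_codis hFe (hcont φ hφ z hz) (hFa z).continuousAt
  have hbd : ∃ C : ℝ, ∀ z, ‖F z‖ ≤ C := by
    by_contra hcon
    push Not at hcon
    choose z hz using fun m : ℕ => hcon m
    set 𝓤 : Ultrafilter ℕ := hyperfilter ℕ with h𝓤
    have hψ : ∀ m : ℕ, 𝒞 (fun w => φ (z m + w)) := fun m => hcls.shift φ hφ _
    obtain ⟨χ, hχ, hlim'⟩ := hcls.lim 𝓤 _ hψ
    have h1 : ∀ᶠ w in 𝓝 (0 : ℂ), w ∈ ({0} : Set ℂ)ᶜ → G χ w :=
      eventually_nhdsWithin_iff.1 (codis_ev (hG χ hχ) 0)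
    obtain ⟨ε, hε, hsub⟩ := Metric.mem_nhds_iff.1 h1
    have hρ : 0 < ε / 2 := by positivity
    obtain ⟨C, hC⟩ := seq_max (l := (𝓤 : Filter ℕ)) (F := fun m w => F (z m + w)) (z0 := 0) hρ (by
      intro w hw
      have hgw : G χ w := hsub (closedBall_subset_ball (by linarith)
        (sphere_subset_closedBall hw)) (ne_of_mem_sphere hw hρ.ne')
      obtain ⟨h4, h2⟩ := hlim 𝓤 _ χ hψ hχ hlim' w hgw
      have h3 := h2.norm.eventually_lt_const (lt_add_one _)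
      have h5 := h3.and h4
      rw [eventually_prod_iff] at h5
      obtain ⟨pa, hpa, pb, hpb, hab⟩ := h5
      refine ⟨{w | pb w}, hpb, ‖τ χ w‖ + 1, ?_⟩
      filter_upwards [hpa] with m hm w' hw'
      obtain ⟨k1, k2⟩ := hab hm hw'
      have k3 := hGs _ _ _ k2
      rw [← hFg _ k3, ← hshift]
      exact k1.le) (by
      intro w _
      refine ⟨univ, univ_mem, Eventually.of_forall fun m w' _ => ?_⟩
      have h2 : DifferentiableAt ℂ (fun w => F (z m + w)) w' :=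
        DifferentiableAt.comp w' (g := F) (f := fun w => z m + w)
          (hFa (z m + w')).differentiableAt (by fun_prop)
      exact h2.differentiableWithinAt)
    have h6 := hC.and (hyp_ge (C + 1))
    obtain ⟨m, hm1, hm2⟩ := h6.exists
    have h7 := hm1 0 (mem_closedBall_self hρ.le)
    simp only [add_zero] at h7
    have h8 := hz m
    linarith
  obtain ⟨C, hC⟩ := hbd
  obtain ⟨c, hc⟩ := mk_const hm' (C := C) (by
    filter_upwards [hFe] with z hz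
    rw [hz]
    exact hC z)
  exact ⟨c, hc⟩

/-- a dual basis for the basic functions -/
theorem exists_dual_jd {x : Fin 2 → K} {E : Fin 2 → Derivation ℂ K K} (hx : Dual x E)
    (σ : JD K) : ∃ E0 : Fin 2 → Derivation ℂ K K, Dual ![σ.x, σ.y] E0 := by
  have htr : Algebra.trdeg ℂ K ≤ 2 := by
    have := hx.1.cardinalMk_eq_trdeg
    rw [← this, Cardinal.mk_fin]
    exact le_rfl
  have hb : IsTranscendenceBasis ℂ ![σ.x, σ.y] := by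
    apply σ.alg.isTranscendenceBasis_of_trdeg_le_of_finite
    rw [Cardinal.mk_fin]
    exact htr
  obtain ⟨D, hD⟩ := exists_dual hb
  refine ⟨D, hb, fun i j => ?_⟩
  have h1 : D i (![σ.x, σ.y] j) = (1 : Matrix (Fin 2) (Fin 2) K) i j := by
    rw [← hD]
    rfl
  rw [h1, Matrix.one_apply]

/-- classes of Zariski dense curves on which a differential expression is a nonzero constant -/
structure JCls (R : ∀ h : K, Frac y h) (𝒞 : (ℂ → Mat (n + 1)) → Prop) (c0 : ℝ) (σ : JD K)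
    (c : ℂ) : Prop where
  cls : Cls (TX y) c0 𝒞
  cv : ∀ φ, 𝒞 φ → Cv y φ
  seq : ∀ φ, 𝒞 φ → JEq R σ 0 c φ
  lb : ∀ M ∈ TX y, LBa R M
  cne : c ≠ 0
  mpos : 0 < σ.m
  basis : ∃ (x : Fin 2 → K) (E : Fin 2 → Derivation ℂ K K), Dual x E
  forms : ∃ (N : ℕ) (ω0 ω1 : (Fin 2 → Derivation ℂ K K) → K) (D : Fin 2 → Derivation ℂ K K),
    0 < N ∧ IsPluri N ω0 ∧ IsPluri N ω1 ∧
    (∀ v : Place ℂ K, Divisorial 2 v → RegAt v ω0) ∧
    (∀ v : Place ℂ K, Divisorial 2 v → RegAt v ω1) ∧ ω0 D ≠ 0 ∧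
    Transcendental ℂ (ω1 D / ω0 D)

theorem jdfo (h : JCls R 𝒞 c0 σ c) {𝓤 : Ultrafilter ℕ} {φ : ℂ → Mat (n + 1)}
    {P Q : ℕ → ℂ → Mat (n + 1)} {a κ : ℕ → ℂ} (d : Dat 𝒞 𝓤 φ P Q a κ) :
    Dfo y 𝓤 φ P Q (fun m z => κ m * Complex.exp (a m * z)) where
  cv := h.cv φ d.cφ
  hP := fun m => h.cls.hol _ (d.cP m)
  hQ := fun m => h.cls.hol _ (d.cQ m)
  mP := fun m z => h.cls.mem _ (d.cP m) z
  mQ := fun m z => h.cls.mem _ (d.cQ m) z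
  lP := d.lP
  lQ := d.lQ
  wd := fun m => by fun_prop
  bd := d.bd

theorem JCls.exists_mul (h : JCls R 𝒞 c0 σ c) {𝓤 : Ultrafilter ℕ} {φ : ℂ → Mat (n + 1)}
    {P Q : ℕ → ℂ → Mat (n + 1)} {a κ : ℕ → ℂ} (d : Dat 𝒞 𝓤 φ P Q a κ) :
    ∃ g : MK, ∀ k, (jdfo h d).del R k = g * MD ((jdfo h d).cv.emb R k) := by
  obtain ⟨x, E, hx⟩ := h.basis
  obtain ⟨N, ω0, ω1, D, hN, hω0, hω1, hr0, hr1, hD, htr⟩ := h.forms
  obtain ⟨C, hC⟩ := d.tb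
  apply Dfo.exists_mul R (jdfo h d) hx
  refine Dfo.W2_zero R (jdfo h d) (C0 := C) hC h.cls.isCompact_pts (fun z => ?_)
    (Cn := fun _ => True) ?_
    (h.cls.bd φ d.cφ) hN hω0 hω1 (fun v hv _ => hr0 v hv) (fun v hv _ => hr1 v hv) hD htr hx
  · exact ⟨_, h.cls.shift φ d.cφ z, by rw [add_zero]⟩
  · rintro M0 ⟨χ, hχ, rfl⟩
    exact (h.lb _ (h.cls.mem χ hχ 0)).lbc

theorem JCls.rigA (h : JCls R 𝒞 c0 σ c) : RigA 𝒞 := by
  intro 𝓤 φ P Q a κ a0 d ha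
  obtain ⟨g, hg⟩ := h.exists_mul d
  have h1 := jls R (jdfo h d) (a := a) (α := a0) (σ := σ) (c := c)
    (fun m z => exp_der (κ m) (a m) z) ha h.cne h.mpos
    (fun m => h.seq _ (d.cP m)) (fun m => h.seq _ (d.cQ m)) (h.seq _ d.cφ) hg
  obtain ⟨h0, hm, rfl⟩ := MD_eq_mul h1
  refine ⟨h0, fun z z0 s hz hs hsw => ?_⟩
  exact Dfo.nd R (jdfo h d) (γ := fun z => h0 * Complex.exp (a0 * z)) (by fun_prop) hm hg hz hs
    hsw

/-- rigidity follows from the vanishing of the constant -/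
theorem JCls.rigB_of (h : JCls R 𝒞 c0 σ c)
    (hzero : ∀ {𝓤 : Ultrafilter ℕ} {φ : ℂ → Mat (n + 1)} {P Q : ℕ → ℂ → Mat (n + 1)}
      {a κ : ℕ → ℂ} (d : Dat 𝒞 𝓤 φ P Q a κ),
      (∀ C : ℝ, ∀ᶠ m in (𝓤 : Filter ℕ), C ≤ ‖a m‖) → ∀ γ : ℂ,
      (∀ k, (jdfo h d).del R k = algebraMap ℂ MK γ * MD ((jdfo h d).cv.emb R k)) →
      (∀ z, ∀ᶠ p : ℕ × ℂ in (𝓤 : Filter ℕ) ×ˢ 𝓝 z,
        Real.exp (‖a p.1‖ / 2) ≤ ‖κ p.1 * Complex.exp (a p.1 * p.2)‖) → γ = 0) : RigB' 𝒞 := by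
  intro 𝓤 φ P Q a κ d hinf hbd
  obtain ⟨g, hg⟩ := h.exists_mul d
  obtain ⟨B, hB⟩ := hbd
  obtain ⟨x, E, hx⟩ := h.basis
  obtain ⟨γ, rfl⟩ := gam_const R (jdfo h d) hB h.cls.pos (h.cls.low φ d.cφ) hg
  have hγ0 : γ = 0 := by
    by_contra hγ
    have hgne : algebraMap ℂ MK γ ≠ 0 := by
      intro h0
      exact hγ ((map_eq_zero_iff (algebraMap ℂ MK) (algebraMap ℂ MK).injective).1 h0)
    exact hγ (hzero d hinf γ hg (growth (jdfo h d) hinf hx.1.1 hgne hg))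
  subst hγ0
  have hm : Meromorphic (fun _ : ℂ => (0 : ℂ)) := Meromorphic.const 0
  have h2 : algebraMap ℂ MK 0 = cl (fun _ => 0) hm := (cl_const 0).symm
  rw [h2] at hg
  have h3 := Dfo.nd R (jdfo h d) (γ := fun _ => 0) (by fun_prop) hm hg
    (z := fun _ => 0) (z0 := 0) (s := fun _ => 0) tendsto_const_nhds tendsto_const_nhds
    (by simp)
  refine h3.congr fun m => ?_
  simp

theorem JCls.empty_of (h : JCls R 𝒞 c0 σ c) (hB : RigB' 𝒞) {φ : ℂ → Mat (n + 1)} (hφ : 𝒞 φ) :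
    False := by
  obtain ⟨x, E, hx⟩ := h.basis
  exact no_class' R h.cls h.rigA hB h.cv hx.1.1 hφ


end Pool.Agent.L7h90.JT
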