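import Pool.Agent.L7h90.JT.Rig2

/-! There are no curves on which an invariant differential expression of the second order is a
nonzero constant. -/

set_option autoImplicit false

open Filter Topology Set Metric MvPolynomial FF

namespace Pool.Agent.L7h90.JT

open Pool.Agent.N155 Pool.Agent.Y190.OP Pool.Agent.W602.GT Pool.Agent.TH143.GT
open Pool.Agent.L7h90.WR

theorem taylor0 (W : ℂ) {a M : ℕ} (h : a ≤ M) : ∑ t ∈ Finset.range (M + 1),
    (-W) ^ t / (t.factorial : ℂ) * ((a.descFactorial t : ℂ) * W ^ (a - t)) =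
      if a = 0 then 1 else 0 := by
  have h1 : ∑ t ∈ Finset.range (M + 1),
      (-W) ^ t / (t.factorial : ℂ) * ((a.descFactorial t : ℂ) * W ^ (a - t)) =
      ∑ t ∈ Finset.range (M + 1), (-W) ^ t * W ^ (a - t) * (a.choose t : ℂ) := by
    refine Finset.sum_congr rfl fun t _ => ?_
    rw [Nat.descFactorial_eq_factorial_mul_choose]
    have h2 : (t.factorial : ℂ) ≠ 0 := by exact_mod_cast t.factorial_ne_zero
    push_cast
    field_simp
  have h2 : ∑ t ∈ Finset.range (a + 1), (-W) ^ t * W ^ (a - t) * (a.choose t : ℂ) =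
      ∑ t ∈ Finset.range (M + 1), (-W) ^ t * W ^ (a - t) * (a.choose t : ℂ) := by
    apply Finset.sum_subset
    · intro t ht
      rw [Finset.mem_range] at ht ⊢
      omega
    · intro t _ ht
      rw [Finset.mem_range, not_lt] at ht
      rw [Nat.choose_eq_zero_of_lt (by omega)]
      simp
  rw [h1, ← h2, ← add_pow, neg_add_cancel, zero_pow_eq]

variable {n : ℕ} {K : Type} [Field K] [Algebra ℂ K] {y : Fin (n + 1) → K}
  {R : ∀ h : K, Frac y h} {c0 : ℝ} {σ : JD K} {c : ℂ} {φ : ℂ → Mat (n + 1)}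

theorem jv_taylor {M : ℕ} (hM : ∀ s ∈ σ.p.support, s 2 ≤ M) (φ : ℂ → Mat (n + 1)) (z : ℂ) :
    ∑ t ∈ Finset.range (M + 1), (-cw (fun w => ev R σ.x (φ w)) (fun w => ev R σ.y (φ w)) z) ^ t /
      (t.factorial : ℂ) * jv R σ t φ z =
    ∑ s ∈ σ.p.support, ev R (σ.p.coeff s) (φ z) *
      deriv (fun w => ev R σ.x (φ w)) z ^ s 0 * deriv (fun w => ev R σ.y (φ w)) z ^ s 1 *
        (if s 2 = 0 then 1 else 0) := by
  unfold jv
  simp only [Finset.mul_sum]
  rw [Finset.sum_comm]
  refine Finset.sum_congr rfl fun s hs => ?_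
  rw [← taylor0 (cw (fun w => ev R σ.x (φ w)) (fun w => ev R σ.y (φ w)) z) (hM s hs),
    Finset.mul_sum]
  refine Finset.sum_congr rfl fun t _ => ?_
  ring

/-- the part of order one -/
noncomputable def bse (σ : JD K) : SymD K where
  d := σ.m
  r := σ.p.support.card
  h := fun j => if (σ.p.support.equivFin.symm j).1 2 = 0 then
    σ.p.coeff (σ.p.support.equivFin.symm j).1 else 0
  f := fun j l => if (l : ℕ) < (σ.p.support.equivFin.symm j).1 0 then σ.x else σ.y

theorem prod_ite_lt {a b : ℂ} (p q : ℕ) :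
    ∏ l : Fin (p + q), (if (l : ℕ) < p then a else b) = a ^ p * b ^ q := by
  rw [Fin.prod_univ_eq_prod_range (fun l => if l < p then a else b) (p + q),
    Finset.prod_range_add]
  congr 1
  · rw [Finset.prod_congr rfl (g := fun _ => a)]
    · rw [Finset.prod_const, Finset.card_range]
    · intro l hl
      rw [if_pos (Finset.mem_range.1 hl)]
  · rw [Finset.prod_congr rfl (g := fun _ => b)]
    · rw [Finset.prod_const, Finset.card_range]
    · intro l hl
      rw [if_neg (by omega)]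

/-- the equation of order one -/
theorem base_seq {M : ℕ} (hM : ∀ s ∈ σ.p.support, s 2 ≤ M) (h : Cv y φ) (h0 : JEq R σ 0 c φ)
    (hs : ∀ s, 1 ≤ s → s ≤ M → JEq R σ s 0 φ) : SEq R (bse σ) c φ := by
  have h1 : ∀ᶠ z in codiscrete ℂ, sval R (bse σ) φ z = c := by
    have hz0 : ∀ᶠ z in codiscrete ℂ, ev R 0 (φ z) = 0 := by
      have h2 : h.emb R 0 = 0 := map_zero _
      rw [Cv.emb_apply, cl_eq_zero] at h2
      exact h2
    filter_upwards [jgood_codis R h σ, hz0] with z hz hz0
    have h3 := jv_taylor (R := R) hM φ z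
    rw [Finset.sum_range_succ', h0 z hz] at h3
    have h4 : ∑ t ∈ Finset.range M, (-cw (fun w => ev R σ.x (φ w)) (fun w => ev R σ.y (φ w)) z) ^
        (t + 1) / ((t + 1).factorial : ℂ) * jv R σ (t + 1) φ z = 0 := by
      refine Finset.sum_eq_zero fun t ht => ?_
      rw [hs (t + 1) (by omega) (by rw [Finset.mem_range] at ht; omega) z hz, mul_zero]
    rw [h4] at h3
    simp only [pow_zero, Nat.factorial_zero, Nat.cast_one, div_one, one_mul, zero_add] at h3
    rw [h3]
    unfold sval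
    change ∑ j : Fin σ.p.support.card, _ = _
    rw [← Finset.sum_coe_sort σ.p.support]
    rw [← Equiv.sum_comp σ.p.support.equivFin.symm]
    refine Finset.sum_congr rfl fun j _ => ?_
    set s := σ.p.support.equivFin.symm j with hs'
    have hf : ∀ l, (bse σ).f j l = if (l : ℕ) < s.1 0 then σ.x else σ.y := fun l => rfl
    have hh : (bse σ).h j = if s.1 2 = 0 then σ.p.coeff s.1 else 0 := rfl
    rw [hh]
    by_cases h2 : s.1 2 = 0
    · rw [if_pos h2, if_pos h2, mul_one]
      have h5 := σ.hom s.1 s.2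
      rw [h2, mul_zero, add_zero] at h5
      have h6 : ∏ l : Fin σ.m, deriv (fun w => ev R ((bse σ).f j l) (φ w)) z =
          deriv (fun w => ev R σ.x (φ w)) z ^ s.1 0 *
            deriv (fun w => ev R σ.y (φ w)) z ^ s.1 1 := by
        have h7 : ∀ l : Fin σ.m, deriv (fun w => ev R ((bse σ).f j l) (φ w)) z =
            if (l : ℕ) < s.1 0 then deriv (fun w => ev R σ.x (φ w)) z else
              deriv (fun w => ev R σ.y (φ w)) z := by
          intro l
          rw [hf l]
          split_ifs <;> rfl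
        rw [Finset.prod_congr rfl fun l _ => h7 l, ← prod_ite_lt, h5]
      have h8 : ∏ l : Fin (bse σ).d, deriv (fun w => ev R ((bse σ).f j l) (φ w)) z =
          ∏ l : Fin σ.m, deriv (fun w => ev R ((bse σ).f j l) (φ w)) z := rfl
      rw [h8, h6]
      ring
    · rw [if_neg h2, if_neg h2, mul_zero, hz0, zero_mul]
  intro z hz
  exact eq_of_codis h1 (sval_an R h hz).continuousAt continuousAt_const

/-- the class of curves in `S` -/
structure KJ (R : ∀ h : K, Frac y h) (S : Set (Mat (n + 1))) (σ : JD K) (c : ℂ) (c0 : ℝ) (t : ℕ)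
    (φ : ℂ → Mat (n + 1)) : Prop where
  hol : HolP univ φ
  mem : ∀ z, φ z ∈ TX y
  av : ∀ z, φ z ∈ S
  bd : ∀ z, ‖fderiv ℝ φ z‖ ≤ 2
  low : ∀ z, c0 ≤ ‖fderiv ℝ φ z‖
  seq : JEq R σ 0 c φ
  seqs : ∀ s, 1 ≤ s → s ≤ t → JEq R σ s 0 φ

variable {S : Set (Mat (n + 1))} {t : ℕ}

theorem KJ.shift (h : KJ R S σ c c0 t φ) (u : ℂ) : KJ R S σ c c0 t (fun w => φ (u + w)) where
  hol := holP_shift h.hol u
  mem := fun z => h.mem _
  av := fun z => h.av _
  bd := fun z => by rw [fderiv_shift]; exact h.bd _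
  low := fun z => by rw [fderiv_shift]; exact h.low _
  seq := h.seq.shift R u
  seqs := fun s h1 h2 => (h.seqs s h1 h2).shift R u

theorem KJ.nc (h : KJ R S σ c c0 t φ) (hc0 : 0 < c0) : ∃ z, φ z ≠ φ 0 :=
  nc_of_fderiv (z := 0) fun h0 => by
    have := h.low 0
    rw [h0, norm_zero] at this
    linarith

theorem KJ.cls (hc0 : 0 < c0) (hS : IsClosed S) :
    Cls (TX y) c0 (KJ R S σ c c0 t) where
  comp := isCompact_TX
  sub := TX_PM
  pos := hc0
  hol := fun φ h => h.hol
  mem := fun φ h => h.mem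
  bd := fun φ h => h.bd
  low := fun φ h => h.low
  shift := fun φ h => h.shift
  lim := fun 𝓤 P hP => by
    obtain ⟨φ, h1, h2, h3, h4⟩ := exists_limit isCompact_TX TX_PM (𝓤 := 𝓤) (K := 2)
      (fun m => (hP m).hol) (fun m => (hP m).mem) (fun m => (hP m).bd)
    have hbd : ∀ z, ‖fderiv ℝ φ z‖ ≤ 2 := fun z =>
      le_of_tendsto (h4 z).norm (Eventually.of_forall fun m => (hP m).bd z)
    have hlow : ∀ z, c0 ≤ ‖fderiv ℝ φ z‖ := fun z =>
      ge_of_tendsto (h4 z).norm (Eventually.of_forall fun m => (hP m).low z)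
    refine ⟨φ, ⟨h1, h2, ?_, hbd, hlow, ?_, ?_⟩, h3⟩
    · exact fun z => hS.mem_of_tendsto (h3.pointwise (mem_univ z))
        (Eventually.of_forall fun m => (hP m).av z)
    · exact JEq.lim R h3 (fun m => (hP m).hol) h1 fun m => (hP m).seq
    · exact fun s k1 k2 => JEq.lim R h3 (fun m => (hP m).hol) h1 fun m => (hP m).seqs s k1 k2

/-- **There are no curves on which an invariant differential expression is a nonzero constant.** -/
theorem KJ.empty (hc0 : 0 < c0) (hS : IsClosed S)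
    (hnd : ∀ ψ : ℂ → Mat (n + 1), HolP univ ψ → (∀ z, ψ z ∈ S) → (∃ z, ψ z ≠ ψ 0) → Cv y ψ)
    (hLB : ∀ M ∈ TX y, LBa R M) (hc : c ≠ 0) (hm : 0 < σ.m)
    (hbasis : ∃ (x : Fin 2 → K) (E : Fin 2 → Derivation ℂ K K), Dual x E)
    (hforms : ∃ (N : ℕ) (ω0 ω1 : (Fin 2 → Derivation ℂ K K) → K) (D : Fin 2 → Derivation ℂ K K),
      0 < N ∧ IsPluri N ω0 ∧ IsPluri N ω1 ∧
      (∀ v : Place ℂ K, Divisorial 2 v → RegAt v ω0) ∧
      (∀ v : Place ℂ K, Divisorial 2 v → RegAt v ω1) ∧ ω0 D ≠ 0 ∧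
      Transcendental ℂ (ω1 D / ω0 D)) {M : ℕ} (hM : ∀ s ∈ σ.p.support, s 2 ≤ M) :
    ∀ k t : ℕ, M ≤ t + k → ∀ φ, ¬ KJ R S σ c c0 t φ := by
  intro k
  induction k with
  | zero =>
    intro t ht φ hφ
    have hcls : SCls R (KJ R S σ c c0 t) c0 (bse σ) c (fun _ => True) :=
      { cls := KJ.cls hc0 hS
        cv := fun φ h => hnd φ h.hol h.av (h.nc hc0)
        seq := fun φ h => base_seq hM (hnd φ h.hol h.av (h.nc hc0)) h.seq
          fun s h1 h2 => h.seqs s h1 (by omega)
        lb := fun φ h => (hLB _ (h.mem 0)).lbc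
        cne := hc
        dpos := hm
        basis := hbasis
        forms := by
          obtain ⟨N, ω0, ω1, D, h1, h2, h3, h4, h5, h6, h7⟩ := hforms
          exact ⟨N, ω0, ω1, D, h1, h2, h3, fun v hv _ => h4 v hv, fun v hv _ => h5 v hv, h6, h7⟩ }
    exact hcls.empty hφ
  | succ k ih =>
    intro t ht φ hφ
    have hI := ih (t + 1) (by omega)
    have hcls : JCls R (KJ R S σ c c0 t) c0 σ c :=
      { cls := KJ.cls hc0 hS
        cv := fun φ h => hnd φ h.hol h.av (h.nc hc0)
        seq := fun φ h => h.seq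
        lb := hLB
        cne := hc
        mpos := hm
        basis := hbasis
        forms := hforms }
    have hne : ∀ ψ, KJ R S σ c c0 t ψ → ∀ᶠ z in codiscrete ℂ, jv R σ (t + 1) ψ z ≠ 0 := by
      intro ψ hψ
      apply mero_ne (jv_mero R (hcls.cv ψ hψ) σ (t + 1))
      intro h0
      refine hI ψ { hψ with seqs := ?_ }
      intro s h1 h2
      rcases Nat.lt_or_ge t s with h3 | h3
      · obtain rfl : s = t + 1 := by omega
        intro z hz
        exact eq_of_codis h0 (jv_an R (hcls.cv ψ hψ) (t + 1) hz).continuousAt continuousAt_const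
      · exact hψ.seqs s h1 h3
    rcases Nat.eq_zero_or_pos t with rfl | htp
    · exact hcls.empty_of (hcls.rigB0 hne) hφ
    · exact hcls.empty_of (hcls.rigBt (fun ψ hψ => hψ.seqs t htp le_rfl) hne) hφ

end Pool.Agent.L7h90.JT
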