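import Pool.Agent.L7h90.JT.Loc
import Pool.Agent.L7h90.GL.Dif

/-! Products of exact differentials and Wronskians in the ideal of the regular invariant
differential expressions. -/

set_option autoImplicit false

open MvPolynomial Pool.Agent.W602.GT Pool.Agent.TH143.GT

namespace Pool.Agent.L7h90.JT

open Pool.Agent.L7h90.WR Pool.Agent.L7h90.GL

section chain

variable {M : Type} [Field M] [Algebra ℂ M] {B : Type} [Field B] [Algebra ℂ B] [Algebra M B]
  [IsScalarTower ℂ M B] {x : Fin 2 → M} {E : Fin 2 → Derivation ℂ M M}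

theorem chain2 (hx : Dual x E) (D : Derivation ℂ B B) (f : M) : D (algebraMap M B f) =
    D (algebraMap M B (x 0)) * algebraMap M B (E 0 f) +
      D (algebraMap M B (x 1)) * algebraMap M B (E 1 f) := by
  have h1 := hx.chain D f
  rwa [Fin.sum_univ_two] at h1

theorem wrD_chain (hx : Dual x E) (D : Derivation ℂ B B) (u v : M) :
    wrD D (algebraMap M B u) (algebraMap M B v) =
      algebraMap M B (cJ E u v) * wrD D (algebraMap M B (x 0)) (algebraMap M B (x 1)) +
      algebraMap M B (c0 E u v) * D (algebraMap M B (x 0)) ^ 3 +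
      algebraMap M B (c1 E u v) * (D (algebraMap M B (x 0)) ^ 2 * D (algebraMap M B (x 1))) +
      algebraMap M B (c2 E u v) * (D (algebraMap M B (x 0)) * D (algebraMap M B (x 1)) ^ 2) +
      algebraMap M B (c3 E u v) * D (algebraMap M B (x 1)) ^ 3 := by
  have hch := chain2 hx D
  have hch2 : ∀ f : M, D (D (algebraMap M B f)) =
      D (D (algebraMap M B (x 0))) * algebraMap M B (E 0 f) +
      D (D (algebraMap M B (x 1))) * algebraMap M B (E 1 f) +
      D (algebraMap M B (x 0)) * (D (algebraMap M B (x 0)) * algebraMap M B (E 0 (E 0 f)) +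
        D (algebraMap M B (x 1)) * algebraMap M B (E 1 (E 0 f))) +
      D (algebraMap M B (x 1)) * (D (algebraMap M B (x 0)) * algebraMap M B (E 0 (E 1 f)) +
        D (algebraMap M B (x 1)) * algebraMap M B (E 1 (E 1 f))) := by
    intro f
    rw [hch f, map_add, D.leibniz, D.leibniz, hch (E 0 f), hch (E 1 f)]
    simp only [smul_eq_mul]
    ring
  unfold wrD
  rw [hch2 u, hch2 v, hch u, hch v, wr_expand]
  unfold cJ c0 c1 c2 c3
  simp only [map_sub, map_add, map_mul]

theorem app_loc (hx : Dual x E) (τ : JD M) (D : Derivation ℂ B B) : τ.app D =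
    aeval ![D (algebraMap M B (x 0)), D (algebraMap M B (x 1)),
      wrD D (algebraMap M B (x 0)) (algebraMap M B (x 1))] (τ.loc E) := by
  have h1 := loc_eval₂ (algebraMap M B) τ E (D (algebraMap M B (x 0))) (D (algebraMap M B (x 1)))
    (wrD D (algebraMap M B (x 0)) (algebraMap M B (x 1)))
  rw [aeval_def, h1]
  unfold JD.app
  refine Finset.sum_congr rfl fun s _ => ?_
  rw [wrD_chain hx D τ.x τ.y, chain2 hx D τ.x, chain2 hx D τ.y]
  ring

/-- the Wronskian in local coordinates -/
noncomputable def wpol (E : Fin 2 → Derivation ℂ M M) (u v : M) : MvPolynomial (Fin 3) M :=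
  C (cJ E u v) * X 2 + C (c0 E u v) * X 0 ^ 3 + C (c1 E u v) * (X 0 ^ 2 * X 1) +
      C (c2 E u v) * (X 0 * X 1 ^ 2) + C (c3 E u v) * X 1 ^ 3

/-- the differential in local coordinates -/
noncomputable def lpol (E : Fin 2 → Derivation ℂ M M) (f : M) : MvPolynomial (Fin 3) M :=
  C (E 0 f) * X 0 + C (E 1 f) * X 1

theorem aeval_wpol (hx : Dual x E) (D : Derivation ℂ B B) (u v : M) :
    aeval ![D (algebraMap M B (x 0)), D (algebraMap M B (x 1)),
      wrD D (algebraMap M B (x 0)) (algebraMap M B (x 1))] (wpol E u v) =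
      wrD D (algebraMap M B u) (algebraMap M B v) := by
  rw [wrD_chain hx D u v]
  unfold wpol
  simp only [map_add, map_mul, map_pow, aeval_C, aeval_X, Matrix.cons_val_zero,
    Matrix.cons_val_one, Matrix.cons_val]

theorem aeval_lpol (hx : Dual x E) (D : Derivation ℂ B B) (f : M) :
    aeval ![D (algebraMap M B (x 0)), D (algebraMap M B (x 1)),
      wrD D (algebraMap M B (x 0)) (algebraMap M B (x 1))] (lpol E f) =
      D (algebraMap M B f) := by
  rw [chain2 hx D f]
  unfold lpol
  simp only [map_add, map_mul, aeval_C, aeval_X, Matrix.cons_val_zero, Matrix.cons_val_one]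
  ring

omit [Algebra ℂ B] [IsScalarTower ℂ M B] in
/-- polynomials with enough zeros -/
theorem jfunext (c : M) {G : MvPolynomial (Fin 3) M}
    (hG : ∀ s t r : ℕ, aeval ![(s : M), (t : M) + r * c, (r : M) * (s : M) ^ 2] G = (0 : M))
    {a b w : B} (ha : a ≠ 0) : aeval ![a, b, w] G = 0 := by
  have : CharZero M := charZero_of_injective_algebraMap (algebraMap ℂ M).injective
  set g : Fin 3 → MvPolynomial (Fin 3) M := ![X 0, X 1 + C c * X 2, X 2 * X 0 ^ 2] with hg
  have h0 : bind₁ g G = 0 := by
    apply funext_set (fun _ => Set.range (Nat.cast : ℕ → M))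
      (fun _ => Set.infinite_range_of_injective Nat.cast_injective)
    intro z hz
    have h1 : ∀ i, ∃ m : ℕ, (m : M) = z i := fun i => hz i (Set.mem_univ i)
    choose m hm using h1
    rw [map_zero]
    have h2 := hG (m 0) (m 1) (m 2)
    have h3 : (aeval z) (bind₁ g G) = (0 : M) := by
      rw [aeval_bind₁, ← h2]
      congr 2
      funext i
      fin_cases i
      · change aeval z (g 0) = (m 0 : M)
        rw [hg, hm]
        simp
      · change aeval z (g 1) = (m 1 : M) + m 2 * c
        rw [hg, hm, hm]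
        simp only [Matrix.cons_val_one, Matrix.cons_val_zero, map_add, map_mul, aeval_X, aeval_C]
        rw [mul_comm]
        rfl
      · change aeval z (g 2) = (m 2 : M) * (m 0 : M) ^ 2
        rw [hg, hm, hm]
        simp
    exact h3
  have h1 : (aeval ![a, b - algebraMap M B c * (w / a ^ 2), w / a ^ 2]) (bind₁ g G) = 0 := by
    rw [h0, map_zero]
  rw [aeval_bind₁] at h1
  rw [← h1]
  congr 2
  funext i
  fin_cases i
  · change a = aeval _ (g 0)
    rw [hg]
    simp
  · change b = aeval _ (g 1)
    rw [hg]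
    simp
  · change w = aeval _ (g 2)
    rw [hg]
    simp only [Matrix.cons_val, map_mul, map_pow, aeval_X, Matrix.cons_val_zero]
    field_simp

/-- identities of differential expressions hold for derivations of extensions -/
theorem jid_transfer (hx : Dual x E) {r k N : ℕ} {ρ τ : Fin r → JD M} {h : M} {a : Fin k → M}
    {u v : Fin N → M}
    (hid : ∀ D : Derivation ℂ M M, ∑ i, (ρ i).app D * (τ i).app D =
      h * (∏ l, D (a l)) * ∏ l, wrD D (u l) (v l))
    (D : Derivation ℂ B B) (hD0 : D (algebraMap M B (x 0)) ≠ 0) :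
    ∑ i, (ρ i).app D * (τ i).app D = algebraMap M B h * (∏ l, D (algebraMap M B (a l))) *
      ∏ l, wrD D (algebraMap M B (u l)) (algebraMap M B (v l)) := by
  set G : MvPolynomial (Fin 3) M := ∑ i, (ρ i).loc E * (τ i).loc E -
    C h * (∏ l, lpol E (a l)) * ∏ l, wpol E (u l) (v l) with hGdef
  have hG : ∀ (B : Type) [Field B] [Algebra ℂ B] [Algebra M B] [IsScalarTower ℂ M B]
      (D : Derivation ℂ B B),
      aeval ![D (algebraMap M B (x 0)), D (algebraMap M B (x 1)),
        wrD D (algebraMap M B (x 0)) (algebraMap M B (x 1))] G =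
      ∑ i, (ρ i).app D * (τ i).app D - algebraMap M B h * (∏ l, D (algebraMap M B (a l))) *
      ∏ l, wrD D (algebraMap M B (u l)) (algebraMap M B (v l)) := by
    intro B _ _ _ _ D
    rw [hGdef]
    simp only [map_sub, map_sum, map_mul, map_prod, aeval_C, aeval_wpol hx, aeval_lpol hx,
      ← app_loc hx]
  have h1 := jfunext (B := B) (x 0) (G := G) (fun s t r => by
    have h2 := hG M ((s : M) • E 0 + ((t : M) + r * x 0) • E 1)
    have h3 := hid ((s : M) • E 0 + ((t : M) + r * x 0) • E 1)
    have h4 : ∀ f : M, algebraMap M M f = f := fun f => rfl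
    simp only [h4] at h2
    rw [h3, sub_self] at h2
    have hE : ∀ i j, E i (x j) = if i = j then 1 else 0 := hx.2
    have hD : ∀ f : M, ((s : M) • E 0 + ((t : M) + r * x 0) • E 1) f =
        s * E 0 f + (t + r * x 0) * E 1 f := fun f => by
      rw [Derivation.add_apply, Derivation.smul_apply, Derivation.smul_apply, smul_eq_mul,
        smul_eq_mul]
    have hc : ∀ (D : Derivation ℂ M M) (m : ℕ), D (m : M) = 0 := fun D m => by
      rw [Derivation.map_natCast]
    have e0 : ((s : M) • E 0 + ((t : M) + r * x 0) • E 1) (x 0) = s := by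
      rw [hD, hE, hE]
      simp
    have e1 : ((s : M) • E 0 + ((t : M) + r * x 0) • E 1) (x 1) = t + r * x 0 := by
      rw [hD, hE, hE]
      simp
    have e2 : wrD ((s : M) • E 0 + ((t : M) + r * x 0) • E 1) (x 0) (x 1) = r * s ^ 2 := by
      unfold wrD
      rw [e0, e1, hc, map_add, hc, Derivation.leibniz, hc, e0]
      simp only [smul_eq_mul]
      ring
    rw [e0, e1, e2] at h2
    exact h2) (b := D (algebraMap M B (x 1)))
      (w := wrD D (algebraMap M B (x 0)) (algebraMap M B (x 1))) hD0
  rw [hG B D, sub_eq_zero] at h1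
  exact h1

end chain

/-! ### extensions -/

section ext

variable {K : Type} [Field K] [Algebra ℂ K] (M : Type) [Field M] [Algebra ℂ M] [Algebra K M]
  [IsScalarTower ℂ K M]

theorem ind_ext {u v : K} (h : AlgebraicIndependent ℂ ![u, v]) :
    AlgebraicIndependent ℂ ![algebraMap K M u, algebraMap K M v] := by
  have h1 := h.map' (f := IsScalarTower.toAlgHom ℂ K M) (algebraMap K M).injective
  convert h1 using 1
  funext i
  fin_cases i <;> rfl

/-- the differential expression on an extension -/
noncomputable def JD.onExt (σ : JD K) : JD M where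
  m := σ.m
  p := σ.p.map (algebraMap K M)
  x := algebraMap K M σ.x
  y := algebraMap K M σ.y
  alg := ind_ext M σ.alg
  hom := fun s hs => σ.hom s (support_map_subset _ _ hs)

theorem app_onExt (σ : JD K) {B : Type} [Field B] [Algebra ℂ B] [Algebra K B] [Algebra M B]
    [IsScalarTower K M B] (D : Derivation ℂ B B) : (σ.onExt M).app D = σ.app D := by
  unfold JD.app
  have h1 : (σ.onExt M).p.support = σ.p.support :=
    support_map_of_injective _ (algebraMap K M).injective
  rw [h1]
  refine Finset.sum_congr rfl fun s _ => ?_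
  have h2 : (σ.onExt M).p.coeff s = algebraMap K M (σ.p.coeff s) := coeff_map _ _ _
  have h3 : (σ.onExt M).x = algebraMap K M σ.x := rfl
  have h4 : (σ.onExt M).y = algebraMap K M σ.y := rfl
  rw [h2, h3, h4, ← IsScalarTower.algebraMap_apply, ← IsScalarTower.algebraMap_apply,
    ← IsScalarTower.algebraMap_apply]

end ext

/-- the Wronskian of independent elements does not vanish -/
theorem wrD_ne {B : Type} [Field B] [Algebra ℂ B] {D : Derivation ℂ B B}
    (hD : ∀ b, D b = 0 → ∃ c : ℂ, b = algebraMap ℂ B c) {u v : B}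
    (hi : AlgebraicIndependent ℂ ![u, v]) : wrD D u v ≠ 0 := by
  intro h1
  have hu : D u ≠ 0 := by
    intro h1
    obtain ⟨c, hc⟩ := hD _ h1
    have h3 : Transcendental ℂ u := by
      have := hi.transcendental 0
      simpa using this
    apply h3
    rw [hc]
    exact isAlgebraic_algebraMap _
  unfold wrD at h1
  set q := D v / D u with hq
  have h2 : D v = q * D u := by
    rw [hq, div_mul_cancel₀ _ hu]
  have h3 : D q = 0 := by
    have h4 : D (D v) = q * D (D u) + D u * D q := by
      rw [h2, D.leibniz]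
      rfl
    have h5 : D u * (D u * D q) = 0 := by
      rw [h4, h2] at h1
      linear_combination h1
    exact (mul_eq_zero.1 ((mul_eq_zero.1 h5).resolve_left hu)).resolve_left hu
  obtain ⟨k, hk⟩ := hD _ h3
  have h4 : D (v - algebraMap ℂ B k * u) = 0 := by
    rw [map_sub, D.leibniz, D.map_algebraMap, smul_zero, add_zero, h2, hk, smul_eq_mul, sub_self]
  obtain ⟨l, hl⟩ := hD _ h4
  have h6 := hi
  rw [algebraicIndependent_iff] at h6
  have h7 := h6 (X 1 - C k * X 0 - C l) (by
    simp only [map_sub, map_mul, aeval_X, aeval_C, Matrix.cons_val_zero, Matrix.cons_val_one]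
    rw [hl, sub_self])
  have h8 := congrArg (MvPolynomial.coeff (Finsupp.single (1 : Fin 2) 1)) h7
  rw [coeff_sub, coeff_sub, coeff_C_mul, coeff_C, coeff_zero] at h8
  rw [coeff_X, coeff_X, if_pos rfl, if_neg, if_neg] at h8
  · simp at h8
  · intro h9
    have := DFunLike.congr_fun h9 1
    simp at this
  · intro h9
    have := DFunLike.congr_fun h9 1
    simp at this

/-- **Products exclude solutions.** -/
theorem rigid_of_product {K : Type} [Field K] [Algebra ℂ K] (htr : Algebra.trdeg ℂ K = 2)
    (hK : JetProduct K) : JetRigid K := by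
  intro A _ _ _ _ D hD
  by_contra hcon
  push Not at hcon
  obtain ⟨M, _, _, _, _, r, k, N, σ, ρ, h, a, u, v, halg, hσ, hh, ha, hu, hid⟩ := hK
  let B := AlgebraicClosure A
  let j : M →ₐ[K] B := IsAlgClosed.lift
  let _ : Algebra M B := j.toRingHom.toAlgebra
  have hjK : ∀ k : K, algebraMap M B (algebraMap K M k) = algebraMap A B (algebraMap K A k) := by
    intro k
    have h1 : j (algebraMap K M k) = algebraMap K B k := j.commutes k
    rw [← IsScalarTower.algebraMap_apply K A B]
    exact h1
  have : IsScalarTower ℂ M B := IsScalarTower.of_algebraMap_eq fun c => by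
    rw [IsScalarTower.algebraMap_apply ℂ K M, hjK, ← IsScalarTower.algebraMap_apply ℂ K A,
      ← IsScalarTower.algebraMap_apply ℂ A B]
  have : IsScalarTower K M B := IsScalarTower.of_algebraMap_eq fun k => (j.commutes k).symm
  obtain ⟨D', hD'⟩ := exists_ext (A := A) (B := B) D
  have hc' : ∀ b, D' b = 0 → ∃ c : ℂ, b = algebraMap ℂ B c := fun b hb => const_ext hD hD' hb
  have htrM : Algebra.trdeg ℂ M = 2 := by
    have h0 : Algebra.trdeg ℂ K + Algebra.trdeg K M = Algebra.trdeg ℂ M := _root_.trdeg_add_eq ℂ K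
    rw [_root_.trdeg_eq_zero (R := K) (A := M), add_zero, htr] at h0
    exact h0.symm
  obtain ⟨x, hx⟩ := basis_of_trdeg (w := 2) (by rw [htrM]; rfl)
  obtain ⟨E, hE⟩ := exists_dual hx
  have hdual : Dual x E := by
    refine ⟨hx, fun i j => ?_⟩
    have := congrFun (congrFun hE i) j
    rw [Matrix.of_apply, Matrix.one_apply] at this
    exact this
  have hne : ∀ f : M, Transcendental ℂ f → D' (algebraMap M B f) ≠ 0 := by
    intro f hf h0
    obtain ⟨c, hc⟩ := hc' _ h0
    apply hf
    have h4 : f = algebraMap ℂ M c := by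
      apply (algebraMap M B).injective
      rw [hc, ← IsScalarTower.algebraMap_apply]
    rw [h4]
    exact isAlgebraic_algebraMap _
  have h1 := jid_transfer (B := B) hdual (ρ := ρ) (τ := fun i => (σ i).onExt M) (fun D => by
    rw [← hid D]
    refine Finset.sum_congr rfl fun i _ => ?_
    rw [app_onExt]) D' (hne _ (hx.1.transcendental 0))
  have h2 : ∀ i, ((σ i).onExt M).app D' = 0 := by
    intro i
    rw [app_onExt]
    have h3 := hcon (σ i) (hσ i).1 (hσ i).2
    have h4 : (σ i).app D' = algebraMap A B ((σ i).app D) := by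
      unfold JD.app wrD
      rw [map_sum]
      refine Finset.sum_congr rfl fun s _ => ?_
      simp only [map_mul, map_pow, map_sub, IsScalarTower.algebraMap_apply K A B, hD']
    rw [h4, h3, map_zero]
  simp only [h2, mul_zero, Finset.sum_const_zero] at h1
  rcases mul_eq_zero.1 h1.symm with h3 | h3
  · rcases mul_eq_zero.1 h3 with h5 | h5
    · exact hh ((map_eq_zero _).1 h5)
    · obtain ⟨l, -, hl⟩ := Finset.prod_eq_zero_iff.1 h5
      exact hne _ (ha l) hl
  · obtain ⟨l, -, hl⟩ := Finset.prod_eq_zero_iff.1 h3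
    exact wrD_ne hc' (ind_ext B (hu l)) hl

end Pool.Agent.L7h90.JT
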