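import Pool.Agent.L7h90.JT.Prod
import Pool.Agent.L7h90.WR.Net3

/-! Surfaces with many powers in a net. -/

set_option autoImplicit false

open FF Pool.Agent.W602.GT Pool.Agent.W603.LV

namespace Pool.Agent.L7h90.JT

open Pool.Agent.L7h90.WR Pool.Agent.L7h90.GL

variable {K : Type} [Field K] [Algebra ℂ K]

section pencil

theorem two_consts {v : Place ℂ K} {x : K} {c e : ℂ} (hce : c ≠ e)
    (h1 : Ge v 1 (x - algebraMap ℂ K c)) (h2 : Ge v 1 (x - algebraMap ℂ K e)) : False := by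
  have h3 := h2.sub h1
  have h4 : x - algebraMap ℂ K e - (x - algebraMap ℂ K c) = algebraMap ℂ K (c - e) := by
    rw [map_sub]
    ring
  rw [h4] at h3
  rcases h3 with h5 | h5
  · rw [map_eq_zero] at h5
    exact hce (sub_eq_zero.1 h5)
  · rw [v.ord_const (sub_ne_zero.2 hce)] at h5
    omega

variable {a : K} (ha : Transcendental ℂ a) (v : Place ℂ K) {c e : ℂ}
include ha

theorem sub_ne (c : ℂ) : a - algebraMap ℂ K c ≠ 0 := by
  intro h0
  apply ha
  rw [sub_eq_zero.1 h0]
  exact isAlgebraic_algebraMap c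

theorem ord_sub_nonneg (h : 0 ≤ v.ord a) (c : ℂ) : 0 ≤ v.ord (a - algebraMap ℂ K c) := by
  have h1 : Ge v 0 (a - algebraMap ℂ K c) := (show Ge v 0 a from Or.inr h).sub (Ge.const c)
  exact h1.resolve_left (sub_ne ha c)

theorem mob_inf (h : 0 < v.ord (a - algebraMap ℂ K e)⁻¹) :
    v.ord (a - algebraMap ℂ K e)⁻¹ = -v.ord a := by
  rw [v.ord_inv] at h ⊢
  by_cases h1 : v.ord a < 0
  · rw [ord_sub_const v ha e h1]
  · have := ord_sub_nonneg ha v (not_lt.1 h1) e
    omega

theorem mob (hce : c ≠ e)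
    (h : 0 < v.ord ((a - algebraMap ℂ K e)⁻¹ - algebraMap ℂ K (c - e)⁻¹)) :
    v.ord ((a - algebraMap ℂ K e)⁻¹ - algebraMap ℂ K (c - e)⁻¹) =
      v.ord (a - algebraMap ℂ K c) := by
  have he := sub_ne ha e
  have hc := sub_ne ha c
  have h0 : c - e ≠ 0 := sub_ne_zero.2 hce
  have hk : algebraMap ℂ K (c - e) ≠ 0 := by rwa [Ne, map_eq_zero]
  have h1 : (a - algebraMap ℂ K e)⁻¹ - algebraMap ℂ K (c - e)⁻¹ =
      -((a - algebraMap ℂ K c) / ((a - algebraMap ℂ K e) * algebraMap ℂ K (c - e))) := by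
    rw [map_inv₀]
    have h2 : algebraMap ℂ K c = algebraMap ℂ K (c - e) + algebraMap ℂ K e := by
      rw [← map_add, sub_add_cancel]
    rw [h2]
    field_simp
    ring
  have h2 : v.ord ((a - algebraMap ℂ K e)⁻¹ - algebraMap ℂ K (c - e)⁻¹) =
      v.ord (a - algebraMap ℂ K c) - v.ord (a - algebraMap ℂ K e) := by
    rw [h1, v.ord_neg, v.ord_div hc (mul_ne_zero he hk), v.ord_mul he hk, v.ord_const h0, add_zero]
  rw [h2] at h ⊢
  by_cases h3 : v.ord a < 0
  · rw [ord_sub_const v ha e h3, ord_sub_const v ha c h3] at h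
    omega
  · have h4 := ord_sub_nonneg ha v (not_lt.1 h3) e
    rcases h4.eq_or_lt with h5 | h5
    · omega
    · exact absurd (two_consts hce (x := a) (v := v) (Or.inr (by omega)) (Or.inr (by omega)))
        not_false

end pencil

/-- three members of a pencil which are powers -/
theorem pencil_of_three {P Q T wP wQ wT : K} {d : ℕ} (hd : 3 ≤ d) (hP : P = wP ^ d)
    (hQ : Q = wQ ^ d) (hT : T = wT ^ d) (hQ0 : Q ≠ 0) {s t : ℂ} (hs : s ≠ 0) (ht : t ≠ 0)
    (hst : T = algebraMap ℂ K s * P + algebraMap ℂ K t * Q) (hPQ : Transcendental ℂ (P / Q)) :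
    MultiplePencil K := by
  classical
  set a : K := P / Q with ha
  set b : ℂ := -t / s with hb
  have hb0 : b ≠ 0 := div_ne_zero (neg_ne_zero.2 ht) hs
  obtain ⟨e, he0, heb⟩ : ∃ e : ℂ, e ≠ 0 ∧ e ≠ b := by
    by_cases h : b = 1
    · exact ⟨2, two_ne_zero, by rw [h]; norm_num⟩
    · exact ⟨1, one_ne_zero, fun h' => h h'.symm⟩
  have ha0 : a ≠ 0 := fun h0 => hPQ (by rw [h0]; exact isAlgebraic_zero)
  have hP0 : P ≠ 0 := by
    rintro h0
    exact ha0 (by rw [ha, h0, zero_div])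
  have hsK : algebraMap ℂ K s ≠ 0 := by rwa [Ne, map_eq_zero]
  have hab : a - algebraMap ℂ K b = T / (algebraMap ℂ K s * Q) := by
    rw [hst, hb, map_div₀, map_neg, ha]
    field_simp
    ring
  have hT0 : T ≠ 0 := by
    intro h0
    rw [h0, zero_div] at hab
    exact sub_ne hPQ b hab
  have hda : ∀ v : Place ℂ K, (d : ℤ) ∣ v.ord a := fun v => by
    rw [ha, v.ord_div hP0 hQ0, hP, hQ, v.ord_pow, v.ord_pow]
    exact ⟨v.ord wP - v.ord wQ, by ring⟩
  have hdb : ∀ v : Place ℂ K, (d : ℤ) ∣ v.ord (a - algebraMap ℂ K b) := fun v => by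
    rw [hab, v.ord_div hT0 (mul_ne_zero hsK hQ0), v.ord_mul hsK hQ0, v.ord_const hs, hT, hQ,
      v.ord_pow, v.ord_pow]
    exact ⟨v.ord wT - v.ord wQ, by ring⟩
  have hae := sub_ne hPQ e
  have htr : Transcendental ℂ (a - algebraMap ℂ K e)⁻¹ := by
    intro h
    have h1 : IsAlgebraic ℂ (a - algebraMap ℂ K e) := by
      have := h.inv
      rwa [inv_inv] at this
    have h2 := h1.add (isAlgebraic_algebraMap (R := ℂ) (A := K) e)
    rw [sub_add_cancel] at h2
    exact hPQ h2
  have hS3 : ({0, (0 - e)⁻¹, (b - e)⁻¹} : Finset ℂ).card = 3 := by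
    rw [Finset.card_eq_three]
    refine ⟨_, _, _, ?_, ?_, ?_, rfl⟩
    · exact (inv_ne_zero (sub_ne_zero.2 he0.symm)).symm
    · exact (inv_ne_zero (sub_ne_zero.2 heb.symm)).symm
    · intro h
      have := inv_injective h
      exact hb0 (sub_left_injective this).symm
  refine ⟨(a - algebraMap ℂ K e)⁻¹, {0, (0 - e)⁻¹, (b - e)⁻¹}, fun _ => d, htr,
    fun _ _ => le_trans (by norm_num) hd, fun v _ s0 hs0 hpos => ?_, ?_⟩
  · simp only [Finset.mem_insert, Finset.mem_singleton] at hs0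
    rcases hs0 with rfl | rfl | rfl
    · rw [map_zero, sub_zero] at hpos ⊢
      apply Int.le_of_dvd hpos
      rw [mob_inf hPQ v hpos]
      exact (hda v).neg_right
    · apply Int.le_of_dvd hpos
      rw [mob hPQ v he0.symm hpos, map_zero, sub_zero]
      exact hda v
    · apply Int.le_of_dvd hpos
      rw [mob hPQ v heb.symm hpos]
      exact hdb v
  · rw [Finset.sum_const, hS3]
    have hdQ : (3 : ℚ) ≤ d := by exact_mod_cast hd
    have h1 : 1 / (d : ℚ) ≤ 1 / 3 := one_div_le_one_div_of_le (by norm_num) hdQ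
    norm_num at h1 ⊢
    linarith

theorem lin_add (u v : K) (s t : ℂ) (a b : Fin 3 → ℂ) :
    WR.lin u v (s • a + t • b) = algebraMap ℂ K s * WR.lin u v a + algebraMap ℂ K t * WR.lin u v b := by
  unfold WR.lin
  simp only [Pi.add_apply, Pi.smul_apply, smul_eq_mul, map_add, map_mul]
  ring

theorem product_of_lines (htr : Algebra.trdeg ℂ K = 2) (h : PowerLines K) : JetProduct K := by
  classical
  obtain ⟨u, v, q, d, L, w, hi, hd0, hw', h2, hqd⟩ := h
  have hw : ∀ i, WR.lin u v (L i) = w i ^ d := hw'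
  by_cases hgen : ∀ i j k, i ≠ j → i ≠ k → j ≠ k → (Matrix.of ![L i, L j, L k]).det ≠ 0
  · exact product_of_regular htr (regular_of_wronskian (wronskian_of_net (net_of_powers
      ⟨u, v, q, d, L, w, hi, hd0, hw, hgen, hqd⟩)))
  push Not at hgen
  obtain ⟨i, j, k, hij, hik, hjk, hdet⟩ := hgen
  have hd3 : 3 ≤ d := by
    by_contra hcon
    have hq0 : (0 : ℚ) ≤ q := by positivity
    have hdc : d = 1 ∨ d = 2 := by omega
    rcases hdc with h1 | h1
    · rw [h1] at hqd
      norm_num at hqd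
      linarith
    · rw [h1] at hqd
      norm_num at hqd
  obtain ⟨c, hc0, hc⟩ := Matrix.exists_vecMul_eq_zero_iff.2 hdet
  have hrel : c 0 • L i + c 1 • L j + c 2 • L k = 0 := by
    funext l
    have h3 := congrFun hc l
    simp only [Matrix.vecMul, dotProduct, Fin.sum_univ_three, Matrix.of_apply,
      Matrix.cons_val_zero, Matrix.cons_val_one, Matrix.cons_val, Pi.zero_apply] at h3
    simp only [Pi.add_apply, Pi.smul_apply, smul_eq_mul, Pi.zero_apply]
    exact h3
  have hc2 : c 2 ≠ 0 := by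
    intro h0
    rw [h0, zero_smul, add_zero] at hrel
    obtain ⟨h3, h4⟩ := h2 i j hij _ _ hrel
    apply hc0
    funext l
    fin_cases l
    · exact h3
    · exact h4
    · exact h0
  have hc1 : c 1 ≠ 0 := by
    intro h0
    rw [h0, zero_smul, add_zero] at hrel
    exact hc2 (h2 i k hik _ _ hrel).2
  have hc00 : c 0 ≠ 0 := by
    intro h0
    rw [h0, zero_smul, zero_add] at hrel
    exact hc2 (h2 j k hjk _ _ hrel).2
  have hLk : L k = (-c 0 / c 2) • L i + (-c 1 / c 2) • L j := by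
    funext l
    have h3 := congrFun hrel l
    simp only [Pi.add_apply, Pi.smul_apply, smul_eq_mul, Pi.zero_apply] at h3 ⊢
    field_simp
    linear_combination h3
  have hne : ∀ l, WR.lin u v (L l) ≠ 0 := by
    intro l h0
    have h3 := lin_zero hi h0
    obtain ⟨l', hl'⟩ : ∃ l', l ≠ l' := by
      by_cases h4 : l = i
      · exact ⟨j, by rw [h4]; exact hij⟩
      · exact ⟨i, h4⟩
    have h4 := (h2 l l' hl' 1 0 (by rw [h3]; simp)).1
    exact one_ne_zero h4
  refine product_of_exact htr (exact_of_pencil (pencil_of_three hd3 (hw i) (hw j) (hw k) (hne j)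
    (s := -c 0 / c 2) (t := -c 1 / c 2) (div_ne_zero (neg_ne_zero.2 hc00) hc2)
    (div_ne_zero (neg_ne_zero.2 hc1) hc2) (by rw [← lin_add, ← hLk]) ?_))
  intro halg
  obtain ⟨m, hm⟩ := const_of_algebraic halg
  have h3 : WR.lin u v (1 • L i + (-m) • L j) = 0 := by
    have h4 := lin_add u v 1 (-m) (L i) (L j)
    rw [one_smul] at h4 ⊢
    rw [h4, map_one, one_mul, map_neg]
    rw [div_eq_iff (hne j)] at hm
    rw [hm]
    ring
  have h4 := lin_zero hi h3
  rw [one_smul] at h4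
  have h5 := (h2 i j hij 1 (-m) (by rw [one_smul]; exact h4)).1
  exact one_ne_zero h5

end Pool.Agent.L7h90.JT
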