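import Pool.Agent.L7h90.JT.Loc
import Pool.Agent.L7h90.WR.Bnd

/-! Regular invariant differential expressions are constant on curves of bounded derivative. -/

set_option autoImplicit false

open Filter Topology Set Metric MvPolynomial FF

namespace Pool.Agent.L7h90.JT

open Pool.Agent.N155 Pool.Agent.Y190.OP Pool.Agent.W602.GT Pool.Agent.TH143.GT
open Pool.Agent.L7h90.WR

theorem cl_cw {a b : ℂ → ℂ} (ha : Meromorphic a) (hb : Meromorphic b) :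
    cl (cw a b) (cw_mero ha hb) =
      MD (cl a ha) * MD (MD (cl b hb)) - MD (MD (cl a ha)) * MD (cl b hb) := by
  rw [MD_cl, MD_cl, MD_cl, MD_cl, cl_mul, cl_mul]
  rfl

variable {n : ℕ} {K : Type} [Field K] [Algebra ℂ K] {y : Fin (n + 1) → K}
  (R : ∀ h : K, Frac y h) {φ : ℂ → Mat (n + 1)}

/-- the class of the value -/
theorem emb_jv (h : Cv y φ) (σ : JD K) : cl (jv R σ 0 φ) (jv_mero R h σ 0) =
    ∑ s ∈ σ.p.support, h.emb R (σ.p.coeff s) * MD (h.emb R σ.x) ^ s 0 * MD (h.emb R σ.y) ^ s 1 *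
      (MD (h.emb R σ.x) * MD (MD (h.emb R σ.y)) - MD (MD (h.emb R σ.x)) * MD (h.emb R σ.y)) ^
        s 2 := by
  have hm : ∀ s : Fin 3 →₀ ℕ, Meromorphic (fun z => ev R (σ.p.coeff s) (φ z) *
      deriv (fun w => ev R σ.x (φ w)) z ^ s 0 * deriv (fun w => ev R σ.y (φ w)) z ^ s 1 *
      cw (fun w => ev R σ.x (φ w)) (fun w => ev R σ.y (φ w)) z ^ s 2) := fun s z =>
    (((h.mero R _ z).mul (((h.mero R σ.x).deriv z).pow _)).mul
      (((h.mero R σ.y).deriv z).pow _)).mul ((cw_mero (h.mero R σ.x) (h.mero R σ.y) z).pow _)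
  have h1 : ∀ s : Fin 3 →₀ ℕ, cl _ (hm s) = h.emb R (σ.p.coeff s) * MD (h.emb R σ.x) ^ s 0 *
      MD (h.emb R σ.y) ^ s 1 * (MD (h.emb R σ.x) * MD (MD (h.emb R σ.y)) -
        MD (MD (h.emb R σ.x)) * MD (h.emb R σ.y)) ^ s 2 := by
    intro s
    rw [Cv.emb_apply, Cv.emb_apply, Cv.emb_apply, ← cl_cw, MD_cl, MD_cl, cl_pow', cl_pow', cl_pow',
      cl_mul, cl_mul, cl_mul]
    rfl
  rw [← Finset.sum_congr rfl fun s _ => h1 s, ← cl_sum, cl_eq]
  refine Eventually.of_forall fun z => ?_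
  unfold jv
  refine Finset.sum_congr rfl fun s _ => ?_
  rw [Nat.descFactorial_zero, Nat.cast_one, one_mul, Nat.sub_zero]

/-- the value in local coordinates -/
theorem emb_loc (h : Cv y φ) {x : Fin 2 → K} {E : Fin 2 → Derivation ℂ K K} (hx : Dual x E)
    (σ : JD K) : cl (jv R σ 0 φ) (jv_mero R h σ 0) =
    ∑ μ ∈ (σ.loc E).support, h.emb R ((σ.loc E).coeff μ) * (MD (h.emb R (x 0)) ^ μ 0 *
      MD (h.emb R (x 1)) ^ μ 1 * (MD (h.emb R (x 0)) * MD (MD (h.emb R (x 1))) -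
        MD (MD (h.emb R (x 0))) * MD (h.emb R (x 1))) ^ μ 2) := by
  set e := h.emb R with he
  have hder : IsDer e (fun k => MD (e k)) := h.isDer R
  have hch : ∀ f : K, MD (e f) = e (E 0 f) * MD (e (x 0)) + e (E 1 f) * MD (e (x 1)) := by
    intro f
    have := hder.chain hx f
    rw [Fin.sum_univ_two] at this
    rw [this]
    ring
  have h1 := loc_eval₂ (e : K →+* MK) σ E (MD (e (x 0))) (MD (e (x 1)))
    (MD (e (x 0)) * MD (MD (e (x 1))) - MD (MD (e (x 0))) * MD (e (x 1)))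
  rw [eval₂_eq'] at h1
  have h2 : ∀ μ : Fin 3 →₀ ℕ, ∏ i, (![MD (e (x 0)), MD (e (x 1)),
      MD (e (x 0)) * MD (MD (e (x 1))) - MD (MD (e (x 0))) * MD (e (x 1))] : Fin 3 → MK) i ^ μ i =
      MD (e (x 0)) ^ μ 0 * MD (e (x 1)) ^ μ 1 *
        (MD (e (x 0)) * MD (MD (e (x 1))) - MD (MD (e (x 0))) * MD (e (x 1))) ^ μ 2 := by
    intro μ
    rw [Fin.prod_univ_three]
    rfl
  simp only [h2] at h1
  refine (emb_jv R h σ).trans (Eq.trans ?_ h1.symm)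
  refine Finset.sum_congr rfl fun s _ => ?_
  have h3 := emb_wr R h hx σ.x σ.y
  rw [← he] at h3 ⊢
  rw [h3, hch σ.x, hch σ.y]
  rfl

/-- the value in local coordinates, as a function -/
theorem jv_loc (h : Cv y φ) {i j k : Fin (n + 1)} (hi : y i ≠ 0)
    {E : Fin 2 → Derivation ℂ K K} (hx : Dual ![y j / y i, y k / y i] E) (σ : JD K) :
    ∀ᶠ z in codiscrete ℂ, jv R σ 0 φ z = ∑ μ ∈ (σ.loc E).support,
      ev R ((σ.loc E).coeff μ) (φ z) * (deriv (fun w => qv (X j) (X i) (φ w)) z ^ μ 0 *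
        deriv (fun w => qv (X k) (X i) (φ w)) z ^ μ 1 *
        cw (fun w => qv (X j) (X i) (φ w)) (fun w => qv (X k) (X i) (φ w)) z ^ μ 2) := by
  have hq : ∀ l : Fin (n + 1), ∀ᶠ z in codiscrete ℂ, ev R (y l / y i) (φ z) =
      qv (X l) (X i) (φ z) := by
    intro l
    have h2 : ∀ᶠ z in codiscrete ℂ, nz (X i) (φ z) :=
      h.nz ⟨1, isHomogeneous_X _ _⟩ (by rwa [val_X'])
    filter_upwards [h.good R (y l / y i), h2] with z z1 z2
    exact ev_ratio R l hi (h.mem z) z1 z2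
  have hm : ∀ μ : Fin 3 →₀ ℕ, Meromorphic (fun z => ev R ((σ.loc E).coeff μ) (φ z) *
      (deriv (fun w => ev R (y j / y i) (φ w)) z ^ μ 0 *
        deriv (fun w => ev R (y k / y i) (φ w)) z ^ μ 1 *
        cw (fun w => ev R (y j / y i) (φ w)) (fun w => ev R (y k / y i) (φ w)) z ^ μ 2)) :=
    fun μ z => (h.mero R _ z).mul (((((h.mero R _).deriv z).pow _).mul
      (((h.mero R _).deriv z).pow _)).mul ((cw_mero (h.mero R _) (h.mero R _) z).pow _))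
  have h1 : ∀ μ : Fin 3 →₀ ℕ, cl _ (hm μ) = h.emb R ((σ.loc E).coeff μ) *
      (MD (h.emb R (y j / y i)) ^ μ 0 * MD (h.emb R (y k / y i)) ^ μ 1 *
        (MD (h.emb R (y j / y i)) * MD (MD (h.emb R (y k / y i))) -
          MD (MD (h.emb R (y j / y i))) * MD (h.emb R (y k / y i))) ^ μ 2) := by
    intro s
    rw [Cv.emb_apply, Cv.emb_apply, Cv.emb_apply, ← cl_cw, MD_cl, MD_cl, cl_pow', cl_pow', cl_pow',
      cl_mul, cl_mul, cl_mul]
    rfl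
  have h2 := emb_loc R h hx σ
  simp only [Matrix.cons_val_zero, Matrix.cons_val_one] at h2
  rw [← Finset.sum_congr rfl fun μ _ => h1 μ, ← cl_sum, cl_eq] at h2
  filter_upwards [h2, hq j, hq k, deriv_codis (hq j), deriv_codis (hq k),
    cw_codis (hq j) (hq k)] with z z0 z1 z2 z3 z4 z5
  rw [z0]
  refine Finset.sum_congr rfl fun μ _ => ?_
  rw [z3, z4, z5]

/-- **The local bound.** -/
theorem jv_bd {M0 : Mat (n + 1)} (hLB : LBa R M0) {σ : JD K} (hm : 0 < σ.m)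
    (hreg : σ.Regular 2) : ∃ O : Set (Mat (n + 1)), IsOpen O ∧ M0 ∈ O ∧ ∃ C : ℝ, 0 ≤ C ∧
      ∀ φ : ℂ → Mat (n + 1), Cv y φ → (∀ z, ‖fderiv ℝ φ z‖ ≤ 2) → ∀ᶠ z in codiscrete ℂ,
        φ z ∈ O → ‖jv R σ 0 φ z‖ ≤ C * ‖fderiv ℝ φ z‖ := by
  obtain ⟨i, j, k, E, hyi, hnzi, hdual, hbd⟩ := hLB
  have hq : ∀ μ : Fin 3 →₀ ℕ, ∃ O ∈ 𝓝 M0, ∃ C : ℝ, ∀ M ∈ O ∩ TX y,
      N155.good R ((σ.loc E).coeff μ) M → ‖ev R ((σ.loc E).coeff μ) M‖ ≤ C := fun μ =>
    hbd _ fun v hv hc hE => jreg_coeff (hreg v hv) hdual hE (hc j) μ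
  choose O hO C hC using hq
  obtain ⟨L0, O2, hL0, hO2, hLip0⟩ := lip_qv (G1 := X j) hnzi
  obtain ⟨L1, O3, hL1, hO3, hLip1⟩ := lip_qv (G1 := X k) hnzi
  have hnb : {M : Mat (n + 1) | nz (X i) M} ∈ 𝓝 M0 := (isOpen_nz (X i)).mem_nhds hnzi
  have hOs : (⋂ μ ∈ (σ.loc E).support, O μ) ∈ 𝓝 M0 :=
    (Filter.biInter_finset_mem _).2 fun μ _ => hO μ
  obtain ⟨δ2, hδ2, hsub⟩ := Metric.mem_nhds_iff.1
    (inter_mem hOs (inter_mem (inter_mem hO2 hO3) hnb))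
  set δ : ℝ := δ2 / 2 with hδdef
  have hδ : 0 < δ := by positivity
  have h2δ : 2 * δ = δ2 := by rw [hδdef]; ring
  rw [← h2δ] at hsub
  set L : ℝ := L0 + L1 with hL
  have hL0' : 0 ≤ L := add_nonneg hL0 hL1
  set A2 : ℝ := L * 2 / (δ / 4) with hA2
  have hA20 : 0 ≤ A2 := by positivity
  set B : ℝ := 2 * L * A2 + L + 1 with hB
  have hLA : 0 ≤ 2 * L * A2 := by positivity
  have hB1 : 1 ≤ B := by linarith
  have hLB' : L ≤ B := by linarith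
  set CC : ℝ := ∑ μ ∈ (σ.loc E).support, |C μ| with hCC
  have hCC0 : 0 ≤ CC := Finset.sum_nonneg fun _ _ => abs_nonneg _
  refine ⟨ball M0 δ, isOpen_ball, mem_ball_self hδ, CC * ((2 * B) ^ σ.m * B),
    by positivity, fun φ h hB2 => ?_⟩
  have hLj : ∀ M ∈ ball M0 (2 * δ), ∀ M' ∈ ball M0 (2 * δ),
      ‖qv (X j) (X i) M - qv (X j) (X i) M'‖ ≤ L * ‖M - M'‖ := fun M hM M' hM' =>
    (hLip0 M (hsub hM).2.1.1 M' (hsub hM').2.1.1).trans
      (mul_le_mul_of_nonneg_right (by rw [hL]; linarith) (norm_nonneg _))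
  have hLk : ∀ M ∈ ball M0 (2 * δ), ∀ M' ∈ ball M0 (2 * δ),
      ‖qv (X k) (X i) M - qv (X k) (X i) M'‖ ≤ L * ‖M - M'‖ := fun M hM M' hM' =>
    (hLip1 M (hsub hM).2.1.2 M' (hsub hM').2.1.2).trans
      (mul_le_mul_of_nonneg_right (by rw [hL]; linarith) (norm_nonneg _))
  have hnz' : ∀ M ∈ ball M0 (2 * δ), nz (X i) M := fun M hM => (hsub hM).2.2
  have hXX := jv_loc R h hyi hdual σ
  have hall : ∀ᶠ z in codiscrete ℂ, ∀ μ ∈ (σ.loc E).support,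
      N155.good R ((σ.loc E).coeff μ) (φ z) := by
    rw [Filter.eventually_all_finset]
    exact fun μ _ => h.good R _
  filter_upwards [hXX, hall] with z hz1 hz2 hzO
  set f : ℝ := ‖fderiv ℝ φ z‖ with hf
  have hf0 : 0 ≤ f := norm_nonneg _
  have hf2 : f ≤ 2 := hB2 z
  have hz' : φ z ∈ ball M0 (2 * δ) := ball_subset_ball (by linarith) hzO
  have k1 : ‖deriv (fun w => qv (X j) (X i) (φ w)) z‖ ≤ L * f :=
    deriv_qv h.hol isOpen_ball hL0' hLj hnz' hz'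
  have k2 : ‖deriv (fun w => qv (X k) (X i) (φ w)) z‖ ≤ L * f :=
    deriv_qv h.hol isOpen_ball hL0' hLk hnz' hz'
  have k3 : ‖deriv (deriv fun w => qv (X j) (X i) (φ w)) z‖ ≤ A2 :=
    deriv2_qv h.hol hB2 hδ hL0' hLj hnz' hzO
  have k4 : ‖deriv (deriv fun w => qv (X k) (X i) (φ w)) z‖ ≤ A2 :=
    deriv2_qv h.hol hB2 hδ hL0' hLk hnz' hzO
  have hLf : 0 ≤ L * f := mul_nonneg hL0' hf0
  have k1' : ‖deriv (fun w => qv (X j) (X i) (φ w)) z‖ ≤ B * f :=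
    k1.trans (mul_le_mul_of_nonneg_right hLB' hf0)
  have k2' : ‖deriv (fun w => qv (X k) (X i) (φ w)) z‖ ≤ B * f :=
    k2.trans (mul_le_mul_of_nonneg_right hLB' hf0)
  have k5 : ‖cw (fun w => qv (X j) (X i) (φ w)) (fun w => qv (X k) (X i) (φ w)) z‖ ≤ B * f := by
    unfold cw
    refine (norm_sub_le _ _).trans ?_
    rw [norm_mul, norm_mul]
    have h1 := mul_le_mul k1 k4 (norm_nonneg _) hLf
    have h2 := mul_le_mul k3 k2 (norm_nonneg _) hA20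
    have h3 : 0 ≤ (L + 1) * f := by positivity
    rw [hB]
    nlinarith
  rw [hz1]
  refine (norm_sum_le _ _).trans ?_
  rw [hCC, Finset.sum_mul, Finset.sum_mul]
  refine Finset.sum_le_sum fun μ hμ => ?_
  rw [norm_mul]
  have e1 : ‖ev R ((σ.loc E).coeff μ) (φ z)‖ ≤ |C μ| :=
    (hC μ (φ z) ⟨mem_iInter₂.1 (hsub hz').1 μ hμ, h.mem z⟩ (hz2 μ hμ)).trans (le_abs_self _)
  have e2 : ‖deriv (fun w => qv (X j) (X i) (φ w)) z ^ μ 0 *
      deriv (fun w => qv (X k) (X i) (φ w)) z ^ μ 1 *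
      cw (fun w => qv (X j) (X i) (φ w)) (fun w => qv (X k) (X i) (φ w)) z ^ μ 2‖ ≤
      (2 * B) ^ σ.m * B * f := by
    have hw := (loc_hom σ E) (mem_support_iff.1 hμ)
    rw [weight_three] at hw
    obtain ⟨N, hN⟩ : ∃ N, μ 0 + μ 1 + μ 2 = N + 1 := ⟨μ 0 + μ 1 + μ 2 - 1, by omega⟩
    have hNm : N ≤ σ.m := by omega
    have hBf : 0 ≤ B * f := by positivity
    rw [norm_mul, norm_mul, norm_pow, norm_pow, norm_pow]
    calc _ ≤ (B * f) ^ μ 0 * (B * f) ^ μ 1 * (B * f) ^ μ 2 :=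
          mul_le_mul (mul_le_mul (pow_le_pow_left₀ (norm_nonneg _) k1' _)
            (pow_le_pow_left₀ (norm_nonneg _) k2' _) (by positivity) (by positivity))
            (pow_le_pow_left₀ (norm_nonneg _) k5 _) (by positivity) (by positivity)
      _ = (B * f) ^ N * (B * f) := by rw [← pow_add, ← pow_add, hN, pow_succ]
      _ ≤ (2 * B) ^ N * (B * f) := by
          apply mul_le_mul_of_nonneg_right _ hBf
          apply pow_le_pow_left₀ hBf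
          nlinarith
      _ ≤ (2 * B) ^ σ.m * (B * f) := by
          apply mul_le_mul_of_nonneg_right _ hBf
          exact pow_le_pow_right₀ (by linarith) hNm
      _ = _ := by ring
  exact (mul_le_mul e1 e2 (norm_nonneg _) (abs_nonneg _)).trans (le_of_eq (by ring))

/-- **The global bound.** -/
theorem jv_bd' {S : Set (Mat (n + 1))} (hS : IsCompact S) (hLB : ∀ M ∈ S, LBa R M) {σ : JD K}
    (hm : 0 < σ.m) (hreg : σ.Regular 2) : ∃ C : ℝ, 0 ≤ C ∧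
      ∀ φ : ℂ → Mat (n + 1), Cv y φ → (∀ z, ‖fderiv ℝ φ z‖ ≤ 2) → ∀ᶠ z in codiscrete ℂ,
        φ z ∈ S → ‖jv R σ 0 φ z‖ ≤ C * ‖fderiv ℝ φ z‖ := by
  refine hS.induction_on (p := fun S => ∃ C : ℝ, 0 ≤ C ∧
      ∀ φ : ℂ → Mat (n + 1), Cv y φ → (∀ z, ‖fderiv ℝ φ z‖ ≤ 2) → ∀ᶠ z in codiscrete ℂ,
        φ z ∈ S → ‖jv R σ 0 φ z‖ ≤ C * ‖fderiv ℝ φ z‖) ?_ ?_ ?_ ?_
  · exact ⟨0, le_rfl, fun φ h _ => Eventually.of_forall fun z hz => absurd hz (by simp)⟩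
  · rintro S S' hSS ⟨C, hC, h⟩
    refine ⟨C, hC, fun φ hφ hb => ?_⟩
    filter_upwards [h φ hφ hb] with z hz hzS
    exact hz (hSS hzS)
  · rintro S S' ⟨C, hC, h⟩ ⟨C', hC', h'⟩
    refine ⟨max C C', hC.trans (le_max_left _ _), fun φ hφ hb => ?_⟩
    filter_upwards [h φ hφ hb, h' φ hφ hb] with z hz hz' hzS
    rcases hzS with hzS | hzS
    · exact (hz hzS).trans (mul_le_mul_of_nonneg_right (le_max_left _ _) (by positivity))
    · exact (hz' hzS).trans (mul_le_mul_of_nonneg_right (le_max_right _ _) (by positivity))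
  · intro M0 hM0
    obtain ⟨O, hO, hM0O, C, hC, h⟩ := jv_bd R (hLB M0 hM0) hm hreg
    exact ⟨O, mem_nhdsWithin_of_mem_nhds (hO.mem_nhds hM0O), C, hC, h⟩

/-- **Regular invariant differential expressions are constant on curves of bounded
derivative.** -/
theorem jexists_const (hLB : ∀ M ∈ TX y, LBa R M) {σ : JD K}
    (hm : 0 < σ.m) (hreg : σ.Regular 2) : ∃ C : ℝ, 0 ≤ C ∧
      ∀ φ : ℂ → Mat (n + 1), Cv y φ → (∀ z, ‖fderiv ℝ φ z‖ ≤ 2) → ∃ c : ℂ, JEq R σ 0 c φ ∧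
        ∀ z, ‖c‖ ≤ C * ‖fderiv ℝ φ z‖ := by
  obtain ⟨C, hC, hbd⟩ := jv_bd' R isCompact_TX hLB hm hreg
  refine ⟨C, hC, fun φ h hB => ?_⟩
  have h1 : ∀ᶠ z in codiscrete ℂ, ‖jv R σ 0 φ z‖ ≤ C * ‖fderiv ℝ φ z‖ := by
    filter_upwards [hbd φ h hB] with z hz using hz (h.mem z)
  obtain ⟨c, hc⟩ := mk_const (jv_mero R h σ 0) (C := C * 2) (by
    filter_upwards [h1] with z hz
    exact hz.trans (mul_le_mul_of_nonneg_left (hB z) hC))
  rw [← cl_const] at hc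
  have hev : ∀ᶠ z in codiscrete ℂ, jv R σ 0 φ z = c := cl_eq.1 hc
  refine ⟨c, fun z hz => ?_, fun z => ?_⟩
  · exact eq_of_codis hev (jv_an R h 0 hz).continuousAt continuousAt_const
  · have h2 : Tendsto (fun w => C * ‖fderiv ℝ φ w‖) (𝓝[≠] z) (𝓝 (C * ‖fderiv ℝ φ z‖)) := by
      have h3 : ContinuousAt (fderiv ℝ φ) z := h.hol.continuousAt_fderiv (mem_univ z)
      exact ((h3.norm.tendsto).const_mul C).mono_left nhdsWithin_le_nhds
    refine ge_of_tendsto h2 ?_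
    filter_upwards [codis_ev h1 z, codis_ev hev z] with w hw1 hw2
    rw [hw2] at hw1
    exact hw1

end Pool.Agent.L7h90.JT
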