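import Pool.Agent.N155.L.SDefs

/-!
Invariant differential expressions (jet differentials) of the second order on projective surfaces,
in terms of the function field, and curves which satisfy the corresponding differential equations.
-/

set_option autoImplicit false

open FF LinearAlgebra.Projectivization Pool.Agent.W602.GT
open Pool.Agent.N155 (ValAt)
open scoped LinearAlgebra.Projectivization

namespace Pool.Agent.L7h90.JT

/-- An invariant differential expression of the second order and of weight `m` on the surfaces with
function field `K` (an invariant jet differential of order two): the sum of the terms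
`h s * x' ^ (s 0) * y' ^ (s 1) * (x' y'' - x'' y') ^ (s 2)`, with `s 0 + s 1 + 3 * s 2 = m`, where
`x`, `y` are algebraically independent rational functions, and the `h s`, the coefficients of the
polynomial `p`, are rational functions. -/
structure JD (K : Type) [Field K] [Algebra ℂ K] where
  m : ℕ
  p : MvPolynomial (Fin 3) K
  x : K
  y : K
  alg : AlgebraicIndependent ℂ ![x, y]
  hom : ∀ s ∈ p.support, s 0 + s 1 + 3 * s 2 = m

section

variable {K : Type} [Field K] [Algebra ℂ K]

/-- The value of the differential expression on a vector field. -/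
noncomputable def JD.val (σ : JD K) (D : Derivation ℂ K K) : K :=
  ∑ s ∈ σ.p.support, σ.p.coeff s * (D σ.x) ^ s 0 * (D σ.y) ^ s 1 *
    (D σ.x * D (D σ.y) - D (D σ.x) * D σ.y) ^ s 2

/-- The differential expression is regular on the smooth projective models of `K`, of dimension
`w`: at the discrete valuation ring of a prime divisor its values on the regular vector fields are
regular. -/
def JD.Regular (w : ℕ) (σ : JD K) : Prop :=
  ∀ P : Place ℂ K, Divisorial w P → ∀ D : Derivation ℂ K K, DerReg P D → P.Reg (σ.val D)

/-- The curve `f` satisfies the differential equation `σ(f') = 0`: on every open set `V` on which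
the coefficients `h s` and the functions `x`, `y` are regular along the curve, with the values
`H s`, `Φ` and `Ψ`, the function `∑ s, H s * Φ' ^ (s 0) * Ψ' ^ (s 1) * (Φ' Ψ'' - Φ'' Ψ') ^ (s 2)` is
zero. -/
def JD.Solves {n : ℕ} (y : Fin (n + 1) → K) (σ : JD K) (f : ℂ → ℙ ℂ (Fin (n + 1) → ℂ)) : Prop :=
  ∀ (V : Set ℂ) (H : (Fin 3 →₀ ℕ) → ℂ → ℂ) (Φ Ψ : ℂ → ℂ), IsOpen V →
    (∀ z ∈ V, ∀ s ∈ σ.p.support, ValAt y (σ.p.coeff s) (f z).rep (H s z)) →
    (∀ z ∈ V, ValAt y σ.x (f z).rep (Φ z)) → (∀ z ∈ V, ValAt y σ.y (f z).rep (Ψ z)) →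
    ∀ z ∈ V, ∑ s ∈ σ.p.support, H s z * deriv Φ z ^ s 0 * deriv Ψ z ^ s 1 *
      (deriv Φ z * deriv (deriv Ψ) z - deriv (deriv Φ) z * deriv Ψ z) ^ s 2 = 0

/-- The Wronskian `D u * D (D v) - D (D u) * D v`. -/
noncomputable def wrD {L : Type} [Field L] [Algebra ℂ L] (D : Derivation ℂ L L) (u v : L) : L :=
  D u * D (D v) - D (D u) * D v

/-- The value of the differential expression on a derivation `D` of an extension `L` of `K`: the sum
of the terms `h s * D x ^ (s 0) * D y ^ (s 1) * (D x * D (D y) - D (D x) * D y) ^ (s 2)`. -/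
noncomputable def JD.app (σ : JD K) {L : Type} [Field L]
    [Algebra ℂ L] [Algebra K L] (D : Derivation ℂ L L) : L :=
  ∑ s ∈ σ.p.support, algebraMap K L (σ.p.coeff s) * D (algebraMap K L σ.x) ^ s 0 *
    D (algebraMap K L σ.y) ^ s 1 * wrD D (algebraMap K L σ.x) (algebraMap K L σ.y) ^ s 2

end

/-- The regular invariant differential equations of the second order on the surfaces with function
field `K` have no solutions in differential fields: whenever `A` is an extension of `K` with a
derivation `D` the constants of which are the complex numbers, some regular invariant differential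
expression of the second order, of positive weight, does not vanish on `D`. -/
def JetRigid (K : Type) [Field K] [Algebra ℂ K] : Prop :=
  ∀ (A : Type) [Field A] [Algebra ℂ A] [Algebra K A] [IsScalarTower ℂ K A]
    (D : Derivation ℂ A A), (∀ a, D a = 0 → ∃ c : ℂ, a = algebraMap ℂ A c) →
    ∃ σ : JD K, 0 < σ.m ∧ σ.Regular 2 ∧ σ.app D ≠ 0

/-- The ideal which the regular invariant differential expressions of the second order, of positive
weight, of `K` generate in the algebra of the invariant differential expressions of the second order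
of some algebraic extension `M` of `K` contains a nonzero product of exact differentials and
Wronskians: `∑ i, ρ i * σ i = h * ∏ a l' * ∏ (u l' v l'' - u l'' v l')` on `M`, with regular `σ i`,
`h ≠ 0`, nonconstant `a l`, and algebraically independent `u l`, `v l`. -/
def JetProduct (K : Type) [Field K] [Algebra ℂ K] : Prop :=
  ∃ (M : Type) (_ : Field M) (_ : Algebra ℂ M) (_ : Algebra K M) (_ : IsScalarTower ℂ K M)
    (r k N : ℕ) (σ : Fin r → JD K) (ρ : Fin r → JD M) (h : M) (a : Fin k → M) (u v : Fin N → M),
    Algebra.IsAlgebraic K M ∧ (∀ i, 0 < (σ i).m ∧ (σ i).Regular 2) ∧ h ≠ 0 ∧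
    (∀ l, Transcendental ℂ (a l)) ∧ (∀ l, AlgebraicIndependent ℂ ![u l, v l]) ∧
    ∀ D : Derivation ℂ M M, ∑ i, (ρ i).app D * (σ i).app D =
      h * (∏ l, D (a l)) * ∏ l, wrD D (u l) (v l)

/-- The smooth projective surfaces with function field `K` have a nonzero regular product of exact
differentials and Wronskians: `h * ∏ a l' * ∏ (u l' v l'' - u l'' v l')`, with at least one factor
besides `h ≠ 0`, nonconstant `a l`, and algebraically independent `u l`, `v l`. -/
def RegularProduct (K : Type) [Field K] [Algebra ℂ K] : Prop :=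
  ∃ (k N : ℕ) (h : K) (a : Fin k → K) (u v : Fin N → K), 0 < k + N ∧ h ≠ 0 ∧
    (∀ l, Transcendental ℂ (a l)) ∧ (∀ l, AlgebraicIndependent ℂ ![u l, v l]) ∧
    ∀ p : Place ℂ K, Divisorial 2 p → ∀ D : Derivation ℂ K K, DerReg p D →
      p.Reg (h * (∏ l, D (a l)) * ∏ l, wrD D (u l) (v l))

/-- There are `q` functions `w i` on the surfaces with function field `K` the `d`-th powers of which
are elements `L i 0 + L i 1 * u + L i 2 * v` of a space `ℂ + ℂ u + ℂ v` with algebraically
independent `u`, `v`, any two of the powers being linearly independent, where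
`q (1 - 2 / d) ≥ 3`. -/
def PowerLines (K : Type) [Field K] [Algebra ℂ K] : Prop :=
  ∃ (u v : K) (q d : ℕ) (L : Fin q → Fin 3 → ℂ) (w : Fin q → K),
    AlgebraicIndependent ℂ ![u, v] ∧ 0 < d ∧
    (∀ i, algebraMap ℂ K (L i 0) + algebraMap ℂ K (L i 1) * u + algebraMap ℂ K (L i 2) * v =
      w i ^ d) ∧
    (∀ i j, i ≠ j → ∀ s t : ℂ, s • L i + t • L j = 0 → s = 0 ∧ t = 0) ∧
    3 ≤ q * (1 - 2 / (d : ℚ))

end Pool.Agent.L7h90.JT
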