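import Pool.Agent.L7h90.WR.Gro
import Pool.Agent.L7h90.JT.Def

/-! Invariant differential expressions of the second order, along curves. -/

set_option autoImplicit false

open Filter Topology Set Metric MvPolynomial FF

namespace Pool.Agent.L7h90.JT

open Pool.Agent.N155 Pool.Agent.Y190.OP Pool.Agent.W602.GT Pool.Agent.TH143.GT
open Pool.Agent.L7h90.WR

variable {n : ℕ} {K : Type} [Field K] [Algebra ℂ K] {y : Fin (n + 1) → K}
  (R : ∀ h : K, Frac y h)

/-- the value of the differential expression on the curve, and of its derivatives with respect to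
the Wronskian -/
noncomputable def jv (σ : JD K) (t : ℕ) (φ : ℂ → Mat (n + 1)) (z : ℂ) : ℂ :=
  ∑ s ∈ σ.p.support, ((s 2).descFactorial t : ℂ) * ev R (σ.p.coeff s) (φ z) *
    deriv (fun w => ev R σ.x (φ w)) z ^ s 0 * deriv (fun w => ev R σ.y (φ w)) z ^ s 1 *
    cw (fun w => ev R σ.x (φ w)) (fun w => ev R σ.y (φ w)) z ^ (s 2 - t)

/-- the coefficients are defined -/
def jgood (σ : JD K) (M : Mat (n + 1)) : Prop :=
  (∀ s ∈ σ.p.support, good R (σ.p.coeff s) M) ∧ good R σ.x M ∧ good R σ.y M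

/-- the differential equation -/
def JEq (σ : JD K) (t : ℕ) (c : ℂ) (φ : ℂ → Mat (n + 1)) : Prop :=
  ∀ z, jgood R σ (φ z) → jv R σ t φ z = c

theorem isOpen_jgood (σ : JD K) : IsOpen {M : Mat (n + 1) | jgood R σ M} := by
  have h1 : {M : Mat (n + 1) | jgood R σ M} = (⋂ s ∈ σ.p.support, {M | good R (σ.p.coeff s) M}) ∩
      ({M | good R σ.x M} ∩ {M | good R σ.y M}) := by
    ext M
    simp only [mem_inter_iff, mem_iInter]
    rfl
  rw [h1]
  exact (isOpen_biInter_finset fun s _ => isOpen_good R _).inter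
    ((isOpen_good R _).inter (isOpen_good R _))

variable {φ : ℂ → Mat (n + 1)}

theorem jgood_codis (h : Cv y φ) (σ : JD K) : ∀ᶠ z in codiscrete ℂ, jgood R σ (φ z) := by
  have h1 : ∀ᶠ z in codiscrete ℂ, ∀ s ∈ σ.p.support, good R (σ.p.coeff s) (φ z) := by
    rw [Filter.eventually_all_finset]
    exact fun s _ => h.good R _
  filter_upwards [h1, h.good R σ.x, h.good R σ.y] with z h1 h2 h3 using ⟨h1, h2, h3⟩

theorem jv_shift (σ : JD K) (t : ℕ) (φ : ℂ → Mat (n + 1)) (u z : ℂ) :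
    jv R σ t (fun w => φ (u + w)) z = jv R σ t φ (u + z) := by
  unfold jv cw
  have h2 : ∀ f : ℂ → ℂ, deriv (fun w => f (u + w)) = fun w => deriv f (u + w) := fun f =>
    funext fun w => deriv_comp_const_add f u w
  have e1 := h2 fun w => ev R σ.x (φ w)
  have e2 := h2 fun w => ev R σ.y (φ w)
  simp only [e1, e2]
  have e3 := congrFun (h2 (deriv fun w => ev R σ.x (φ w))) z
  have e4 := congrFun (h2 (deriv fun w => ev R σ.y (φ w))) z
  rw [e3, e4]

theorem JEq.shift {σ : JD K} {t : ℕ} {c : ℂ} (h : JEq R σ t c φ) (u : ℂ) :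
    JEq R σ t c (fun w => φ (u + w)) := by
  intro z hz
  rw [jv_shift]
  exact h (u + z) hz

theorem jv_aff (σ : JD K) (φ : ℂ → Mat (n + 1)) (ρ : ℝ) (z : ℂ) :
    jv R σ 0 (fun w => φ (aff 0 ρ w)) z = (ρ : ℂ) ^ σ.m * jv R σ 0 φ (aff 0 ρ z) := by
  unfold jv cw
  have h2 : ∀ f : ℂ → ℂ, deriv (fun w => f (aff 0 ρ w)) = fun w => ρ * deriv f (aff 0 ρ w) := by
    intro f
    funext w
    have h3 := deriv_comp_mul_left (ρ : ℂ) f w
    unfold aff
    simp only [zero_add]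
    rw [h3, smul_eq_mul]
  have h4 : ∀ f : ℂ → ℂ, deriv (fun w => (ρ : ℂ) * deriv f (aff 0 ρ w)) z =
      ρ ^ 2 * deriv (deriv f) (aff 0 ρ z) := by
    intro f
    rw [deriv_const_mul_field, congrFun (h2 (deriv f)) z]
    ring
  have e1 := h2 fun w => ev R σ.x (φ w)
  have e2 := h2 fun w => ev R σ.y (φ w)
  simp only [e1, e2, h4]
  rw [Finset.mul_sum]
  refine Finset.sum_congr rfl fun s hs => ?_
  set u1 := deriv (fun w => ev R σ.x (φ w)) (aff 0 ρ z)
  set v1 := deriv (fun w => ev R σ.y (φ w)) (aff 0 ρ z)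
  set u2 := deriv (deriv fun w => ev R σ.x (φ w)) (aff 0 ρ z)
  set v2 := deriv (deriv fun w => ev R σ.y (φ w)) (aff 0 ρ z)
  have e : (ρ : ℂ) * u1 * (ρ ^ 2 * v2) - ρ ^ 2 * u2 * (ρ * v1) = ρ ^ 3 * (u1 * v2 - u2 * v1) := by
    ring
  rw [e, mul_pow, mul_pow, mul_pow, ← pow_mul, ← σ.hom s hs, Nat.sub_zero, pow_add, pow_add]
  ring

theorem jv_mero (h : Cv y φ) (σ : JD K) (t : ℕ) : Meromorphic (jv R σ t φ) := by
  unfold jv
  refine mero_sum' _ fun s => ?_
  intro z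
  exact ((((MeromorphicAt.const _ z).mul (h.mero R _ z)).mul (((h.mero R σ.x).deriv z).pow _)).mul
    (((h.mero R σ.y).deriv z).pow _)).mul ((cw_mero (h.mero R σ.x) (h.mero R σ.y) z).pow _)

theorem jv_an (h : Cv y φ) {σ : JD K} (t : ℕ) {z : ℂ} (hz : jgood R σ (φ z)) :
    AnalyticAt ℂ (jv R σ t φ) z := by
  obtain ⟨k1, k2, k3⟩ := hz
  unfold jv
  refine Finset.analyticAt_fun_sum _ fun s hs => ?_
  exact (((analyticAt_const.mul (h.an R (k1 s hs))).mul ((h.an R k2).deriv.pow _)).mul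
    ((h.an R k3).deriv.pow _)).mul ((cw_an (h.an R k2) (h.an R k3)).pow _)

/-! ### limits -/

theorem jv_lim {l : Filter ℕ} [l.NeBot] {P : ℕ → ℂ → Mat (n + 1)}
    (hc : CConv l univ P φ) (hP : ∀ m, HolP univ (P m)) (hφ : HolP univ φ) {σ : JD K} (t : ℕ)
    {z : ℂ} (hz : jgood R σ (φ z)) :
    Tendsto (fun p : ℕ × ℂ => jv R σ t (P p.1) p.2) (l ×ˢ 𝓝 z) (𝓝 (jv R σ t φ z)) := by
  obtain ⟨k1, k2, k3⟩ := hz
  obtain ⟨-, u1, u2⟩ := ev_two R hc hP hφ k2
  obtain ⟨-, v1, v2⟩ := ev_two R hc hP hφ k3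
  unfold jv
  refine tendsto_finsetSum _ fun s hs => ?_
  exact (((tendsto_const_nhds.mul (ev_two R hc hP hφ (k1 s hs)).1).mul (u1.pow _)).mul
    (v1.pow _)).mul (((u1.mul v2).sub (u2.mul v1)).pow _)

theorem jgood_lim {l : Filter ℕ} {P : ℕ → ℂ → Mat (n + 1)}
    (hc : CConv l univ P φ) {σ : JD K} {z : ℂ} (hz : jgood R σ (φ z)) :
    ∀ᶠ p : ℕ × ℂ in l ×ˢ 𝓝 z, jgood R σ (P p.1 p.2) :=
  (hc z (mem_univ z)).eventually ((isOpen_jgood R σ).mem_nhds hz)

/-- the differential equation is closed -/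
theorem JEq.lim {l : Filter ℕ} [l.NeBot] {P : ℕ → ℂ → Mat (n + 1)}
    (hc : CConv l univ P φ) (hP : ∀ m, HolP univ (P m)) (hφ : HolP univ φ) {σ : JD K} {t : ℕ}
    {c : ℂ} (h : ∀ m, JEq R σ t c (P m)) : JEq R σ t c φ := by
  intro z hz
  have h3 := at_z (jv_lim R hc hP hφ t hz)
  have h4 : ∀ᶠ m in l, jgood R σ (P m z) :=
    (hc.pointwise (mem_univ z)).eventually ((isOpen_jgood R σ).mem_nhds hz)
  have h5 : Tendsto (fun _ : ℕ => c) l (𝓝 (jv R σ t φ z)) := by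
    refine h3.congr' ?_
    filter_upwards [h4] with m hm
    exact h m z hm
  exact tendsto_nhds_unique h5 tendsto_const_nhds

end Pool.Agent.L7h90.JT
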