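import Mathlib

/-! Differences of weighted homogeneous polynomials. -/

set_option autoImplicit false

open Filter Topology Set Metric

namespace Pool.Agent.L7h90.JT

/-- divided differences of powers -/
noncomputable def dd (n : ℕ) (x y : ℂ) : ℂ := ∑ i ∈ Finset.range n, x ^ i * y ^ (n - 1 - i)

theorem dd_mul (n : ℕ) (x y : ℂ) : (x - y) * dd n x y = x ^ n - y ^ n := by
  have h := (Commute.all x y).geom_sum₂_mul n
  unfold dd
  rw [mul_comm]
  exact h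

theorem dd_lim {ι : Type} {F : Filter ι} {x y : ι → ℂ} {a : ℂ} (hx : Tendsto x F (𝓝 a))
    (hy : Tendsto y F (𝓝 a)) (n : ℕ) :
    Tendsto (fun p => dd n (x p) (y p)) F (𝓝 (n * a ^ (n - 1))) := by
  have h1 : Tendsto (fun p => ∑ i ∈ Finset.range n, x p ^ i * y p ^ (n - 1 - i)) F
      (𝓝 (∑ i ∈ Finset.range n, a ^ i * a ^ (n - 1 - i))) :=
    tendsto_finsetSum _ fun i _ => (hx.pow i).mul (hy.pow _)
  have h2 : ∑ i ∈ Finset.range n, a ^ i * a ^ (n - 1 - i) = n * a ^ (n - 1) := by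
    have : ∀ i ∈ Finset.range n, a ^ i * a ^ (n - 1 - i) = a ^ (n - 1) := by
      intro i hi
      rw [← pow_add]
      congr 1
      have := Finset.mem_range.1 hi
      omega
    rw [Finset.sum_congr rfl this, Finset.sum_const, Finset.card_range, nsmul_eq_mul]
  rw [h2] at h1
  exact h1

section

variable {ι : Type} {F : Filter ι} {XP XQ YP YQ WP WQ u : ι → ℂ} {X Y W ξ υ : ℂ}

/-- the difference of monomials -/
theorem mono_lim {HP HQ : ι → ℂ} {H : ℂ} (a b c : ℕ)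
    (hHP : Tendsto HP F (𝓝 H)) (hXP : Tendsto XP F (𝓝 X)) (hXQ : Tendsto XQ F (𝓝 X))
    (hYP : Tendsto YP F (𝓝 Y)) (hYQ : Tendsto YQ F (𝓝 Y)) (hWQ : Tendsto WQ F (𝓝 W))
    (hH : Tendsto (fun p => (HQ p - HP p) * u p) F (𝓝 0))
    (hX : Tendsto (fun p => (XQ p - XP p) * u p) F (𝓝 ξ))
    (hY : Tendsto (fun p => (YQ p - YP p) * u p) F (𝓝 υ)) :
    Tendsto (fun p => (HQ p * XQ p ^ a * YQ p ^ b * WQ p ^ c -
      HP p * XP p ^ a * YP p ^ b * WP p ^ c) * u p -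
      (WQ p - WP p) * u p * (HP p * XP p ^ a * YP p ^ b * dd c (WQ p) (WP p))) F
      (𝓝 (H * (a * X ^ (a - 1) * ξ) * Y ^ b * W ^ c +
        H * X ^ a * (b * Y ^ (b - 1) * υ) * W ^ c)) := by
  have h1 := ((((hH.mul (hXQ.pow a)).mul (hYQ.pow b)).mul (hWQ.pow c)).add
    (((hHP.mul ((dd_lim hXQ hXP a).mul hX)).mul (hYQ.pow b)).mul (hWQ.pow c))).add
    (((hHP.mul (hXP.pow a)).mul ((dd_lim hYQ hYP b).mul hY)).mul (hWQ.pow c))
  rw [zero_mul, zero_mul, zero_mul, zero_add] at h1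
  refine h1.congr fun p => ?_
  have e1 := dd_mul a (XQ p) (XP p)
  have e2 := dd_mul b (YQ p) (YP p)
  have e3 := dd_mul c (WQ p) (WP p)
  linear_combination (HP p * YQ p ^ b * WQ p ^ c * u p) * e1 +
    (HP p * XP p ^ a * WQ p ^ c * u p) * e2 + (HP p * XP p ^ a * YP p ^ b * u p) * e3

/-- the difference of weighted homogeneous polynomials -/
theorem sum_lim {S : Finset (Fin 3 →₀ ℕ)} {m : ℕ} (hs : ∀ s ∈ S, s 0 + s 1 + 3 * s 2 = m) (t : ℕ)
    {HP HQ : (Fin 3 →₀ ℕ) → ι → ℂ} {H : (Fin 3 →₀ ℕ) → ℂ} {γ : ℂ}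
    (hHP : ∀ s ∈ S, Tendsto (HP s) F (𝓝 (H s))) (hXP : Tendsto XP F (𝓝 X))
    (hXQ : Tendsto XQ F (𝓝 X)) (hYP : Tendsto YP F (𝓝 Y)) (hYQ : Tendsto YQ F (𝓝 Y))
    (hWP : Tendsto WP F (𝓝 W)) (hWQ : Tendsto WQ F (𝓝 W))
    (hH : ∀ s ∈ S, Tendsto (fun p => (HQ s p - HP s p) * u p) F (𝓝 0))
    (hX : Tendsto (fun p => (XQ p - XP p) * u p) F (𝓝 (-γ * X)))
    (hY : Tendsto (fun p => (YQ p - YP p) * u p) F (𝓝 (-γ * Y))) :
    Tendsto (fun p => (∑ s ∈ S, ((s 2).descFactorial t : ℂ) * HQ s p * XQ p ^ s 0 * YQ p ^ s 1 *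
        WQ p ^ (s 2 - t) - ∑ s ∈ S, ((s 2).descFactorial t : ℂ) * HP s p * XP p ^ s 0 *
        YP p ^ s 1 * WP p ^ (s 2 - t)) * u p - (WQ p - WP p) * u p *
        ∑ s ∈ S, ((s 2).descFactorial t : ℂ) * HP s p * XP p ^ s 0 * YP p ^ s 1 *
          dd (s 2 - t) (WQ p) (WP p)) F
      (𝓝 (-γ * ((m - 3 * t) * ∑ s ∈ S, ((s 2).descFactorial t : ℂ) * H s * X ^ s 0 * Y ^ s 1 *
        W ^ (s 2 - t) - 3 * W * ∑ s ∈ S, ((s 2).descFactorial (t + 1) : ℂ) * H s * X ^ s 0 *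
        Y ^ s 1 * W ^ (s 2 - (t + 1))))) ∧
    Tendsto (fun p => ∑ s ∈ S, ((s 2).descFactorial t : ℂ) * HP s p * XP p ^ s 0 * YP p ^ s 1 *
          dd (s 2 - t) (WQ p) (WP p)) F
      (𝓝 (∑ s ∈ S, ((s 2).descFactorial (t + 1) : ℂ) * H s * X ^ s 0 *
        Y ^ s 1 * W ^ (s 2 - (t + 1)))) := by
  constructor
  · have h1 := tendsto_finsetSum S fun s hsS => mono_lim (HQ := fun p =>
        ((s 2).descFactorial t : ℂ) * HQ s p) (s 0) (s 1) (s 2 - t)
      ((hHP s hsS).const_mul ((s 2).descFactorial t : ℂ)) hXP hXQ hYP hYQ hWQ (WP := WP)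
      (by
        have := (hH s hsS).const_mul ((s 2).descFactorial t : ℂ)
        rw [mul_zero] at this
        refine this.congr fun p => ?_
        ring) hX hY
    have h2 : ∑ s ∈ S, (((s 2).descFactorial t : ℂ) * H s * ((s 0 : ℂ) * X ^ (s 0 - 1) * (-γ * X)) *
        Y ^ s 1 * W ^ (s 2 - t) + ((s 2).descFactorial t : ℂ) * H s * X ^ s 0 *
        ((s 1 : ℂ) * Y ^ (s 1 - 1) * (-γ * Y)) * W ^ (s 2 - t)) =
        -γ * ((m - 3 * t) * ∑ s ∈ S, ((s 2).descFactorial t : ℂ) * H s * X ^ s 0 * Y ^ s 1 *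
        W ^ (s 2 - t) - 3 * W * ∑ s ∈ S, ((s 2).descFactorial (t + 1) : ℂ) * H s * X ^ s 0 *
        Y ^ s 1 * W ^ (s 2 - (t + 1))) := by
      rw [Finset.mul_sum, Finset.mul_sum, ← Finset.sum_sub_distrib, Finset.mul_sum]
      refine Finset.sum_congr rfl fun s hsS => ?_
      have k1 : (s 0 : ℂ) * X ^ (s 0 - 1) * X = s 0 * X ^ s 0 := by
        rcases Nat.eq_zero_or_pos (s 0) with h0 | h0
        · rw [h0]
          simp
        · rw [mul_assoc, ← pow_succ, Nat.sub_add_cancel h0]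
      have k2 : (s 1 : ℂ) * Y ^ (s 1 - 1) * Y = s 1 * Y ^ s 1 := by
        rcases Nat.eq_zero_or_pos (s 1) with h0 | h0
        · rw [h0]
          simp
        · rw [mul_assoc, ← pow_succ, Nat.sub_add_cancel h0]
      have k3 : (m : ℂ) = s 0 + s 1 + 3 * s 2 := by
        rw [← hs s hsS]
        push_cast
        ring
      have k4 : W * (((s 2).descFactorial (t + 1) : ℂ) * W ^ (s 2 - (t + 1))) =
          ((s 2 : ℂ) - t) * (((s 2).descFactorial t : ℂ) * W ^ (s 2 - t)) := by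
        rw [Nat.descFactorial_succ]
        rcases lt_trichotomy (s 2) t with h0 | h0 | h0
        · rw [Nat.descFactorial_of_lt h0]
          simp
        · rw [h0]
          simp
        · have h3 : s 2 - t = s 2 - (t + 1) + 1 := by omega
          rw [h3, pow_succ, ← h3]
          push_cast [Nat.cast_sub h0.le]
          ring
      linear_combination (-γ * ((s 2).descFactorial t : ℂ) * H s * Y ^ s 1 * W ^ (s 2 - t)) * k1 +
        (-γ * ((s 2).descFactorial t : ℂ) * H s * X ^ s 0 * W ^ (s 2 - t)) * k2 +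
        (γ * ((s 2).descFactorial t : ℂ) * H s * X ^ s 0 * Y ^ s 1 * W ^ (s 2 - t)) * k3 -
        (3 * γ * H s * X ^ s 0 * Y ^ s 1) * k4
    rw [h2] at h1
    refine h1.congr fun p => ?_
    rw [Finset.sum_sub_distrib, ← Finset.sum_mul, Finset.sum_sub_distrib, ← Finset.mul_sum]
  · have h1 := tendsto_finsetSum S fun s hsS => (((((hHP s hsS).const_mul
      ((s 2).descFactorial t : ℂ)).mul (hXP.pow (s 0))).mul (hYP.pow (s 1))).mul
      (dd_lim hWQ hWP (s 2 - t)))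
    refine h1.congr' (Eventually.of_forall fun p => rfl) |>.trans (le_of_eq ?_)
    congr 1
    refine Finset.sum_congr rfl fun s hsS => ?_
    have k4 : ((s 2).descFactorial (t + 1) : ℂ) * W ^ (s 2 - (t + 1)) =
        ((s 2 - t : ℕ) : ℂ) * ((s 2).descFactorial t : ℂ) * W ^ (s 2 - t - 1) := by
      rw [Nat.descFactorial_succ, Nat.sub_sub]
      push_cast
      ring
    linear_combination (-(H s * X ^ s 0 * Y ^ s 1)) * k4

end

end Pool.Agent.L7h90.JT
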