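import Pool.Agent.L7h90.JT.Lin
import Pool.Agent.L7h90.JT.Key
import Pool.Agent.L7h90.WR.Gam

/-! Rapidly oscillating deformations at the generic points: expressions of the second order. -/

set_option autoImplicit false

open Filter Topology Set Metric MvPolynomial FF

namespace Pool.Agent.L7h90.JT

open Pool.Agent.N155 Pool.Agent.Y190.OP Pool.Agent.W602.GT Pool.Agent.TH143.GT
open Pool.Agent.L7h90.WR

variable {n : ℕ} {K : Type} [Field K] [Algebra ℂ K] {y : Fin (n + 1) → K}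
  (R : ∀ h : K, Frac y h) {𝓤 : Ultrafilter ℕ} {φ : ℂ → Mat (n + 1)} {P Q : ℕ → ℂ → Mat (n + 1)}
  {a κ : ℕ → ℂ}

/-- the Wronskian of the basic functions -/
noncomputable def jw (σ : JD K) (φ : ℂ → Mat (n + 1)) (z : ℂ) : ℂ :=
  cw (fun w => ev R σ.x (φ w)) (fun w => ev R σ.y (φ w)) z

/-- the divided difference -/
noncomputable def jG (σ : JD K) (t : ℕ) (P Q : ℕ → ℂ → Mat (n + 1)) (p : ℕ × ℂ) : ℂ :=
  ∑ s ∈ σ.p.support, ((s 2).descFactorial t : ℂ) * ev R (σ.p.coeff s) (P p.1 p.2) *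
    deriv (fun w => ev R σ.x (P p.1 w)) p.2 ^ s 0 *
    deriv (fun w => ev R σ.y (P p.1 w)) p.2 ^ s 1 *
    dd (s 2 - t) (jw R σ (Q p.1) p.2) (jw R σ (P p.1) p.2)

/-- **The differences of the values.** -/
theorem jt_lim (h : Dfo y 𝓤 φ P Q (fun m z => κ m * Complex.exp (a m * z)))
    (hinf : ∀ C : ℝ, ∀ᶠ m in (𝓤 : Filter ℕ), C ≤ ‖a m‖) {z : ℂ}
    (hgr : ∀ᶠ p : ℕ × ℂ in (𝓤 : Filter ℕ) ×ˢ 𝓝 z,
      Real.exp (‖a p.1‖ / 2) ≤ ‖κ p.1 * Complex.exp (a p.1 * p.2)‖)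
    {σ : JD K} {γ : ℂ} (hz : jgood R σ (φ z))
    (hDx : Dl R 𝓤 P Q (fun m z => κ m * Complex.exp (a m * z)) σ.x z =
      γ * deriv (fun w => ev R σ.x (φ w)) z)
    (hDy : Dl R 𝓤 P Q (fun m z => κ m * Complex.exp (a m * z)) σ.y z =
      γ * deriv (fun w => ev R σ.y (φ w)) z) (t : ℕ) :
    Tendsto (fun p : ℕ × ℂ => (jv R σ t (Q p.1) p.2 - jv R σ t (P p.1) p.2) *
      (κ p.1 * Complex.exp (a p.1 * p.2) * (a p.1)⁻¹) - (jw R σ (Q p.1) p.2 -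
      jw R σ (P p.1) p.2) * (κ p.1 * Complex.exp (a p.1 * p.2) * (a p.1)⁻¹) * jG R σ t P Q p)
      ((𝓤 : Filter ℕ) ×ˢ 𝓝 z) (𝓝 (-γ * ((σ.m - 3 * t) * jv R σ t φ z -
        3 * jw R σ φ z * jv R σ (t + 1) φ z))) ∧
    Tendsto (fun p : ℕ × ℂ => jG R σ t P Q p) ((𝓤 : Filter ℕ) ×ˢ 𝓝 z)
      (𝓝 (jv R σ (t + 1) φ z)) := by
  obtain ⟨l1, l2, -, -, -⟩ := wt_lims hinf hgr
  obtain ⟨g1, g2, g3⟩ := hz
  obtain ⟨x0, x1, -⟩ := dl_two R h g2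
  obtain ⟨y0, y1, -⟩ := dl_two R h g3
  rw [hDx] at x0
  rw [hDy] at y0
  obtain ⟨-, px1, px2⟩ := ev_two R h.lP h.hP h.cv.hol g2
  obtain ⟨-, py1, py2⟩ := ev_two R h.lP h.hP h.cv.hol g3
  obtain ⟨-, qx1, qx2⟩ := ev_two R h.lQ h.hQ h.cv.hol g2
  obtain ⟨-, qy1, qy2⟩ := ev_two R h.lQ h.hQ h.cv.hol g3
  have hdx : ∀ f : K, good R f (φ z) → ∀ {δ0 δ1 : ℂ},
      Tendsto (fun p : ℕ × ℂ => dqf (ev R f) P Q (fun m z => κ m * Complex.exp (a m * z)) p.1 p.2)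
        ((𝓤 : Filter ℕ) ×ˢ 𝓝 z) (𝓝 δ0) →
      Tendsto (fun p : ℕ × ℂ =>
        deriv (dqf (ev R f) P Q (fun m z => κ m * Complex.exp (a m * z)) p.1) p.2)
        ((𝓤 : Filter ℕ) ×ˢ 𝓝 z) (𝓝 δ1) →
      Tendsto (fun p : ℕ × ℂ => (deriv (fun w => ev R f (Q p.1 w)) p.2 -
        deriv (fun w => ev R f (P p.1 w)) p.2) *
        (κ p.1 * Complex.exp (a p.1 * p.2) * (a p.1)⁻¹)) ((𝓤 : Filter ℕ) ×ˢ 𝓝 z) (𝓝 (-δ0)) := by
    intro f hf δ0 δ1 k0 k1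
    have k2 := (k1.mul l1).sub k0
    rw [mul_zero, zero_sub] at k2
    refine k2.congr' ?_
    have hnP : ∀ᶠ p : ℕ × ℂ in (𝓤 : Filter ℕ) ×ˢ 𝓝 z, good R f (P p.1 p.2) :=
      (h.lP z (mem_univ z)).eventually ((isOpen_good R f).mem_nhds hf)
    have hnQ : ∀ᶠ p : ℕ × ℂ in (𝓤 : Filter ℕ) ×ˢ 𝓝 z, good R f (Q p.1 p.2) :=
      (h.lQ z (mem_univ z)).eventually ((isOpen_good R f).mem_nhds hf)
    filter_upwards [hnP, hnQ, l2] with p m1 m2 m3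
    have m4 := (dq_derivs (an_qv (h.hP p.1) (mem_univ p.2) (R f).h1 (R f).h0 m1)
      (an_qv (h.hQ p.1) (mem_univ p.2) (R f).h1 (R f).h0 m2)
      (fun z => exp_der (κ p.1) (a p.1) z)).1
    change _ = (deriv (fun w => qv (R f).G1 (R f).G0 (Q p.1 w)) p.2 -
      deriv (fun w => qv (R f).G1 (R f).G0 (P p.1 w)) p.2) *
        (κ p.1 * Complex.exp (a p.1 * p.2) * (a p.1)⁻¹)
    have m5 : a p.1 * (a p.1)⁻¹ = 1 := mul_inv_cancel₀ m3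
    rw [← mul_assoc, m4]
    change deriv (dqf (ev R f) P Q (fun m z => κ m * Complex.exp (a m * z)) p.1) p.2 *
      (a p.1)⁻¹ - dqf (ev R f) P Q (fun m z => κ m * Complex.exp (a m * z)) p.1 p.2 =
      (deriv (dqf (ev R f) P Q (fun m z => κ m * Complex.exp (a m * z)) p.1) p.2 -
        a p.1 * dqf (ev R f) P Q (fun m z => κ m * Complex.exp (a m * z)) p.1 p.2) * (a p.1)⁻¹
    linear_combination
      (dqf (ev R f) P Q (fun m z => κ m * Complex.exp (a m * z)) p.1 p.2) * m5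
  have key := sum_lim (F := (𝓤 : Filter ℕ) ×ˢ 𝓝 z) (S := σ.p.support) (m := σ.m) σ.hom t
    (HP := fun s p => ev R (σ.p.coeff s) (P p.1 p.2))
    (HQ := fun s p => ev R (σ.p.coeff s) (Q p.1 p.2))
    (H := fun s => ev R (σ.p.coeff s) (φ z)) (γ := γ)
    (u := fun p => κ p.1 * Complex.exp (a p.1 * p.2) * (a p.1)⁻¹)
    (fun s hs => (ev_two R h.lP h.hP h.cv.hol (g1 s hs)).1) px1 qx1 py1 qy1
    ((px1.mul py2).sub (px2.mul py1)) ((qx1.mul qy2).sub (qx2.mul qy1))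
    (fun s hs => by
      have k1 := ((dl_two R h (g1 s hs)).1).mul l1
      rw [mul_zero] at k1
      refine k1.congr fun p => ?_
      unfold dqf
      ring)
    (by
      have := hdx σ.x g2 x0 x1
      rwa [← neg_mul] at this)
    (by
      have := hdx σ.y g3 y0 y1
      rwa [← neg_mul] at this)
  exact key

/-- the limit of the difference of the Wronskians -/
theorem jt_eq (h : Dfo y 𝓤 φ P Q (fun m z => κ m * Complex.exp (a m * z)))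
    (hinf : ∀ C : ℝ, ∀ᶠ m in (𝓤 : Filter ℕ), C ≤ ‖a m‖) {z : ℂ}
    (hgr : ∀ᶠ p : ℕ × ℂ in (𝓤 : Filter ℕ) ×ˢ 𝓝 z,
      Real.exp (‖a p.1‖ / 2) ≤ ‖κ p.1 * Complex.exp (a p.1 * p.2)‖)
    {σ : JD K} {γ : ℂ} (hz : jgood R σ (φ z))
    (hDx : Dl R 𝓤 P Q (fun m z => κ m * Complex.exp (a m * z)) σ.x z =
      γ * deriv (fun w => ev R σ.x (φ w)) z)
    (hDy : Dl R 𝓤 P Q (fun m z => κ m * Complex.exp (a m * z)) σ.y z =
      γ * deriv (fun w => ev R σ.y (φ w)) z) {t : ℕ} {c : ℂ} (hP : ∀ m, JEq R σ t c (P m))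
    (hQ : ∀ m, JEq R σ t c (Q m)) (hφ : JEq R σ t c φ) :
    Tendsto (fun p : ℕ × ℂ => (jw R σ (Q p.1) p.2 - jw R σ (P p.1) p.2) *
      (κ p.1 * Complex.exp (a p.1 * p.2) * (a p.1)⁻¹) * jG R σ t P Q p)
      ((𝓤 : Filter ℕ) ×ˢ 𝓝 z) (𝓝 (γ * ((σ.m - 3 * t) * c -
        3 * jw R σ φ z * jv R σ (t + 1) φ z))) ∧
    (jv R σ (t + 1) φ z ≠ 0 → Tendsto (fun p : ℕ × ℂ => (jw R σ (Q p.1) p.2 -
      jw R σ (P p.1) p.2) * (κ p.1 * Complex.exp (a p.1 * p.2) * (a p.1)⁻¹))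
      ((𝓤 : Filter ℕ) ×ˢ 𝓝 z) (𝓝 (γ * ((σ.m - 3 * t) * c -
        3 * jw R σ φ z * jv R σ (t + 1) φ z) / jv R σ (t + 1) φ z))) := by
  obtain ⟨k1, k2⟩ := jt_lim R h hinf hgr hz hDx hDy t
  have h1 : Tendsto (fun p : ℕ × ℂ => (jw R σ (Q p.1) p.2 - jw R σ (P p.1) p.2) *
      (κ p.1 * Complex.exp (a p.1 * p.2) * (a p.1)⁻¹) * jG R σ t P Q p)
      ((𝓤 : Filter ℕ) ×ˢ 𝓝 z) (𝓝 (γ * ((σ.m - 3 * t) * c -
        3 * jw R σ φ z * jv R σ (t + 1) φ z))) := by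
    have k3 := k1.neg
    rw [hφ z hz] at k3
    have e1 : -(-γ * ((σ.m - 3 * t) * c - 3 * jw R σ φ z * jv R σ (t + 1) φ z)) =
        γ * ((σ.m - 3 * t) * c - 3 * jw R σ φ z * jv R σ (t + 1) φ z) := by ring
    rw [e1] at k3
    refine k3.congr' ?_
    filter_upwards [jgood_lim R h.lP hz, jgood_lim R h.lQ hz] with p m1 m2
    rw [hP p.1 p.2 m1, hQ p.1 p.2 m2]
    ring
  refine ⟨h1, fun hne => ?_⟩
  refine (h1.div k2 hne).congr' ?_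
  filter_upwards [k2.eventually_ne hne] with p m1
  rw [Pi.div_apply, mul_div_cancel_right₀ _ m1]

/-- **Expressions of which the derivative with respect to the Wronskian vanishes.** -/
theorem gam_zero (h : Dfo y 𝓤 φ P Q (fun m z => κ m * Complex.exp (a m * z)))
    (hinf : ∀ C : ℝ, ∀ᶠ m in (𝓤 : Filter ℕ), C ≤ ‖a m‖) {z : ℂ}
    (hgr : ∀ᶠ p : ℕ × ℂ in (𝓤 : Filter ℕ) ×ˢ 𝓝 z,
      Real.exp (‖a p.1‖ / 2) ≤ ‖κ p.1 * Complex.exp (a p.1 * p.2)‖)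
    {σ : JD K} {γ : ℂ} (hz : jgood R σ (φ z))
    (hDx : Dl R 𝓤 P Q (fun m z => κ m * Complex.exp (a m * z)) σ.x z =
      γ * deriv (fun w => ev R σ.x (φ w)) z)
    (hDy : Dl R 𝓤 P Q (fun m z => κ m * Complex.exp (a m * z)) σ.y z =
      γ * deriv (fun w => ev R σ.y (φ w)) z) {t : ℕ} {c : ℂ} (hc : c ≠ 0) (hm : 0 < σ.m)
    (hP0 : ∀ m, JEq R σ 0 c (P m)) (hQ0 : ∀ m, JEq R σ 0 c (Q m)) (hφ0 : JEq R σ 0 c φ)
    (hP : ∀ m, JEq R σ t 0 (P m)) (hQ : ∀ m, JEq R σ t 0 (Q m)) (hφ : JEq R σ t 0 φ)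
    (hne : jv R σ (t + 1) φ z ≠ 0) : γ = 0 := by
  have k1 := (jt_eq R h hinf hgr hz hDx hDy hP hQ hφ).2 hne
  have e1 : γ * ((σ.m - 3 * t) * 0 - 3 * jw R σ φ z * jv R σ (t + 1) φ z) /
      jv R σ (t + 1) φ z = -3 * γ * jw R σ φ z := by
    field_simp
    ring
  rw [e1] at k1
  obtain ⟨k2, -⟩ := jt_eq R h hinf hgr hz hDx hDy hP0 hQ0 hφ0
  have k3 := (jt_lim R h hinf hgr hz hDx hDy 0).2
  have k4 := tendsto_nhds_unique (k1.mul k3) k2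
  have k5 : γ * σ.m * c = 0 := by
    push_cast at k4
    linear_combination -k4
  rcases mul_eq_zero.1 k5 with k6 | k6
  · rcases mul_eq_zero.1 k6 with k7 | k7
    · exact k7
    · exact absurd (by exact_mod_cast k7 : σ.m = 0) hm.ne'
  · exact absurd k6 hc

end Pool.Agent.L7h90.JT
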