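import Pool.Agent.L7h90.JT.Gen

/-! Rapidly oscillating deformations: the normal component is locally bounded. -/

set_option autoImplicit false

open Filter Topology Set Metric MvPolynomial FF

namespace Pool.Agent.L7h90.JT

open Pool.Agent.N155 Pool.Agent.Y190.OP Pool.Agent.W602.GT Pool.Agent.TH143.GT
open Pool.Agent.L7h90.WR

variable {n : ℕ} {K : Type} [Field K] [Algebra ℂ K] {y : Fin (n + 1) → K}
  (R : ∀ h : K, Frac y h) {𝓤 : Ultrafilter ℕ} {φ : ℂ → Mat (n + 1)} {P Q : ℕ → ℂ → Mat (n + 1)}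
  {a κ : ℕ → ℂ}

/-- the Wronskian in the coordinates and the normal component -/
theorem key_nn (h : Dfo y 𝓤 φ P Q (fun m z => κ m * Complex.exp (a m * z)))
    (hinf : ∀ C : ℝ, ∀ᶠ m in (𝓤 : Filter ℕ), C ≤ ‖a m‖) {z : ℂ}
    (hgr : ∀ᶠ p : ℕ × ℂ in (𝓤 : Filter ℕ) ×ˢ 𝓝 z,
      Real.exp (‖a p.1‖ / 2) ≤ ‖κ p.1 * Complex.exp (a p.1 * p.2)‖)
    {σ : WDif K} {E : Fin 2 → Derivation ℂ K K} {i j k : Fin (n + 1)}
    (hi : y i ≠ 0) (hz : cgood R E σ i (φ z))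
    (hgj : good R (y j / y i) (φ z)) (hgk : good R (y k / y i) (φ z)) {γ : ℂ → ℂ}
    (hγ : AnalyticAt ℂ γ z)
    (hDj : ∀ᶠ w in 𝓝 z, Dl R 𝓤 P Q (fun m z => κ m * Complex.exp (a m * z)) (y j / y i) w =
      γ w * deriv (fun w => ev R (y j / y i) (φ w)) w)
    (hDk : ∀ᶠ w in 𝓝 z, Dl R 𝓤 P Q (fun m z => κ m * Complex.exp (a m * z)) (y k / y i) w =
      γ w * deriv (fun w => ev R (y k / y i) (φ w)) w) :
    Tendsto (fun p : ℕ × ℂ => (XE R E σ i j k (Q p.1) p.2 - XE R E σ i j k (P p.1) p.2) *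
      (κ p.1 * Complex.exp (a p.1 * p.2)) * (a p.1)⁻¹ -
      ev R (cJ E σ.u σ.v) (Q p.1 p.2) * (a p.1 *
        NN i j k P Q (fun m z => κ m * Complex.exp (a m * z)) p.1 p.2))
      ((𝓤 : Filter ℕ) ×ˢ 𝓝 z) (𝓝 (-3 * γ z * XE R E σ i j k φ z)) := by
  obtain ⟨l1, l2, l3, l4, l5⟩ := wt_lims hinf hgr
  have hzn : nz (X i) (φ z) := hz.2.2.2.2.2.2
  obtain ⟨da0, da1, dda, da2⟩ := dqq_two R h hi hgj hzn hγ hDj
  obtain ⟨db0, db1, ddb, db2⟩ := dqq_two R h hi hgk hzn hγ hDk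
  obtain ⟨pa0, pa1, pa2⟩ := qv_two (j := j) h.lP h.hP h.cv.hol hzn
  obtain ⟨pb0, pb1, pb2⟩ := qv_two (j := k) h.lP h.hP h.cv.hol hzn
  obtain ⟨qa0, qa1, qa2⟩ := qv_two (j := j) h.lQ h.hQ h.cv.hol hzn
  obtain ⟨qb0, qb1, qb2⟩ := qv_two (j := k) h.lQ h.hQ h.cv.hol hzn
  have hnP : ∀ᶠ p : ℕ × ℂ in (𝓤 : Filter ℕ) ×ˢ 𝓝 z, cgood R E σ i (P p.1 p.2) :=
    (h.lP z (mem_univ z)).eventually ((isOpen_cgood R E σ i).mem_nhds hz)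
  have hnQ : ∀ᶠ p : ℕ × ℂ in (𝓤 : Filter ℕ) ×ˢ 𝓝 z, cgood R E σ i (Q p.1 p.2) :=
    (h.lQ z (mem_univ z)).eventually ((isOpen_cgood R E σ i).mem_nhds hz)
  have hdq : ∀ l : Fin (n + 1), ∀ᶠ p : ℕ × ℂ in (𝓤 : Filter ℕ) ×ˢ 𝓝 z,
      (deriv (fun w => qv (X l) (X i) (Q p.1 w)) p.2 -
        deriv (fun w => qv (X l) (X i) (P p.1 w)) p.2) * (κ p.1 * Complex.exp (a p.1 * p.2)) =
        deriv (dqf (qv (X l) (X i)) P Q (fun m z => κ m * Complex.exp (a m * z)) p.1) p.2 -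
        a p.1 * dqf (qv (X l) (X i)) P Q (fun m z => κ m * Complex.exp (a m * z)) p.1 p.2 ∧
      (deriv (deriv fun w => qv (X l) (X i) (Q p.1 w)) p.2 -
        deriv (deriv fun w => qv (X l) (X i) (P p.1 w)) p.2) *
          (κ p.1 * Complex.exp (a p.1 * p.2)) =
        deriv (deriv (dqf (qv (X l) (X i)) P Q (fun m z => κ m * Complex.exp (a m * z)) p.1)) p.2 -
        2 * a p.1 *
          deriv (dqf (qv (X l) (X i)) P Q (fun m z => κ m * Complex.exp (a m * z)) p.1) p.2 +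
        a p.1 ^ 2 * dqf (qv (X l) (X i)) P Q (fun m z => κ m * Complex.exp (a m * z)) p.1 p.2 := by
    intro l
    filter_upwards [hnP, hnQ] with p k1 k2
    exact dq_derivs (an_qv (h.hP p.1) (mem_univ p.2) (isHomogeneous_X _ _) (isHomogeneous_X _ _)
      k1.2.2.2.2.2.2) (an_qv (h.hQ p.1) (mem_univ p.2) (isHomogeneous_X _ _)
      (isHomogeneous_X _ _) k2.2.2.2.2.2.2) (fun z => exp_der (κ p.1) (a p.1) z)
  obtain ⟨g1, g2, g3, g4, g5, g6, g7⟩ := hz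
  obtain ⟨rJ, -, -⟩ := dl_two R h g2
  obtain ⟨r0, -, -⟩ := dl_two R h g3
  obtain ⟨r1, -, -⟩ := dl_two R h g4
  obtain ⟨r2, -, -⟩ := dl_two R h g5
  obtain ⟨r3, -, -⟩ := dl_two R h g6
  have qJ := (ev_two R h.lQ h.hQ h.cv.hol g2).1
  have q0 := (ev_two R h.lQ h.hQ h.cv.hol g3).1
  have q1 := (ev_two R h.lQ h.hQ h.cv.hol g4).1
  have q2 := (ev_two R h.lQ h.hQ h.cv.hol g5).1
  have q3 := (ev_two R h.lQ h.hQ h.cv.hol g6).1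
  exact key_lim (F := (𝓤 : Filter ℕ) ×ˢ 𝓝 z) (α := fun p => a p.1)
    (w := fun p => κ p.1 * Complex.exp (a p.1 * p.2)) l1 l2 l3 l4 l5 pa1 qa1 pa2 pb1 qb1 pb2 qb2
    da0 da1 da2 db0 db1 db2 ((hdq j).mono fun _ h => h.1) ((hdq j).mono fun _ h => h.2)
    ((hdq k).mono fun _ h => h.1) ((hdq k).mono fun _ h => h.2) qJ q0 q1 q2 q3 rJ r0 r1 r2 r3
    (XP := fun p => XE R E σ i j k (P p.1) p.2) (XQ := fun p => XE R E σ i j k (Q p.1) p.2)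
    (fun p => rfl) (fun p => rfl)

/-- the Wronskian in the coordinates -/
theorem jw_eq (h : Cv y φ) {σ : JD K} {E : Fin 2 → Derivation ℂ K K} {i j k : Fin (n + 1)}
    (hi : y i ≠ 0) (hx : Dual ![y j / y i, y k / y i] E) {z : ℂ}
    (hz : cgood R E ⟨1, 1, σ.x, σ.y⟩ i (φ z)) (hz' : jgood R σ (φ z)) :
    jw R σ φ z = XE R E ⟨1, 1, σ.x, σ.y⟩ i j k φ z :=
  eq_of_codis (cw_eq_XX R h hi hx σ.x σ.y)
    (cw_an (h.an R hz'.2.1) (h.an R hz'.2.2)).continuousAt (XE_an R h j k hz).continuousAt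

/-- **The normal component.** -/
theorem jnn_lim (h : Dfo y 𝓤 φ P Q (fun m z => κ m * Complex.exp (a m * z)))
    (hinf : ∀ C : ℝ, ∀ᶠ m in (𝓤 : Filter ℕ), C ≤ ‖a m‖) {z : ℂ}
    (hgr : ∀ᶠ p : ℕ × ℂ in (𝓤 : Filter ℕ) ×ˢ 𝓝 z,
      Real.exp (‖a p.1‖ / 2) ≤ ‖κ p.1 * Complex.exp (a p.1 * p.2)‖)
    (cvP : ∀ m, Cv y (P m)) (cvQ : ∀ m, Cv y (Q m)) {σ : JD K} {c : ℂ}
    (hP : ∀ m, JEq R σ 0 c (P m)) (hQ : ∀ m, JEq R σ 0 c (Q m))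
    (hφ : JEq R σ 0 c φ) {E : Fin 2 → Derivation ℂ K K} {i j k : Fin (n + 1)}
    (hi : y i ≠ 0) (hx : Dual ![y j / y i, y k / y i] E)
    (hz : cgood R E ⟨1, 1, σ.x, σ.y⟩ i (φ z)) (hz' : jgood R σ (φ z))
    (hgj : good R (y j / y i) (φ z)) (hgk : good R (y k / y i) (φ z)) {γ : ℂ}
    (hδ : ∀ᶠ w in 𝓝 z, ∀ f ∈ ({y j / y i, y k / y i, σ.x, σ.y} : Set K),
      Dl R 𝓤 P Q (fun m z => κ m * Complex.exp (a m * z)) f w =
      γ * deriv (fun w => ev R f (φ w)) w)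
    (hJ : ev R (cJ E σ.x σ.y) (φ z) ≠ 0) (h1 : jv R σ 1 φ z ≠ 0) :
    Tendsto (fun p : ℕ × ℂ => a p.1 * NN i j k P Q (fun m z => κ m * Complex.exp (a m * z))
      p.1 p.2) ((𝓤 : Filter ℕ) ×ˢ 𝓝 z)
      (𝓝 (γ * σ.m * c / (jv R σ 1 φ z * ev R (cJ E σ.x σ.y) (φ z)))) := by
  have k1 := key_nn R h hinf hgr hi hz hgj hgk (γ := fun _ => γ) analyticAt_const
    (hδ.mono fun w hw => hw _ (by simp)) (hδ.mono fun w hw => hw _ (by simp))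
  have k2 := (jt_eq R h hinf hgr hz' (hδ.self_of_nhds _ (by simp)) (hδ.self_of_nhds _ (by simp))
    hP hQ hφ).2 h1
  have hnP : ∀ᶠ p : ℕ × ℂ in (𝓤 : Filter ℕ) ×ˢ 𝓝 z,
      cgood R E ⟨1, 1, σ.x, σ.y⟩ i (P p.1 p.2) :=
    (h.lP z (mem_univ z)).eventually ((isOpen_cgood R E _ i).mem_nhds hz)
  have hnQ : ∀ᶠ p : ℕ × ℂ in (𝓤 : Filter ℕ) ×ˢ 𝓝 z,
      cgood R E ⟨1, 1, σ.x, σ.y⟩ i (Q p.1 p.2) :=
    (h.lQ z (mem_univ z)).eventually ((isOpen_cgood R E _ i).mem_nhds hz)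
  have qJ := (ev_two R h.lQ h.hQ h.cv.hol hz.2.1).1
  have k3 := (k2.sub k1).div qJ hJ
  have e1 : (γ * ((σ.m - 3 * (0 : ℕ)) * c - 3 * jw R σ φ z * jv R σ (0 + 1) φ z) /
      jv R σ (0 + 1) φ z - -3 * γ * XE R E ⟨1, 1, σ.x, σ.y⟩ i j k φ z) /
      ev R (cJ E σ.x σ.y) (φ z) =
      γ * σ.m * c / (jv R σ 1 φ z * ev R (cJ E σ.x σ.y) (φ z)) := by
    rw [jw_eq R h.cv hi hx hz hz', zero_add]
    push_cast
    field_simp
    ring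
  rw [← e1]
  refine Tendsto.congr' ?_ k3
  filter_upwards [qJ.eventually_ne hJ, hnP, hnQ, jgood_lim R h.lP hz', jgood_lim R h.lQ hz']
    with p m1 m2 m3 m4 m5
  rw [Pi.div_apply, div_eq_iff m1, jw_eq R (cvP p.1) hi hx m2 m4, jw_eq R (cvQ p.1) hi hx m3 m5]
  ring

/-- the normal component is locally bounded -/
theorem jlam_bdd (h : Dfo y 𝓤 φ P Q (fun m z => κ m * Complex.exp (a m * z)))
    (hinf : ∀ C : ℝ, ∀ᶠ m in (𝓤 : Filter ℕ), C ≤ ‖a m‖)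
    (hgr : ∀ z, ∀ᶠ p : ℕ × ℂ in (𝓤 : Filter ℕ) ×ˢ 𝓝 z,
      Real.exp (‖a p.1‖ / 2) ≤ ‖κ p.1 * Complex.exp (a p.1 * p.2)‖)
    (cvP : ∀ m, Cv y (P m)) (cvQ : ∀ m, Cv y (Q m)) {σ : JD K} {c : ℂ}
    (hP : ∀ m, JEq R σ 0 c (P m)) (hQ : ∀ m, JEq R σ 0 c (Q m))
    (hφ : JEq R σ 0 c φ) {E : Fin 2 → Derivation ℂ K K} {i j k : Fin (n + 1)}
    (hi : y i ≠ 0) (hx : Dual ![y j / y i, y k / y i] E) {γ : ℂ}
    (hδ : ∀ k, h.del R k = algebraMap ℂ MK γ * MD (h.cv.emb R k))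
    (h1 : ∀ᶠ z in codiscrete ℂ, jv R σ 1 φ z ≠ 0) {z0 : ℂ} (hz0 : nz (X i) (φ z0)) :
    ∃ C : ℝ, ∀ᶠ z in 𝓝[≠] z0,
      ‖γ * σ.m * c / (jv R σ 1 φ z * ev R (cJ E σ.x σ.y) (φ z))‖ ≤ C := by
  have hγ : ∀ f : K, ∀ᶠ z in codiscrete ℂ,
      Dl R 𝓤 P Q (fun m z => κ m * Complex.exp (a m * z)) f z =
        γ * deriv (fun w => ev R f (φ w)) z := fun f =>
    mul_codis R h (γ := fun _ => γ) (hγ := Meromorphic.const γ) (fun k => by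
      rw [cl_const]
      exact hδ k) f
  have hJ : cJ E σ.x σ.y ≠ 0 := cJ_ne hx σ.alg
  set G : Set ℂ := {z | cgood R E ⟨1, 1, σ.x, σ.y⟩ i (φ z) ∧ jgood R σ (φ z) ∧
    good R (y j / y i) (φ z) ∧ good R (y k / y i) (φ z) ∧
    (∀ f ∈ ({y j / y i, y k / y i, σ.x, σ.y} : Set K),
      Dl R 𝓤 P Q (fun m z => κ m * Complex.exp (a m * z)) f z =
      γ * deriv (fun w => ev R f (φ w)) z) ∧
    ev R (cJ E σ.x σ.y) (φ z) ≠ 0 ∧ jv R σ 1 φ z ≠ 0} with hG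
  have hGc : G ∈ codiscrete ℂ := by
    filter_upwards [cgood_codis R h.cv E ⟨1, 1, σ.x, σ.y⟩ hi, jgood_codis R h.cv σ,
      h.cv.good R (y j / y i), h.cv.good R (y k / y i), hγ (y j / y i), hγ (y k / y i), hγ σ.x,
      hγ σ.y, ev_ne_codis R h.cv hJ, h1] with z k1 k2 k3 k4 k5 k6 k7 k8 k9 k10
    refine ⟨k1, k2, k3, k4, ?_, k9, k10⟩
    rintro f (rfl | rfl | rfl | rfl)
    · exact k5
    · exact k6
    · exact k7
    · exact k8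
  have hlim : ∀ z ∈ G, Tendsto (fun p : ℕ × ℂ => a p.1 *
      NN i j k P Q (fun m z => κ m * Complex.exp (a m * z)) p.1 p.2) ((𝓤 : Filter ℕ) ×ˢ 𝓝 z)
      (𝓝 (γ * σ.m * c / (jv R σ 1 φ z * ev R (cJ E σ.x σ.y) (φ z)))) := by
    intro z hz
    have hzn := codis_nhds hGc hz
    obtain ⟨k1, k2, k3, k4, -, k6, k7⟩ := hz
    exact jnn_lim R h hinf (hgr z) cvP cvQ hP hQ hφ hi hx k1 k2 k3 k4
      (by filter_upwards [hzn] with w hw using hw.2.2.2.2.1) k6 k7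
  have hU : IsOpen {w | nz (X i) (φ w)} := (isOpen_nz _).preimage h.cont
  have h1' : ∀ᶠ z in 𝓝 z0, z ∈ ({z0} : Set ℂ)ᶜ → z ∈ G :=
    eventually_nhdsWithin_iff.1 (codis_punct hGc z0)
  obtain ⟨ε, hε, hsub⟩ := Metric.mem_nhds_iff.1 (inter_mem h1' (hU.mem_nhds hz0))
  have hρ : 0 < ε / 2 := by positivity
  have hcl : ∀ z ∈ closedBall z0 (ε / 2), (z ≠ z0 → z ∈ G) ∧ nz (X i) (φ z) := by
    intro z hz
    have h2 := hsub (closedBall_subset_ball (by linarith) hz)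
    exact ⟨fun hne => h2.1 hne, h2.2⟩
  obtain ⟨C, hC⟩ := seq_max (l := (𝓤 : Filter ℕ)) (F := fun m z => a m *
      NN i j k P Q (fun m z => κ m * Complex.exp (a m * z)) m z) hρ (by
    intro z hz
    have hzG : z ∈ G := (hcl z (sphere_subset_closedBall hz)).1 (ne_of_mem_sphere hz hρ.ne')
    have h3 := (hlim z hzG).norm.eventually_lt_const (lt_add_one _)
    rw [eventually_prod_iff] at h3
    obtain ⟨pa, hpa, pb, hpb, hab⟩ := h3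
    refine ⟨{w | pb w}, hpb,
      ‖γ * σ.m * c / (jv R σ 1 φ z * ev R (cJ E σ.x σ.y) (φ z))‖ + 1, ?_⟩
    filter_upwards [hpa] with m hm w hw
    exact (hab hm hw).le) (by
    intro z hz
    obtain ⟨V, hV, hd⟩ := diff_NN h i j k (hcl z hz).2
    refine ⟨V, hV, ?_⟩
    filter_upwards [hd] with m hm
    exact hm.const_mul _)
  refine ⟨C, ?_⟩
  have h4 : ∀ᶠ z in 𝓝[≠] z0, z ∈ closedBall z0 (ε / 2) :=
    nhdsWithin_le_nhds (closedBall_mem_nhds z0 hρ)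
  filter_upwards [h4, self_mem_nhdsWithin] with z hz hne
  have h5 := at_z (hlim z ((hcl z hz).1 hne))
  refine le_of_tendsto h5.norm ?_
  filter_upwards [hC] with m hm
  exact hm z hz

end Pool.Agent.L7h90.JT
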