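import Pool.Agent.L7h90.JT.Crv
import Pool.Agent.L7h90.WR.Lin

/-! The linearised equation of an invariant differential expression. -/

set_option autoImplicit false

open Filter Topology Set Metric MvPolynomial FF

namespace Pool.Agent.L7h90.JT

open Pool.Agent.N155 Pool.Agent.Y190.OP Pool.Agent.W602.GT Pool.Agent.TH143.GT
open Pool.Agent.L7h90.WR

variable {n : ℕ} {K : Type} [Field K] [Algebra ℂ K] {y : Fin (n + 1) → K}
  (R : ∀ h : K, Frac y h) {𝓤 : Ultrafilter ℕ} {φ : ℂ → Mat (n + 1)} {P Q : ℕ → ℂ → Mat (n + 1)}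
  {wt : ℕ → ℂ → ℂ}

/-- **The linearised equation.** -/
theorem jls (h : Dfo y 𝓤 φ P Q wt) {a : ℕ → ℂ} {α : ℂ}
    (hwt : ∀ m z, HasDerivAt (wt m) (a m * wt m z) z) (ha : Tendsto a 𝓤 (𝓝 α)) {σ : JD K}
    {c : ℂ} (hc : c ≠ 0) (hm : 0 < σ.m) (hP : ∀ m, JEq R σ 0 c (P m))
    (hQ : ∀ m, JEq R σ 0 c (Q m))
    (hφ : JEq R σ 0 c φ) {g : MK} (hδ : ∀ k, h.del R k = g * MD (h.cv.emb R k)) :
    MD g = algebraMap ℂ MK α * g := by
  obtain ⟨γ, hγ, rfl⟩ := cl_surj g
  rw [MD_cl, ← cl_const, cl_mul, cl_eq]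
  have hk : ∀ k : K, ∀ᶠ z in codiscrete ℂ, Dl R 𝓤 P Q wt k z =
      γ z * deriv (fun w => ev R k (φ w)) z := by
    intro k
    have := hδ k
    unfold Dfo.del at this
    rw [Cv.emb_apply, MD_cl, cl_mul, cl_eq] at this
    exact this
  have hks : ∀ᶠ z in codiscrete ℂ, ∀ s ∈ σ.p.support, Dl R 𝓤 P Q wt (σ.p.coeff s) z =
      γ z * deriv (fun w => ev R (σ.p.coeff s) (φ w)) z := by
    rw [Filter.eventually_all_finset]
    exact fun s _ => hk _
  have hW : ∀ᶠ z in codiscrete ℂ, AnalyticAt ℂ γ z ∧ jgood R σ (φ z) ∧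
      (∀ s ∈ σ.p.support, Dl R 𝓤 P Q wt (σ.p.coeff s) z =
        γ z * deriv (fun w => ev R (σ.p.coeff s) (φ w)) z) ∧
      Dl R 𝓤 P Q wt σ.x z = γ z * deriv (fun w => ev R σ.x (φ w)) z ∧
      Dl R 𝓤 P Q wt σ.y z = γ z * deriv (fun w => ev R σ.y (φ w)) z := by
    filter_upwards [mero_an hγ, jgood_codis R h.cv σ, hks, hk σ.x, hk σ.y]
      with z k1 k2 k3 k4 k5 using ⟨k1, k2, k3, k4, k5⟩
  filter_upwards [hW] with z hz
  have hzn := codis_nhds hW hz
  obtain ⟨hz1, hz2, hz3, -, -⟩ := hz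
  rw [Pi.mul_apply]
  set A : ℂ := deriv γ z - α * γ z with hA
  set B : ℂ := γ z with hB
  have hhj : ∀ s : σ.p.support, DQ 𝓤 (fun m => wt m z) z A B
      (fun m => ((s.1 2).descFactorial 0 : ℂ) * ev R (σ.p.coeff s.1) (P m z))
      (fun m => ((s.1 2).descFactorial 0 : ℂ) * ev R (σ.p.coeff s.1) (Q m z))
      (fun w => ((s.1 2).descFactorial 0 : ℂ) * ev R (σ.p.coeff s.1) (φ w)) 0 := by
    intro s
    have hg : good R (σ.p.coeff s.1) (φ z) := hz2.1 s.1 s.2
    have hct : ContinuousAt (ev R (σ.p.coeff s.1)) (φ z) := continuousAt_qv hg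
    refine ⟨_, ((h.cv.an R hg).differentiableAt.hasDerivAt).const_mul _,
      (hct.tendsto.comp (h.lP.pointwise (mem_univ z))).const_mul _,
      (hct.tendsto.comp (h.lQ.pointwise (mem_univ z))).const_mul _, ?_⟩
    have h1 := (h.tendsto R hg).const_mul ((s.1 2).descFactorial 0 : ℂ)
    rw [hz3 s.1 s.2] at h1
    have e1 : ((s.1 2).descFactorial 0 : ℂ) * (γ z *
        deriv (fun w => ev R (σ.p.coeff s.1) (φ w)) z) =
        ((0 : ℕ) : ℂ) * A * (((s.1 2).descFactorial 0 : ℂ) * ev R (σ.p.coeff s.1) (φ z)) +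
          B * (((s.1 2).descFactorial 0 : ℂ) *
            deriv (fun w => ev R (σ.p.coeff s.1) (φ w)) z) := by
      rw [hB, Nat.cast_zero]
      ring
    rw [e1] at h1
    refine h1.congr fun m => ?_
    unfold dqf
    ring
  -- the derivatives of `x` and `y`
  have hf : ∀ f : K, good R f (φ z) → (∀ᶠ w in 𝓝 z, Dl R 𝓤 P Q wt f w =
      γ w * deriv (fun w => ev R f (φ w)) w) →
      Tendsto (fun m => (deriv (fun w => ev R f (Q m w)) z - deriv (fun w => ev R f (P m w)) z) *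
        wt m z) 𝓤 (𝓝 (A * deriv (fun w => ev R f (φ w)) z +
          B * deriv (deriv fun w => ev R f (φ w)) z)) ∧
      Tendsto (fun m => (deriv (deriv fun w => ev R f (Q m w)) z -
        deriv (deriv fun w => ev R f (P m w)) z) * wt m z) 𝓤
        (𝓝 ((deriv (deriv γ) z - 2 * α * deriv γ z + α ^ 2 * γ z) *
          deriv (fun w => ev R f (φ w)) z + 2 * A * deriv (deriv fun w => ev R f (φ w)) z +
          B * deriv (deriv (deriv fun w => ev R f (φ w))) z)) := by
    intro f hg hD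
    obtain ⟨d0, d1, d2⟩ := dl_two R h hg
    have d0' := at_z d0
    have d1' := at_z d1
    have d2' := at_z d2
    have han := h.cv.an R hg
    set f1 := deriv fun w => ev R f (φ w) with hf1
    have e0 : Dl R 𝓤 P Q wt f z = γ z * f1 z := hD.self_of_nhds
    have e1 : ∀ w, AnalyticAt ℂ γ w → AnalyticAt ℂ f1 w →
        deriv (fun w => γ w * f1 w) w = deriv γ w * f1 w + γ w * deriv f1 w := fun w k1 k2 =>
      (k1.differentiableAt.hasDerivAt.mul k2.differentiableAt.hasDerivAt).deriv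
    have hD1 : deriv (Dl R 𝓤 P Q wt f) =ᶠ[𝓝 z] fun w => deriv γ w * f1 w + γ w * deriv f1 w := by
      filter_upwards [hD.eventually_nhds, hz1.eventually_analyticAt,
        han.deriv.eventually_analyticAt] with w k1 k2 k3
      rw [(show Dl R 𝓤 P Q wt f =ᶠ[𝓝 w] fun w => γ w * f1 w from k1).deriv_eq]
      exact e1 w k2 k3
    have e2 : deriv (Dl R 𝓤 P Q wt f) z = deriv γ z * f1 z + γ z * deriv f1 z := hD1.self_of_nhds
    have e3 : deriv (deriv (Dl R 𝓤 P Q wt f)) z = deriv (deriv γ) z * f1 z +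
        2 * deriv γ z * deriv f1 z + γ z * deriv (deriv f1) z := by
      rw [hD1.deriv_eq]
      have k1 := (hz1.deriv.differentiableAt.hasDerivAt.mul
        han.deriv.differentiableAt.hasDerivAt).add (hz1.differentiableAt.hasDerivAt.mul
        han.deriv.deriv.differentiableAt.hasDerivAt)
      refine k1.deriv.trans ?_
      ring
    rw [e0] at d0'
    rw [e2] at d1'
    rw [e3] at d2'
    have hev : ∀ᶠ m in (𝓤 : Filter ℕ),
        AnalyticAt ℂ (fun w => ev R f (P m w)) z ∧ AnalyticAt ℂ (fun w => ev R f (Q m w)) z := by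
      obtain ⟨V, hV, hzV, hm⟩ := h.ev_good R hg
      filter_upwards [hm] with m hm
      exact ⟨an_qv (h.hP m) (mem_univ z) (R f).h1 (R f).h0 (hm z hzV).1,
        an_qv (h.hQ m) (mem_univ z) (R f).h1 (R f).h0 (hm z hzV).2⟩
    constructor
    · have k1 := d1'.sub (ha.mul d0')
      have k2 : deriv γ z * f1 z + γ z * deriv f1 z - α * (γ z * f1 z) =
          A * f1 z + B * deriv f1 z := by
        rw [hA, hB]
        ring
      rw [k2] at k1
      refine k1.congr' ?_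
      filter_upwards [hev] with m hm
      exact (dq_derivs hm.1 hm.2 (hwt m)).1.symm
    · have k1 := (d2'.sub ((ha.const_mul 2).mul d1')).add ((ha.pow 2).mul d0')
      have k2 : deriv (deriv γ) z * f1 z + 2 * deriv γ z * deriv f1 z + γ z * deriv (deriv f1) z -
          2 * α * (deriv γ z * f1 z + γ z * deriv f1 z) + α ^ 2 * (γ z * f1 z) =
          (deriv (deriv γ) z - 2 * α * deriv γ z + α ^ 2 * γ z) * f1 z + 2 * A * deriv f1 z +
            B * deriv (deriv f1) z := by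
        rw [hA, hB]
        ring
      rw [k2] at k1
      refine k1.congr' ?_
      filter_upwards [hev] with m hm
      exact (dq_derivs hm.1 hm.2 (hwt m)).2.symm
  obtain ⟨u1, u2⟩ := hf σ.x hz2.2.1 (by filter_upwards [hzn] with w hw using hw.2.2.2.1)
  obtain ⟨v1, v2⟩ := hf σ.y hz2.2.2 (by filter_upwards [hzn] with w hw using hw.2.2.2.2)
  obtain ⟨-, pu1, pu2⟩ := ev_two R h.lP h.hP h.cv.hol hz2.2.1
  obtain ⟨-, pv1, pv2⟩ := ev_two R h.lP h.hP h.cv.hol hz2.2.2
  obtain ⟨-, qu1, qu2⟩ := ev_two R h.lQ h.hQ h.cv.hol hz2.2.1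
  obtain ⟨-, qv1, qv2⟩ := ev_two R h.lQ h.hQ h.cv.hol hz2.2.2
  have hau := h.cv.an R hz2.2.1
  have hav := h.cv.an R hz2.2.2
  have hX1' : DQ 𝓤 (fun m => wt m z) z A B (fun m => deriv (fun w => ev R σ.x (P m w)) z)
      (fun m => deriv (fun w => ev R σ.x (Q m w)) z) (deriv fun w => ev R σ.x (φ w)) 1 := by
    refine ⟨_, hau.deriv.differentiableAt.hasDerivAt, at_z pu1, at_z qu1, ?_⟩
    rw [Nat.cast_one, one_mul]
    exact u1
  have hY1' : DQ 𝓤 (fun m => wt m z) z A B (fun m => deriv (fun w => ev R σ.y (P m w)) z)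
      (fun m => deriv (fun w => ev R σ.y (Q m w)) z) (deriv fun w => ev R σ.y (φ w)) 1 := by
    refine ⟨_, hav.deriv.differentiableAt.hasDerivAt, at_z pv1, at_z qv1, ?_⟩
    rw [Nat.cast_one, one_mul]
    exact v1
  have hW3 : DQ 𝓤 (fun m => wt m z) z A B
      (fun m => cw (fun w => ev R σ.x (P m w)) (fun w => ev R σ.y (P m w)) z)
      (fun m => cw (fun w => ev R σ.x (Q m w)) (fun w => ev R σ.y (Q m w)) z)
      (cw (fun w => ev R σ.x (φ w)) (fun w => ev R σ.y (φ w))) 3 := by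
    set U1 := deriv fun w => ev R σ.x (φ w) with hU1
    set V1 := deriv fun w => ev R σ.y (φ w) with hV1
    refine ⟨U1 z * deriv (deriv V1) z - deriv (deriv U1) z * V1 z, ?_, ?_, ?_, ?_⟩
    · have k1 := (hau.deriv.differentiableAt.hasDerivAt.mul
        hav.deriv.deriv.differentiableAt.hasDerivAt).sub
        (hau.deriv.deriv.differentiableAt.hasDerivAt.mul hav.deriv.differentiableAt.hasDerivAt)
      refine k1.congr_deriv ?_
      ring
    · exact ((at_z pu1).mul (at_z pv2)).sub ((at_z pu2).mul (at_z pv1))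
    · exact ((at_z qu1).mul (at_z qv2)).sub ((at_z qu2).mul (at_z qv1))
    · have k1 := ((u1.mul (at_z qv2)).add ((at_z pu1).mul v2)).sub
        ((u2.mul (at_z qv1)).add ((at_z pu2).mul v1))
      have k2 : (A * U1 z + B * deriv U1 z) * deriv V1 z +
          U1 z * ((deriv (deriv γ) z - 2 * α * deriv γ z + α ^ 2 * γ z) * V1 z +
            2 * A * deriv V1 z + B * deriv (deriv V1) z) -
          (((deriv (deriv γ) z - 2 * α * deriv γ z + α ^ 2 * γ z) * U1 z +
            2 * A * deriv U1 z + B * deriv (deriv U1) z) * V1 z +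
            deriv U1 z * (A * V1 z + B * deriv V1 z)) =
          ((3 : ℕ) : ℂ) * A * cw (fun w => ev R σ.x (φ w)) (fun w => ev R σ.y (φ w)) z +
            B * (U1 z * deriv (deriv V1) z - deriv (deriv U1) z * V1 z) := by
        unfold cw
        rw [← hU1, ← hV1]
        push_cast
        ring
      rw [k2] at k1
      refine k1.congr fun m => ?_
      unfold cw
      ring
  have hterm : ∀ s : σ.p.support, DQ 𝓤 (fun m => wt m z) z A B
      (fun m => ((s.1 2).descFactorial 0 : ℂ) * ev R (σ.p.coeff s.1) (P m z) *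
        deriv (fun w => ev R σ.x (P m w)) z ^ s.1 0 * deriv (fun w => ev R σ.y (P m w)) z ^ s.1 1 *
        cw (fun w => ev R σ.x (P m w)) (fun w => ev R σ.y (P m w)) z ^ (s.1 2 - 0))
      (fun m => ((s.1 2).descFactorial 0 : ℂ) * ev R (σ.p.coeff s.1) (Q m z) *
        deriv (fun w => ev R σ.x (Q m w)) z ^ s.1 0 * deriv (fun w => ev R σ.y (Q m w)) z ^ s.1 1 *
        cw (fun w => ev R σ.x (Q m w)) (fun w => ev R σ.y (Q m w)) z ^ (s.1 2 - 0))
      (fun z => ((s.1 2).descFactorial 0 : ℂ) * ev R (σ.p.coeff s.1) (φ z) *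
        deriv (fun w => ev R σ.x (φ w)) z ^ s.1 0 * deriv (fun w => ev R σ.y (φ w)) z ^ s.1 1 *
        cw (fun w => ev R σ.x (φ w)) (fun w => ev R σ.y (φ w)) z ^ (s.1 2 - 0)) σ.m := by
    intro s
    have k1 := (((hhj s).mul (DQ.pow' hX1' (s.1 0))).mul (DQ.pow' hY1' (s.1 1))).mul
      (DQ.pow' hW3 (s.1 2 - 0))
    have k2 : 0 + s.1 0 * 1 + s.1 1 * 1 + (s.1 2 - 0) * 3 = σ.m := by
      have := σ.hom s.1 s.2
      omega
    rw [k2] at k1
    exact k1
  have hall := DQ.sum Finset.univ hterm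
  obtain ⟨X1, k1, -, -, k4⟩ := hall
  have hsum : ∀ (ψ : ℂ → Mat (n + 1)) (z : ℂ), ∑ s : σ.p.support,
      (((s.1 2).descFactorial 0 : ℂ) * ev R (σ.p.coeff s.1) (ψ z) *
        deriv (fun w => ev R σ.x (ψ w)) z ^ s.1 0 * deriv (fun w => ev R σ.y (ψ w)) z ^ s.1 1 *
        cw (fun w => ev R σ.x (ψ w)) (fun w => ev R σ.y (ψ w)) z ^ (s.1 2 - 0)) =
      jv R σ 0 ψ z := by
    intro ψ z
    unfold jv
    exact Finset.sum_coe_sort σ.p.support (fun s =>
      (((s 2).descFactorial 0 : ℂ) * ev R (σ.p.coeff s) (ψ z) *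
        deriv (fun w => ev R σ.x (ψ w)) z ^ s 0 * deriv (fun w => ev R σ.y (ψ w)) z ^ s 1 *
        cw (fun w => ev R σ.x (ψ w)) (fun w => ev R σ.y (ψ w)) z ^ (s 2 - 0)))
  have hXc : (fun w => jv R σ 0 φ w) =ᶠ[𝓝 z] fun _ => c := by
    filter_upwards [hzn] with w hw
    exact hφ w hw.2.1
  simp only [hsum] at k1 k4
  have hX1 : X1 = 0 := k1.unique ((hasDerivAt_const z c).congr_of_eventuallyEq hXc)
  rw [hX1, mul_zero, add_zero, hφ z hz2] at k4
  have hev : ∀ᶠ m in (𝓤 : Filter ℕ), jgood R σ (P m z) ∧ jgood R σ (Q m z) := by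
    have hn := (isOpen_jgood R σ).mem_nhds hz2
    exact ((h.lP.pointwise (mem_univ z)).eventually hn).and
      ((h.lQ.pointwise (mem_univ z)).eventually hn)
  have k5 : Tendsto (fun _ : ℕ => (0 : ℂ)) 𝓤 (𝓝 ((σ.m : ℂ) * A * c)) := by
    refine k4.congr' ?_
    filter_upwards [hev] with m hm
    rw [hP m z hm.1, hQ m z hm.2, sub_self, zero_mul]
  have k6 := tendsto_nhds_unique k5 tendsto_const_nhds
  have k7 : A = 0 := by
    rcases mul_eq_zero.1 k6 with k8 | k8
    · rcases mul_eq_zero.1 k8 with k9 | k9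
      · exact absurd (by exact_mod_cast k9 : σ.m = 0) hm.ne'
      · exact k9
    · exact absurd k8 hc
  exact sub_eq_zero.1 k7

end Pool.Agent.L7h90.JT
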