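import Pool.Agent.L7h90.JT.Crv

/-! The coefficients of a regular invariant differential expression in local coordinates. -/

set_option autoImplicit false

open Filter Topology Set Metric MvPolynomial FF

namespace Pool.Agent.L7h90.JT

open Pool.Agent.N155 Pool.Agent.Y190.OP Pool.Agent.W602.GT Pool.Agent.TH143.GT
open Pool.Agent.L7h90.WR
open Pool.Agent.W603.LV (Ge)

variable {K : Type} [Field K] [Algebra ℂ K] {v : Place ℂ K}

/-! ### polynomials with regular coefficients -/

/-- all coefficients are regular -/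
def PR (v : Place ℂ K) (q : Polynomial K) : Prop := ∀ n, Ge v 0 (q.coeff n)

theorem PR.add {p q : Polynomial K} (hp : PR v p) (hq : PR v q) : PR v (p + q) := fun n => by
  rw [Polynomial.coeff_add]
  exact (hp n).add (hq n)

theorem PR.mul {p q : Polynomial K} (hp : PR v p) (hq : PR v q) : PR v (p * q) := fun n => by
  rw [Polynomial.coeff_mul]
  refine Ge.sum _ _ fun x _ => ?_
  have := (hp x.1).mul (hq x.2)
  rwa [add_zero] at this

theorem PR.zero : PR v 0 := fun n => by
  rw [Polynomial.coeff_zero]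
  exact Ge.zero

theorem PR.C {a : K} (ha : Ge v 0 a) : PR v (Polynomial.C a) := fun n => by
  rw [Polynomial.coeff_C]
  split_ifs
  · exact ha
  · exact Ge.zero

theorem PR.X : PR v (Polynomial.X : Polynomial K) := fun n => by
  rw [Polynomial.coeff_X]
  split_ifs
  · exact Ge.one
  · exact Ge.zero

theorem PR.one : PR v 1 := by
  rw [← Polynomial.C_1]
  exact PR.C Ge.one

theorem PR.pow {p : Polynomial K} (hp : PR v p) (N : ℕ) : PR v (p ^ N) := by
  induction N with
  | zero =>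
    rw [pow_zero]
    exact PR.one
  | succ N ih =>
    rw [pow_succ]
    exact ih.mul hp

theorem PR.sum {ι : Type} (s : Finset ι) {f : ι → Polynomial K} (h : ∀ i ∈ s, PR v (f i)) :
    PR v (∑ i ∈ s, f i) :=
  Finset.sum_induction f (PR v) (fun _ _ => PR.add) PR.zero h

theorem PR.prod {ι : Type} (s : Finset ι) {f : ι → Polynomial K} (h : ∀ i ∈ s, PR v (f i)) :
    PR v (∏ i ∈ s, f i) :=
  Finset.prod_induction f (PR v) (fun _ _ => PR.mul) PR.one h

theorem PR.comp {p q : Polynomial K} (hp : PR v p) (hq : PR v q) : PR v (p.comp q) := by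
  rw [Polynomial.comp_eq_sum_left, Polynomial.sum_def]
  exact PR.sum _ fun n _ => (PR.C (hp n)).mul (hq.pow n)

/-- a polynomial with regular values at the natural numbers has regular coefficients -/
theorem PR.of_eval {q : Polynomial K} (h : ∀ t : ℕ, Ge v 0 (q.eval (t : K))) : PR v q := by
  classical
  have hch : CharZero K := charZero_of_injective_algebraMap (algebraMap ℂ K).injective
  have hinj : Set.InjOn (fun i : ℕ => (i : K)) (Finset.range (q.natDegree + 1)) :=
    fun a _ b _ h => Nat.cast_injective h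
  have hq : q.degree < (Finset.range (q.natDegree + 1)).card := by
    rw [Finset.card_range]
    exact Polynomial.degree_le_natDegree.trans_lt (by exact_mod_cast Nat.lt_succ_self _)
  rw [Lagrange.eq_interpolate hinj hq, Lagrange.interpolate_apply]
  refine PR.sum _ fun i _ => (PR.C (h i)).mul ?_
  unfold Lagrange.basis
  refine PR.prod _ fun j _ => ?_
  unfold Lagrange.basisDivisor
  have h1 : ((i : K) - (j : K))⁻¹ = algebraMap ℂ K (((i : ℂ) - (j : ℂ))⁻¹) := by
    rw [map_inv₀, map_sub, map_natCast, map_natCast]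
  refine (PR.C ?_).mul ?_
  · rw [h1]
    exact Ge.const _
  · rw [sub_eq_add_neg, ← Polynomial.C_neg]
    exact PR.X.add (PR.C (Ge.natCast j).neg)

theorem weight_three (μ : Fin 3 →₀ ℕ) :
    Finsupp.weight (![1, 1, 3] : Fin 3 → ℕ) μ = μ 0 + μ 1 + 3 * μ 2 := by
  rw [Finsupp.weight_apply, Finsupp.sum_fintype _ _ (by simp), Fin.sum_univ_three]
  simp only [smul_eq_mul, Matrix.cons_val_zero, Matrix.cons_val_one, Matrix.cons_val]
  ring

/-- **A quasihomogeneous polynomial with regular values has regular coefficients.** -/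
theorem reg_of_values {p : MvPolynomial (Fin 3) K} {m : ℕ}
    (hp : IsWeightedHomogeneous (![1, 1, 3] : Fin 3 → ℕ) p m) {a : K} (ha : Ge v 0 a)
    (h : ∀ t r : ℕ, Ge v 0 (eval ![1, (t : K) + r * a, (r : K)] p)) (μ : Fin 3 →₀ ℕ) :
    Ge v 0 (p.coeff μ) := by
  classical
  by_cases hμ : μ ∈ p.support
  swap
  · rw [notMem_support_iff.1 hμ]
    exact Ge.zero
  have hev : ∀ t r : ℕ, eval ![1, (t : K) + r * a, (r : K)] p =
      ∑ d ∈ p.support, p.coeff d * (((t : K) + r * a) ^ d 1 * (r : K) ^ d 2) := by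
    intro t r
    rw [eval_eq']
    refine Finset.sum_congr rfl fun d _ => ?_
    rw [Fin.prod_univ_three]
    simp
  -- the first step
  set q : ℕ → Polynomial K := fun r => ∑ d ∈ p.support,
    Polynomial.C (p.coeff d * (r : K) ^ d 2) * Polynomial.X ^ d 1 with hq
  have h1 : ∀ r : ℕ, PR v (q r) := by
    intro r
    have h2 : PR v ((q r).comp (Polynomial.X + Polynomial.C ((r : K) * a))) := by
      refine PR.of_eval fun t => ?_
      have h3 := h t r
      rw [hev] at h3
      rw [Polynomial.eval_comp, hq]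
      simp only [Polynomial.eval_finsetSum, Polynomial.eval_mul, Polynomial.eval_pow,
        Polynomial.eval_C, Polynomial.eval_X, Polynomial.eval_add]
      convert h3 using 1
      refine Finset.sum_congr rfl fun d _ => ?_
      ring
    have h4 := h2.comp (q := Polynomial.X + Polynomial.C (-((r : K) * a)))
      (PR.X.add (PR.C (by
        have := ((Ge.natCast (P := v) r).mul ha).neg
        rwa [add_zero] at this)))
    rw [Polynomial.comp_assoc] at h4
    have h5 : (Polynomial.X + Polynomial.C ((r : K) * a)).comp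
        (Polynomial.X + Polynomial.C (-((r : K) * a))) = (Polynomial.X : Polynomial K) := by
      simp
    rwa [h5, Polynomial.comp_X] at h4
  -- the second step
  set g : Polynomial K := ∑ d ∈ p.support,
    if d 1 = μ 1 then Polynomial.C (p.coeff d) * Polynomial.X ^ d 2 else 0 with hg
  have h2 : PR v g := by
    refine PR.of_eval fun r => ?_
    have h3 := h1 r (μ 1)
    rw [hq] at h3
    simp only [Polynomial.finsetSum_coeff, Polynomial.coeff_C_mul_X_pow] at h3
    rw [hg, Polynomial.eval_finsetSum]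
    convert h3 using 1
    refine Finset.sum_congr rfl fun d _ => ?_
    by_cases hd : d 1 = μ 1
    · rw [if_pos hd, if_pos hd.symm]
      simp
    · rw [if_neg hd, if_neg fun h => hd h.symm]
      simp
  have h3 := h2 (μ 2)
  rw [hg, Polynomial.finsetSum_coeff, Finset.sum_eq_single μ] at h3
  · rw [if_pos rfl, Polynomial.coeff_C_mul_X_pow, if_pos rfl] at h3
    exact h3
  · intro d hd hne
    by_cases hd1 : d 1 = μ 1
    · rw [if_pos hd1, Polynomial.coeff_C_mul_X_pow, if_neg]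
      intro hd2
      apply hne
      have e1 := hp (mem_support_iff.1 hd)
      have e2 := hp (mem_support_iff.1 hμ)
      rw [weight_three] at e1 e2
      ext i
      fin_cases i
      · change d 0 = μ 0
        omega
      · exact hd1
      · exact hd2.symm
    · rw [if_neg hd1, Polynomial.coeff_zero]
  · intro h4
    exact absurd hμ h4

/-! ### local coordinates -/

/-- the expression in local coordinates -/
noncomputable def JD.loc (σ : JD K) (E : Fin 2 → Derivation ℂ K K) : MvPolynomial (Fin 3) K :=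
  ∑ s ∈ σ.p.support, C (σ.p.coeff s) * (C (E 0 σ.x) * X 0 + C (E 1 σ.x) * X 1) ^ s 0 *
    (C (E 0 σ.y) * X 0 + C (E 1 σ.y) * X 1) ^ s 1 *
    (C (cJ E σ.x σ.y) * X 2 + C (c0 E σ.x σ.y) * X 0 ^ 3 + C (c1 E σ.x σ.y) * (X 0 ^ 2 * X 1) +
      C (c2 E σ.x σ.y) * (X 0 * X 1 ^ 2) + C (c3 E σ.x σ.y) * X 1 ^ 3) ^ s 2

theorem loc_hom (σ : JD K) (E : Fin 2 → Derivation ℂ K K) :
    IsWeightedHomogeneous (![1, 1, 3] : Fin 3 → ℕ) (σ.loc E) σ.m := by
  have hX0 : IsWeightedHomogeneous (![1, 1, 3] : Fin 3 → ℕ) (X 0 : MvPolynomial (Fin 3) K) 1 :=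
    isWeightedHomogeneous_X K _ 0
  have hX1 : IsWeightedHomogeneous (![1, 1, 3] : Fin 3 → ℕ) (X 1 : MvPolynomial (Fin 3) K) 1 :=
    isWeightedHomogeneous_X K _ 1
  have hX2 : IsWeightedHomogeneous (![1, 1, 3] : Fin 3 → ℕ) (X 2 : MvPolynomial (Fin 3) K) 3 :=
    isWeightedHomogeneous_X K _ 2
  unfold JD.loc
  refine IsWeightedHomogeneous.sum _ _ _ fun s hs => ?_
  have h1 : ∀ a b : K, IsWeightedHomogeneous (![1, 1, 3] : Fin 3 → ℕ)
      (C a * X 0 + C b * X 1 : MvPolynomial (Fin 3) K) 1 := fun a b =>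
    (hX0.C_mul a).add (hX1.C_mul b)
  have h2 : IsWeightedHomogeneous (![1, 1, 3] : Fin 3 → ℕ) (C (cJ E σ.x σ.y) * X 2 +
      C (c0 E σ.x σ.y) * X 0 ^ 3 + C (c1 E σ.x σ.y) * (X 0 ^ 2 * X 1) +
      C (c2 E σ.x σ.y) * (X 0 * X 1 ^ 2) + C (c3 E σ.x σ.y) * X 1 ^ 3) 3 :=
    ((((hX2.C_mul _).add ((hX0.pow 3).C_mul _)).add (((hX0.pow 2).mul hX1).C_mul _)).add
      ((hX0.mul (hX1.pow 2)).C_mul _)).add ((hX1.pow 3).C_mul _)
  have h3 := ((((isWeightedHomogeneous_C (![1, 1, 3] : Fin 3 → ℕ) (σ.p.coeff s)).mul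
    ((h1 (E 0 σ.x) (E 1 σ.x)).pow (s 0))).mul ((h1 (E 0 σ.y) (E 1 σ.y)).pow (s 1))).mul
    (h2.pow (s 2)))
  convert h3 using 1
  rw [← σ.hom s hs]
  simp only [smul_eq_mul]
  ring

theorem loc_eval₂ {L : Type} [CommRing L] (e : K →+* L) (σ : JD K)
    (E : Fin 2 → Derivation ℂ K K) (a b w : L) :
    eval₂ e ![a, b, w] (σ.loc E) = ∑ s ∈ σ.p.support, e (σ.p.coeff s) *
      (e (E 0 σ.x) * a + e (E 1 σ.x) * b) ^ s 0 * (e (E 0 σ.y) * a + e (E 1 σ.y) * b) ^ s 1 *
      (e (cJ E σ.x σ.y) * w + e (c0 E σ.x σ.y) * a ^ 3 + e (c1 E σ.x σ.y) * (a ^ 2 * b) +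
        e (c2 E σ.x σ.y) * (a * b ^ 2) + e (c3 E σ.x σ.y) * b ^ 3) ^ s 2 := by
  unfold JD.loc
  rw [eval₂_sum]
  refine Finset.sum_congr rfl fun s _ => ?_
  simp only [eval₂_mul, eval₂_pow, eval₂_add, eval₂_C, eval₂_X, Matrix.cons_val_zero,
    Matrix.cons_val_one, Matrix.cons_val]

/-- the values on the vector fields `E 0 + (t + r * a) * E 1` -/
theorem jval_comb (σ : JD K) {x : Fin 2 → K} {E : Fin 2 → Derivation ℂ K K} (hx : Dual x E)
    (t r : ℕ) :
    σ.val ((1 : K) • E 0 + ((t : K) + r * x 0) • E 1) =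
      eval ![1, (t : K) + r * x 0, (r : K)] (σ.loc E) := by
  have hcast : ∀ (D : Derivation ℂ K K) (m : ℕ), D (m : K) = 0 := fun D m => by
    rw [Derivation.map_natCast]
  have h00 : E 0 (x 0) = 1 := by have := hx.2 0 0; rwa [if_pos rfl] at this
  have h10 : E 1 (x 0) = 0 := by
    have := hx.2 1 0
    rwa [if_neg (by decide)] at this
  set D : Derivation ℂ K K := (1 : K) • E 0 + ((t : K) + r * x 0) • E 1 with hD
  have hDf : ∀ f, D f = E 0 f + (t + r * x 0) * E 1 f := fun f => by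
    rw [hD, Derivation.add_apply, Derivation.smul_apply, Derivation.smul_apply, smul_eq_mul,
      smul_eq_mul, one_mul]
  have hDs : D ((t : K) + r * x 0) = r := by
    rw [map_add, hcast, D.leibniz, hcast, hDf, h00, h10]
    simp
  have hDD : ∀ f, D (D f) = 0 * E 0 f + r * E 1 f +
      1 * (1 * E 0 (E 0 f) + (t + r * x 0) * E 1 (E 0 f)) +
      (t + r * x 0) * (1 * E 0 (E 1 f) + (t + r * x 0) * E 1 (E 1 f)) := by
    intro f
    rw [hDf f, map_add, D.leibniz, hDs, hDf (E 0 f), hDf (E 1 f)]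
    simp only [smul_eq_mul]
    ring
  have hW : D σ.x * D (D σ.y) - D (D σ.x) * D σ.y = cJ E σ.x σ.y * r + c0 E σ.x σ.y * 1 ^ 3 +
      c1 E σ.x σ.y * (1 ^ 2 * (t + r * x 0)) + c2 E σ.x σ.y * (1 * (t + r * x 0) ^ 2) +
      c3 E σ.x σ.y * (t + r * x 0) ^ 3 := by
    have h1 := wr_expand (A := K) 1 (t + r * x 0) 0 r (E 0 σ.x) (E 1 σ.x) (E 0 (E 0 σ.x))
      (E 0 (E 1 σ.x)) (E 1 (E 0 σ.x)) (E 1 (E 1 σ.x)) (E 0 σ.y) (E 1 σ.y) (E 0 (E 0 σ.y))
      (E 0 (E 1 σ.y)) (E 1 (E 0 σ.y)) (E 1 (E 1 σ.y))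
    rw [hDD σ.x, hDD σ.y, hDf σ.x, hDf σ.y]
    unfold cJ c0 c1 c2 c3
    linear_combination h1
  have h1 := loc_eval₂ (RingHom.id K) σ E 1 (t + r * x 0) r
  rw [← eval₂_id, h1]
  unfold JD.val
  refine Finset.sum_congr rfl fun s _ => ?_
  rw [hW, hDf σ.x, hDf σ.y]
  simp only [RingHom.id_apply]
  ring

/-- **The coefficients in local coordinates are regular.** -/
theorem jreg_coeff {σ : JD K} {v : Place ℂ K}
    (hreg : ∀ D : Derivation ℂ K K, DerReg v D → v.Reg (σ.val D)) {x : Fin 2 → K}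
    {E : Fin 2 → Derivation ℂ K K} (hx : Dual x E) (hE : ∀ l, DerReg v (E l))
    (hx0 : v.Reg (x 0)) (μ : Fin 3 →₀ ℕ) : v.Reg ((σ.loc E).coeff μ) := by
  have hx0' : Ge v 0 (x 0) := hx0
  refine reg_of_values (loc_hom σ E) hx0' (fun t r => ?_) μ
  rw [← jval_comb σ hx]
  refine hreg _ (derReg_comb' hE v.reg_one ?_)
  have h1 := (Ge.natCast (P := v) r).mul hx0'
  rw [add_zero] at h1
  exact (Ge.natCast (P := v) t).add h1

end Pool.Agent.L7h90.JT
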