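import Pool.Agent.L7h90.JT.Alg
import Pool.Agent.L7h90.WR.Twr

/-! Regular products of exact differentials and Wronskians. -/

set_option autoImplicit false

open MvPolynomial FF Pool.Agent.W602.GT Pool.Agent.TH143.GT

namespace Pool.Agent.L7h90.JT

open Pool.Agent.L7h90.WR Pool.Agent.L7h90.GL
open Pool.Agent.N155 (SymD)

section mk

variable {M : Type} [Field M] [Algebra ℂ M] {x : Fin 2 → M} {E : Fin 2 → Derivation ℂ M M}

/-- a quasihomogeneous polynomial gives a differential expression -/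
noncomputable def mkJ (hx : Dual x E) {m : ℕ} {G : MvPolynomial (Fin 3) M}
    (hG : IsWeightedHomogeneous (![1, 1, 3] : Fin 3 → ℕ) G m) : JD M where
  m := m
  p := G
  x := x 0
  y := x 1
  alg := by
    have h2 : ![x 0, x 1] = x := by
      funext i
      fin_cases i <;> rfl
    rw [h2]
    exact hx.1.1
  hom := fun s hs => by
    rw [← weight_three]
    exact hG (mem_support_iff.1 hs)

theorem app_mkJ (hx : Dual x E) {m : ℕ} {G : MvPolynomial (Fin 3) M}
    (hG : IsWeightedHomogeneous (![1, 1, 3] : Fin 3 → ℕ) G m) {B : Type} [Field B] [Algebra ℂ B]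
    [Algebra M B] (D : Derivation ℂ B B) : (mkJ hx hG).app D =
      aeval ![D (algebraMap M B (x 0)), D (algebraMap M B (x 1)),
        wrD D (algebraMap M B (x 0)) (algebraMap M B (x 1))] G := by
  rw [aeval_def, eval₂_eq']
  unfold JD.app
  change ∑ s ∈ G.support, _ = _
  refine Finset.sum_congr rfl fun s _ => ?_
  rw [Fin.prod_univ_three]
  change algebraMap M B (G.coeff s) * D (algebraMap M B (x 0)) ^ s 0 *
    D (algebraMap M B (x 1)) ^ s 1 *
    wrD D (algebraMap M B (x 0)) (algebraMap M B (x 1)) ^ s 2 = _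
  simp only [Matrix.cons_val_zero, Matrix.cons_val_one, Matrix.cons_val]
  ring

theorem lpol_hom (f : M) : IsWeightedHomogeneous (![1, 1, 3] : Fin 3 → ℕ) (lpol E f) 1 :=
  ((isWeightedHomogeneous_X M _ 0).C_mul _).add ((isWeightedHomogeneous_X M _ 1).C_mul _)

theorem wpol_hom (u v : M) : IsWeightedHomogeneous (![1, 1, 3] : Fin 3 → ℕ) (wpol E u v) 3 := by
  have hX0 : IsWeightedHomogeneous (![1, 1, 3] : Fin 3 → ℕ) (X 0 : MvPolynomial (Fin 3) M) 1 :=
    isWeightedHomogeneous_X M _ 0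
  have hX1 : IsWeightedHomogeneous (![1, 1, 3] : Fin 3 → ℕ) (X 1 : MvPolynomial (Fin 3) M) 1 :=
    isWeightedHomogeneous_X M _ 1
  have hX2 : IsWeightedHomogeneous (![1, 1, 3] : Fin 3 → ℕ) (X 2 : MvPolynomial (Fin 3) M) 3 :=
    isWeightedHomogeneous_X M _ 2
  exact ((((hX2.C_mul _).add ((hX0.pow 3).C_mul _)).add (((hX0.pow 2).mul hX1).C_mul _)).add
      ((hX0.mul (hX1.pow 2)).C_mul _)).add ((hX1.pow 3).C_mul _)

/-- products in local coordinates -/
noncomputable def ppol (E : Fin 2 → Derivation ℂ M M) {k N : ℕ} (h : M) (a : Fin k → M)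
    (u v : Fin N → M) : MvPolynomial (Fin 3) M :=
  C h * (∏ l, lpol E (a l)) * ∏ l, wpol E (u l) (v l)

theorem ppol_hom {k N : ℕ} (h : M) (a : Fin k → M) (u v : Fin N → M) :
    IsWeightedHomogeneous (![1, 1, 3] : Fin 3 → ℕ) (ppol E h a u v) (k + N * 3) := by
  have h1 : IsWeightedHomogeneous (![1, 1, 3] : Fin 3 → ℕ) (∏ l, lpol E (a l)) k := by
    have := IsWeightedHomogeneous.prod Finset.univ (fun l => lpol E (a l)) (fun _ => 1)
      (w := (![1, 1, 3] : Fin 3 → ℕ)) fun l _ => lpol_hom (a l)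
    simpa using this
  have h2 : IsWeightedHomogeneous (![1, 1, 3] : Fin 3 → ℕ) (∏ l, wpol E (u l) (v l)) (N * 3) := by
    have := IsWeightedHomogeneous.prod Finset.univ (fun l => wpol E (u l) (v l)) (fun _ => 3)
      (w := (![1, 1, 3] : Fin 3 → ℕ)) fun l _ => wpol_hom (u l) (v l)
    simpa using this
  exact (h1.C_mul h).mul h2

theorem aeval_ppol (hx : Dual x E) {k N : ℕ} (h : M) (a : Fin k → M) (u v : Fin N → M)
    {B : Type} [Field B] [Algebra ℂ B] [Algebra M B] [IsScalarTower ℂ M B]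
    (D : Derivation ℂ B B) :
    aeval ![D (algebraMap M B (x 0)), D (algebraMap M B (x 1)),
      wrD D (algebraMap M B (x 0)) (algebraMap M B (x 1))] (ppol E h a u v) =
    algebraMap M B h * (∏ l, D (algebraMap M B (a l))) *
      ∏ l, wrD D (algebraMap M B (u l)) (algebraMap M B (v l)) := by
  unfold ppol
  simp only [map_mul, map_prod, aeval_C, aeval_wpol hx, aeval_lpol hx]

/-- symmetric differentials in local coordinates -/
noncomputable def spol (E : Fin 2 → Derivation ℂ M M) (τ : SymD M) : MvPolynomial (Fin 3) M :=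
  ∑ j, C (τ.h j) * ∏ l, lpol E (τ.f j l)

theorem spol_hom (τ : SymD M) :
    IsWeightedHomogeneous (![1, 1, 3] : Fin 3 → ℕ) (spol E τ) τ.d := by
  unfold spol
  refine IsWeightedHomogeneous.sum _ _ _ fun j _ => ?_
  have := IsWeightedHomogeneous.prod Finset.univ (fun l => lpol E (τ.f j l)) (fun _ => 1)
    (w := (![1, 1, 3] : Fin 3 → ℕ)) fun l _ => lpol_hom (τ.f j l)
  have h2 := this.C_mul (τ.h j)
  simpa using h2

theorem aeval_spol (hx : Dual x E) (τ : SymD M) (D : Derivation ℂ M M) :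
    aeval ![D (algebraMap M M (x 0)), D (algebraMap M M (x 1)),
      wrD D (algebraMap M M (x 0)) (algebraMap M M (x 1))] (spol E τ) = τ.val D := by
  unfold spol SymD.val
  rw [map_sum]
  refine Finset.sum_congr rfl fun j _ => ?_
  rw [map_mul, aeval_C, map_prod]
  refine congrArg₂ (· * ·) rfl (Finset.prod_congr rfl fun l _ => ?_)
  exact aeval_lpol hx D _

theorem aeval_spol' (hx : Dual x E) (τ : SymD M) {B : Type} [Field B] [Algebra ℂ B]
    [Algebra M B] [IsScalarTower ℂ M B] (D : Derivation ℂ B B) :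
    aeval ![D (algebraMap M B (x 0)), D (algebraMap M B (x 1)),
      wrD D (algebraMap M B (x 0)) (algebraMap M B (x 1))] (spol E τ) =
      τ.app (D.compAlgebraMap M) := by
  unfold spol SymD.app
  rw [map_sum]
  refine Finset.sum_congr rfl fun j _ => ?_
  rw [map_mul, aeval_C, map_prod]
  refine congrArg₂ (· * ·) rfl (Finset.prod_congr rfl fun l _ => ?_)
  exact aeval_lpol hx D _

end mk

theorem dual_of_trdeg {K : Type} [Field K] [Algebra ℂ K] (htr : Algebra.trdeg ℂ K = 2) :
    ∃ (x : Fin 2 → K) (E : Fin 2 → Derivation ℂ K K), Dual x E := by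
  obtain ⟨x, hx⟩ := basis_of_trdeg (w := 2) (by rw [htr]; rfl)
  obtain ⟨E, hE⟩ := exists_dual hx
  refine ⟨x, E, hx, fun i j => ?_⟩
  have := congrFun (congrFun hE i) j
  rw [Matrix.of_apply, Matrix.one_apply] at this
  exact this

variable {K : Type} [Field K] [Algebra ℂ K]

theorem val_eq_app (σ : JD K) (D : Derivation ℂ K K) : σ.val D = σ.app D := rfl

theorem product_of_regular (htr : Algebra.trdeg ℂ K = 2) (hK : RegularProduct K) :
    JetProduct K := by
  obtain ⟨k, N, h, a, u, v, h0, hh, ha, hu, hreg⟩ := hK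
  obtain ⟨x, E, hx⟩ := dual_of_trdeg htr
  have hap : ∀ D : Derivation ℂ K K, (mkJ hx (ppol_hom (E := E) h a u v)).app D =
      h * (∏ l, D (a l)) * ∏ l, wrD D (u l) (v l) := fun D => by
    rw [app_mkJ, aeval_ppol hx]
    rfl
  refine ⟨K, inferInstance, inferInstance, inferInstance, inferInstance, 1, k, N,
    fun _ => mkJ hx (ppol_hom (E := E) h a u v), fun _ => mkJ hx (isWeightedHomogeneous_one K _),
    h, a, u, v, inferInstance, fun _ => ⟨?_, fun p hp D hD => ?_⟩, hh, ha, hu, fun D => ?_⟩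
  · change 0 < k + N * 3
    omega
  · rw [val_eq_app, hap]
    exact hreg p hp D hD
  · rw [Fin.sum_univ_one, hap, app_mkJ, map_one, one_mul]

theorem regular_of_wronskian (hK : HasWronskian K) : RegularProduct K := by
  obtain ⟨σ, h1, h2, h3, h4⟩ := hK
  refine ⟨0, σ.N, σ.h, Fin.elim0, fun _ => σ.u, fun _ => σ.v, by omega, h2, fun l => l.elim0,
    fun _ => h3, fun p hp D hD => ?_⟩
  have h5 := h4 p hp D hD
  unfold WDif.val at h5
  simp only [Finset.univ_eq_empty, Finset.prod_empty, mul_one, Finset.prod_const,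
    Finset.card_univ, Fintype.card_fin]
  exact h5

theorem product_of_exact (htr : Algebra.trdeg ℂ K = 2) (hK : ExactProduct K) : JetProduct K := by
  obtain ⟨M, _, _, _, _, r, d, σ, ρ, h, a, halg, hσ, hh, ha, hid⟩ := hK
  have htrM : Algebra.trdeg ℂ M = 2 := by
    have h0 : Algebra.trdeg ℂ K + Algebra.trdeg K M = Algebra.trdeg ℂ M := _root_.trdeg_add_eq ℂ K
    rw [_root_.trdeg_eq_zero (R := K) (A := M), add_zero, htr] at h0
    exact h0.symm
  obtain ⟨x, E, hx⟩ := dual_of_trdeg htr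
  obtain ⟨x', E', hx'⟩ := dual_of_trdeg htrM
  refine ⟨M, inferInstance, inferInstance, inferInstance, inferInstance, r, d, 0,
    fun i => mkJ hx (spol_hom (E := E) (σ i)), fun i => mkJ hx' (spol_hom (E := E') (ρ i)),
    h, a, Fin.elim0, Fin.elim0, halg, fun i => ⟨(hσ i).1, fun p hp D hD => ?_⟩, hh, ha,
    fun l => l.elim0, fun D => ?_⟩
  · have h1 := (hσ i).2 p hp D hD
    rw [val_eq_app, app_mkJ, aeval_spol hx]
    exact h1
  · rw [Finset.univ_eq_empty (α := Fin 0), Finset.prod_empty, mul_one, ← hid D]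
    refine Finset.sum_congr rfl fun i _ => ?_
    rw [app_mkJ, app_mkJ, aeval_spol hx', aeval_spol' hx]
    congr 1

end Pool.Agent.L7h90.JT
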