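import Pool.Agent.L7h90.JT.Rig

/-! Rigidity of the curves on which an invariant differential expression of the second order is a
nonzero constant: the two cases. -/

set_option autoImplicit false

open Filter Topology Set Metric MvPolynomial FF

namespace Pool.Agent.L7h90.JT

open Pool.Agent.N155 Pool.Agent.Y190.OP Pool.Agent.W602.GT Pool.Agent.TH143.GT
open Pool.Agent.L7h90.WR

variable {n : ℕ} {K : Type} [Field K] [Algebra ℂ K] {y : Fin (n + 1) → K}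
  {R : ∀ h : K, Frac y h} {𝒞 : (ℂ → Mat (n + 1)) → Prop} {c0 : ℝ} {σ : JD K} {c : ℂ}

/-- the second case -/
theorem JCls.rigBt (h : JCls R 𝒞 c0 σ c) {t : ℕ} (ht : ∀ ψ, 𝒞 ψ → JEq R σ t 0 ψ)
    (hne : ∀ ψ, 𝒞 ψ → ∀ᶠ z in codiscrete ℂ, jv R σ (t + 1) ψ z ≠ 0) : RigB' 𝒞 := by
  refine h.rigB_of fun {𝓤 φ P Q a κ} d hinf γ hδ hgr => ?_
  have hγ : ∀ f : K, ∀ᶠ z in codiscrete ℂ,
      Dl R 𝓤 P Q (fun m z => κ m * Complex.exp (a m * z)) f z =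
        γ * deriv (fun w => ev R f (φ w)) z := fun f =>
    mul_codis R (jdfo h d) (γ := fun _ => γ) (hγ := Meromorphic.const γ) (fun k => by
      rw [cl_const]
      exact hδ k) f
  have hall := (hne φ d.cφ).and ((jgood_codis R (h.cv φ d.cφ) σ).and ((hγ σ.x).and (hγ σ.y)))
  obtain ⟨z, k1, k2, k3, k4⟩ := hall.exists
  exact gam_zero R (jdfo h d) hinf (hgr z) k2 k3 k4 h.cne h.mpos (fun m => h.seq _ (d.cP m))
    (fun m => h.seq _ (d.cQ m)) (h.seq _ d.cφ) (fun m => ht _ (d.cP m)) (fun m => ht _ (d.cQ m))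
    (ht _ d.cφ) k1

/-- the quotient of a pluricanonical form by the derivative -/
noncomputable def tau (R : ∀ h : K, Frac y h) (σ : JD K) (g : K) (N : ℕ)
    (ψ : ℂ → Mat (n + 1)) (z : ℂ) : ℂ := ev R g (ψ z) / jv R σ 1 ψ z ^ N

/-- the quotient is constant -/
theorem tau_const (h : JCls R 𝒞 c0 σ c)
    (hne : ∀ ψ, 𝒞 ψ → ∀ᶠ z in codiscrete ℂ, jv R σ 1 ψ z ≠ 0) {g : K} {N : ℕ}
    {φ : ℂ → Mat (n + 1)} (hφ : 𝒞 φ)
    (hb : ∀ z0, ∃ C : ℝ, ∀ᶠ z in 𝓝[≠] z0, ‖tau R σ g N φ z‖ ≤ C) :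
    ∃ c : ℂ, (h.cv φ hφ).emb R g = algebraMap ℂ MK c *
      cl (jv R σ 1 φ) (jv_mero R (h.cv φ hφ) σ 1) ^ N := by
  have hm : ∀ ψ, 𝒞 ψ → Meromorphic (tau R σ g N ψ) := fun ψ hψ z =>
    ((h.cv ψ hψ).mero R g z).div ((jv_mero R (h.cv ψ hψ) σ 1 z).pow N)
  obtain ⟨c1, hc1⟩ := const_gen h.cls (τ := tau R σ g N)
    (G := fun ψ z => good R g (ψ z) ∧ jgood R σ (ψ z) ∧ jv R σ 1 ψ z ≠ 0) hm
    (fun ψ hψ => ((h.cv ψ hψ).good R g).and ((jgood_codis R (h.cv ψ hψ) σ).and (hne ψ hψ)))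
    (fun ψ hψ z hz => ((h.cv ψ hψ).an R hz.1).continuousAt.div
      ((jv_an R (h.cv ψ hψ) 1 hz.2.1).continuousAt.pow N) (pow_ne_zero _ hz.2.2))
    (fun ψ t z => by
      unfold tau
      rw [jv_shift])
    (fun ψ t z hz => by
      obtain ⟨k1, k2, k3⟩ := hz
      rw [jv_shift] at k3
      exact ⟨k1, k2, k3⟩)
    (fun 𝓤 P χ hP hχ hc z hz => by
      obtain ⟨k1, k2, k3⟩ := hz
      have hhP : ∀ m, HolP univ (P m) := fun m => h.cls.hol _ (hP m)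
      have hhχ : HolP univ χ := h.cls.hol _ hχ
      have m1 := (ev_two R hc hhP hhχ k1).1
      have m2 := jv_lim R hc hhP hhχ 1 k2
      refine ⟨?_, m1.div (m2.pow N) (pow_ne_zero _ k3)⟩
      filter_upwards [(hc z (mem_univ z)).eventually ((isOpen_good R g).mem_nhds k1),
        jgood_lim R hc k2, m2.eventually_ne k3] with p l1 l2 l3 using ⟨l1, l2, l3⟩)
    hφ hb
  refine ⟨c1, ?_⟩
  rw [← hc1, Cv.emb_apply, cl_pow', cl_mul, cl_eq]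
  filter_upwards [hne φ hφ] with z hz
  rw [Pi.mul_apply]
  unfold tau
  rw [div_mul_cancel₀ _ (pow_ne_zero _ hz)]

/-- the quotient has no poles on the limit curve of a rapidly oscillating deformation -/
theorem tau_bdd (h : JCls R 𝒞 c0 σ c)
    (hne : ∀ ψ, 𝒞 ψ → ∀ᶠ z in codiscrete ℂ, jv R σ 1 ψ z ≠ 0)
    {𝓤 : Ultrafilter ℕ} {φ : ℂ → Mat (n + 1)} {P Q : ℕ → ℂ → Mat (n + 1)}
    {a κ : ℕ → ℂ} (d : Dat 𝒞 𝓤 φ P Q a κ)
    (hinf : ∀ C : ℝ, ∀ᶠ m in (𝓤 : Filter ℕ), C ≤ ‖a m‖) {γ : ℂ} (hγ0 : γ ≠ 0)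
    (hδ : ∀ k, (jdfo h d).del R k = algebraMap ℂ MK γ * MD ((jdfo h d).cv.emb R k))
    (hgr : ∀ z, ∀ᶠ p : ℕ × ℂ in (𝓤 : Filter ℕ) ×ˢ 𝓝 z,
        Real.exp (‖a p.1‖ / 2) ≤ ‖κ p.1 * Complex.exp (a p.1 * p.2)‖)
    {N : ℕ} {ω : (Fin 2 → Derivation ℂ K K) → K} (hω : IsPluri N ω)
    (hreg : ∀ v : Place ℂ K, Divisorial 2 v → RegAt v ω)
    {E0 : Fin 2 → Derivation ℂ K K} (hE0 : Dual ![σ.x, σ.y] E0) (z0 : ℂ) :
    ∃ C : ℝ, ∀ᶠ z in 𝓝[≠] z0, ‖tau R σ (ω E0) N φ z‖ ≤ C := by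
  have hcv := h.cv φ d.cφ
  obtain ⟨i, j, k, E, hi, hnz, hE, hq⟩ := h.lb (φ z0) (hcv.mem z0)
  have hJ : cJ E σ.x σ.y ≠ 0 := cJ_ne hE σ.alg
  have hquo : ω E0 = ω E / cJ E σ.x σ.y ^ N := by
    have h1 := pluri_change (E := E) hω hE0
    simp only [Matrix.cons_val_zero, Matrix.cons_val_one] at h1
    have h2 : E 0 σ.x * E 1 σ.y - E 0 σ.y * E 1 σ.x = cJ E σ.x σ.y := by
      unfold cJ
      ring
    rw [h2] at h1
    rw [h1, mul_div_cancel_left₀ _ (pow_ne_zero _ hJ)]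
  obtain ⟨O, hO, C1, hC1⟩ := hq (ω E) fun v hv _ hr => hreg v hv E hr
  obtain ⟨C2, hC2⟩ := jlam_bdd R (jdfo h d) hinf hgr (fun m => h.cv _ (d.cP m))
    (fun m => h.cv _ (d.cQ m)) (fun m => h.seq _ (d.cP m)) (fun m => h.seq _ (d.cQ m))
    (h.seq _ d.cφ) hi hE hδ (hne φ d.cφ) hnz
  set ε : ℝ := ‖γ * σ.m * c‖ / (|C2| + 1) with hε
  have hmC : (σ.m : ℂ) ≠ 0 := by exact_mod_cast h.mpos.ne'
  have hε0 : 0 < ε := by
    have h1 : 0 < ‖γ * σ.m * c‖ := norm_pos_iff.2 (mul_ne_zero (mul_ne_zero hγ0 hmC) h.cne)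
    positivity
  refine ⟨|C1| / ε ^ N, ?_⟩
  have hcont : Continuous φ := h.cls.cont d.cφ
  have hquot : ∀ᶠ z in codiscrete ℂ, ev R (ω E0) (φ z) =
      ev R (ω E) (φ z) / ev R (cJ E σ.x σ.y) (φ z) ^ N := by
    have h1 : hcv.emb R (ω E0) = hcv.emb R (ω E) / hcv.emb R (cJ E σ.x σ.y) ^ N := by
      rw [hquo, map_div₀, map_pow]
    rw [Cv.emb_apply, Cv.emb_apply, Cv.emb_apply, cl_pow', cl_div] at h1
    exact cl_eq.1 h1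
  have hOc : ∀ᶠ z in 𝓝[≠] z0, φ z ∈ O := nhdsWithin_le_nhds (hcont.continuousAt hO)
  filter_upwards [hOc, hC2, codis_ev (hcv.good R (ω E)) z0, codis_ev hquot z0,
    codis_ev (ev_ne_codis R hcv hJ) z0, codis_ev (hne φ d.cφ) z0]
    with z k1 k2 k3 k5 k6 k7
  unfold tau
  rw [k5, div_div, ← mul_pow, norm_div, norm_pow]
  have b1 : ‖ev R (ω E) (φ z)‖ ≤ |C1| := (hC1 _ ⟨k1, hcv.mem z⟩ k3).trans (le_abs_self _)
  have b2 : ε ≤ ‖ev R (cJ E σ.x σ.y) (φ z) * jv R σ 1 φ z‖ := by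
    have hpos : 0 < ‖jv R σ 1 φ z * ev R (cJ E σ.x σ.y) (φ z)‖ :=
      norm_pos_iff.2 (mul_ne_zero k7 k6)
    rw [norm_div, div_le_iff₀ hpos] at k2
    rw [hε, div_le_iff₀ (by positivity), mul_comm (ev R (cJ E σ.x σ.y) (φ z))]
    have h3 : C2 * ‖jv R σ 1 φ z * ev R (cJ E σ.x σ.y) (φ z)‖ ≤
        (|C2| + 1) * ‖jv R σ 1 φ z * ev R (cJ E σ.x σ.y) (φ z)‖ :=
      mul_le_mul_of_nonneg_right (by linarith [le_abs_self C2]) hpos.le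
    linarith
  exact div_le_div₀ (abs_nonneg _) b1 (by positivity) (pow_le_pow_left₀ hε0.le b2 _)

/-- the first case -/
theorem JCls.rigB0 (h : JCls R 𝒞 c0 σ c)
    (hne : ∀ ψ, 𝒞 ψ → ∀ᶠ z in codiscrete ℂ, jv R σ 1 ψ z ≠ 0) : RigB' 𝒞 := by
  refine h.rigB_of fun {𝓤 φ P Q a κ} d hinf γ hδ hgr => ?_
  by_contra hγ
  obtain ⟨x, E, hx⟩ := h.basis
  obtain ⟨E0, hE0⟩ := exists_dual_jd hx σ
  obtain ⟨N, ω0, ω1, D, hN, hω0, hω1, hr0, hr1, hD, htr⟩ := h.forms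
  obtain ⟨k0, hk0⟩ := tau_const h hne d.cφ (g := ω0 E0) (N := N) fun z0 =>
    tau_bdd h hne d hinf hγ hδ hgr hω0 hr0 hE0 z0
  obtain ⟨k1, hk1⟩ := tau_const h hne d.cφ (g := ω1 E0) (N := N) fun z0 =>
    tau_bdd h hne d hinf hγ hδ hgr hω1 hr1 hE0 z0
  set e := (h.cv φ d.cφ).emb R with he
  set j := cl (jv R σ 1 φ) (jv_mero R (h.cv φ d.cφ) σ 1) with hj
  have hj0 : j ≠ 0 := by
    intro h0
    rw [hj, cl_eq_zero] at h0
    obtain ⟨z, hz, hz'⟩ := (h0.and (hne φ d.cφ)).exists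
    exact hz' hz
  have hE00 : ω0 E0 ≠ 0 := pluri_ne hω0 hE0 hD
  have hratio : ω1 D / ω0 D = ω1 E0 / ω0 E0 := pluri_ratio hω0 hω1 hE0 hD
  apply htr
  rw [hratio]
  have h1 : e (ω1 E0 / ω0 E0) = algebraMap ℂ MK (k1 / k0) := by
    rw [map_div₀, hk0, hk1, mul_div_mul_right _ _ (pow_ne_zero _ hj0), map_div₀]
  have h2 : ω1 E0 / ω0 E0 = algebraMap ℂ K (k1 / k0) := by
    apply e.toRingHom.injective
    change e _ = e _
    rw [h1, e.commutes]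
  rw [h2]
  exact isAlgebraic_algebraMap _

end Pool.Agent.L7h90.JT
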