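import Pool.Agent.L7h90.JT.Tan
import Pool.Agent.L7h90.JT.Alg
import Pool.Agent.L7h90.GL.Web2

/-! Surfaces of general type and invariant differential expressions of the second order: towers. -/

set_option autoImplicit false

open Filter Topology Set Metric MvPolynomial FF LinearAlgebra.Projectivization

namespace Pool.Agent.L7h90.JT

open Pool.Agent.Y190.OP Pool.Agent.W602.GT Pool.Agent.L7h90.WR
open Pool.Agent.N155 (Cv TX MK MD MD_eq_zero MD_add MD_mul MD_const cl cl_eq_zero Frac fr)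
open Pool.Agent.N154.GG (SmoothVariety HolMap holP_of projDist)
open Pool.Agent.N154.TB
open Pool.Agent.L7h90.GL
open scoped LinearAlgebra.Projectivization

section smooth

variable {n : ℕ} {K : Type} [Field K] [Algebra ℂ K] {y : Fin (n + 1) → K}

theorem not_rigid (hgen : coords ℂ y = ⊤) {φ : ℂ → Mat (n + 1)} (hcv : Cv y φ)
    (hseq : ∀ (R : ∀ h : K, Frac y h) (σ : JD K), 0 < σ.m → σ.Regular 2 → JEq R σ 0 0 φ) :
    ¬ JetRigid K := by
  intro hK
  let R : ∀ h : K, Frac y h := fr hgen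
  set e := hcv.emb R with he
  let _ : Algebra K MK := e.toRingHom.toAlgebra
  have hal : ∀ k : K, algebraMap K MK k = e k := fun k => rfl
  have _ : IsScalarTower ℂ K MK := IsScalarTower.of_algebraMap_eq fun c => by
    rw [hal, e.commutes]
  obtain ⟨σ, hσd, hσr, hσ⟩ := hK MK MDer (fun a ha => MD_eq_zero ha)
  apply hσ
  have h1 : σ.app MDer = cl (jv R σ 0 φ) (jv_mero R hcv σ 0) := by
    rw [emb_jv]
    rfl
  rw [h1, cl_eq_zero]
  filter_upwards [jgood_codis R hcv σ] with z hz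
  exact hseq R σ hσd hσr z hz

end smooth

variable {n n₁ n' : ℕ} {ι ι₁ ι' : Type} {F : ι → MvPolynomial (Fin (n + 1)) ℂ}
  {F₁ : ι₁ → MvPolynomial (Fin (n₁ + 1)) ℂ} {F' : ι' → MvPolynomial (Fin (n' + 1)) ℂ}
  {K K' : Type} [Field K] [Algebra ℂ K] [Field K'] [Algebra ℂ K'] {y : Fin (n + 1) → K}
  {y' : Fin (n' + 1) → K'} {P : Fin (n₁ + 1) → MvPolynomial (Fin (n' + 1)) ℂ}
  {Q : Fin (n + 1) → MvPolynomial (Fin (n₁ + 1)) ℂ} {D : MvPolynomial (Fin (n + 1)) ℂ}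

/-- **Entire curves and invariant differential expressions.** -/
theorem tower_jet (h : Tower F' y' P F₁ Q D F y) {V : Set (ℙ ℂ (Fin (n + 1) → ℂ))}
    (hVc : IsClosedProj V) :
    (∃ g, CurveIn (Cone F) g ∧ ¬ IsConst g ∧ (∀ z, g z ∈ V) ∧ EllipticClosure g) ∨
    ((∀ g', CurveIn (Cone F') g' → ¬ IsConst g' → (∀ z, img Q (img P (g' z)) ∈ V) → IsBrody g' →
        Nondeg y' g' ∧ ∀ σ : JD K', 0 < σ.m → σ.Regular 2 → σ.Solves y' g') ∧
      ((∃ f, CurveIn (Cone F) f ∧ ¬ IsConst f ∧ ∀ z, f z ∈ V) → ¬ JetRigid K' ∧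
        ∃ g', CurveIn (Cone F') g' ∧ ¬ IsConst g' ∧ (∀ z, img Q (img P (g' z)) ∈ V) ∧
          IsBrody g')) := by
  by_cases hE : ∃ g, CurveIn (Cone F) g ∧ ¬ IsConst g ∧ (∀ z, g z ∈ V) ∧ EllipticClosure g
  · exact Or.inl hE
  right
  push Not at hE
  set V' : Set (ℙ ℂ (Fin (n' + 1) → ℂ)) := {q | q.rep ∈ Cone F' ∧ img Q (img P q) ∈ V} with hV'
  have hV'X : ∀ p ∈ V', p.rep ∈ Cone F' := fun p hp => hp.1
  have hV'c : IsClosedProj V' := by
    intro p hp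
    have hpc : p.rep ∈ Cone F' := mem_cone_of_close h.smooth.form fun ε hε => by
      obtain ⟨q, hq, hd⟩ := hp ε hε
      exact ⟨q, hq.1, hd⟩
    refine ⟨hpc, hVc _ fun ε hε => ?_⟩
    obtain ⟨δ, hδ, h1⟩ := h.cont hpc hε
    obtain ⟨q, hq, hd⟩ := hp δ hδ
    exact ⟨_, hq.2, h1 q hq.1 hd⟩
  have hdeg : ∀ g' : ℂ → ℙ ℂ (Fin (n' + 1) → ℂ), CurveIn (Cone F') g' → ¬ IsConst g' →
      (∀ z, g' z ∈ V') → Nondeg y' g' := by
    intro g' hg' hgn hgV G hG h0
    by_contra hGy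
    have h1 : EllipticClosure g' := elliptic_of_degenerate h.smooth.sub h.smooth.irred
      (holP_of hg'.1) hg'.2 (nonconst_pair hgn) hG hGy h0
    obtain ⟨h2, h3⟩ := h.push hg' hgn
    exact hE _ h2 h3 (fun z => (hgV z).2) (h.push_ell hg' hgn h1)
  refine ⟨fun g' hg' hgn hgV hgB => ?_, fun ⟨f, hf, hne, hfV⟩ => ?_⟩
  · have hgV' : ∀ z, g' z ∈ V' := fun z => ⟨hg'.2 z, hgV z⟩
    exact ⟨hdeg g' hg' hgn hgV', (jd_curves h.smooth h.general hV'X hV'c hdeg hg' hgn hgV'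
      hgB).2.2⟩
  · have hD : ∃ z, val (f z).rep D ≠ 0 := by
      by_contra hD
      push Not at hD
      exact hE f hf hne hfV (h.degenerate hf hne hD)
    obtain ⟨f', hf', hff⟩ := h.lift hf hD
    have hne' : ¬ IsConst f' := fun hc => hne fun z w => by rw [hff z, hff w, hc z w]
    obtain ⟨g', hg', hgn, hgV, hgB⟩ := exists_brody h.smooth (V := V') hV'X hV'c hf'
      (fun z => ⟨hf'.2 z, by rw [← hff z]; exact hfV z⟩) hne'
    obtain ⟨hcv, hseq, -⟩ := jd_curves h.smooth h.general hV'X hV'c hdeg hg' hgn hgV hgB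
    exact ⟨not_rigid h.smooth.sub.gen hcv hseq, g', hg', hgn, fun z => (hgV z).2, hgB⟩

/-- **Entire curves on surfaces without solutions.** -/
theorem tower_rigid (h : Tower F' y' P F₁ Q D F y) (hW : JetRigid K')
    {V : Set (ℙ ℂ (Fin (n + 1) → ℂ))} (hVc : IsClosedProj V)
    (hf : ∃ f, CurveIn (Cone F) f ∧ ¬ IsConst f ∧ ∀ z, f z ∈ V) :
    ∃ g, CurveIn (Cone F) g ∧ ¬ IsConst g ∧ (∀ z, g z ∈ V) ∧ EllipticClosure g := by
  rcases tower_jet h hVc with h1 | ⟨-, h2⟩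
  · exact h1
  · exact absurd hW (h2 hf).1

/-- **Hyperbolicity.** -/
theorem tower_jet_hyp (h : Tower F' y' P F₁ Q D F y) (hW : JetRigid K')
    (hell : NoElliptic F) : BrodyHyp (Cone F) := by
  intro f hf
  by_contra hne
  obtain ⟨g, hg, -, -, hge⟩ := tower_rigid h hW h.closed_all ⟨f, hf, hne, fun z => hf.2 z⟩
  exact hell.of_closure h.form hg.2 hge

end Pool.Agent.L7h90.JT
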